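import Pool.Agent.Helper32.FS.Twist

/-!
# Twisted trees without infinite branches
-/

open Set

namespace Pool.Agent.FinStab

/-- infinite degree -/
def Inf {V : Type*} (G : SimpleGraph V) (v : V) : Prop := {w | G.Adj v w}.Infinite

theorem inf_of_iso {V W : Type*} {G : SimpleGraph V} {H : SimpleGraph W} (φ : G ≃g H) (x : V)
    (h : Inf G x) : Inf H (φ x) := by
  refine ((h.image φ.injective.injOn)).mono ?_
  rintro _ ⟨w, hw, rfl⟩
  exact φ.map_rel_iff.mpr hw

theorem inf_iff_of_iso {V W : Type*} {G : SimpleGraph V} {H : SimpleGraph W} (φ : G ≃g H) (x : V) :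
    Inf H (φ x) ↔ Inf G x := by
  constructor
  · intro h
    have := inf_of_iso φ.symm _ h
    simpa using this
  · exact inf_of_iso φ x

theorem inf_copies {C β : Type*} (B : C → SimpleGraph β) (c : C) (x : β) :
    Inf (copies B) (c, x) ↔ Inf (B c) x := by
  have hinj : Function.Injective (fun y : β => (c, y)) := fun a b hab => (Prod.ext_iff.mp hab).2
  have h : {w | (copies B).Adj (c, x) w} = (fun y => (c, y)) '' {y | (B c).Adj x y} := by
    ext ⟨d, y⟩
    constructor
    · rintro ⟨h1, h2⟩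
      have h1' : c = d := h1
      subst h1'
      exact ⟨y, h2, rfl⟩
    · rintro ⟨y', h1, h2⟩
      obtain ⟨rfl, rfl⟩ := Prod.ext_iff.mp h2
      exact ⟨rfl, h1⟩
  unfold Inf
  rw [h]
  exact ⟨fun h1 h2 => h1 (h2.image _), fun h1 => h1.image hinj.injOn⟩

section local_facts

variable (S : Set (List ℕ)) (t : Bool)

theorem inf_p (s : List ℕ) (b : Bool) : Inf (tw S t) (TV.p s b) := by
  cases b with
  | true =>
    have hinj : Function.Injective (fun n : ℕ => TV.q s {n}) := by
      intro a b h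
      simpa using h
    refine (Set.infinite_range_of_injective hinj).mono ?_
    rintro _ ⟨n, rfl⟩
    exact Or.inr ⟨rfl, by simp [par]⟩
  | false =>
    have hinj : Function.Injective (fun n : ℕ => TV.q s {0, n + 1}) := by
      intro a b h
      have h1 : ({0, a + 1} : Finset ℕ) = {0, b + 1} := by simpa using h
      have h2 : a + 1 ∈ ({0, b + 1} : Finset ℕ) := by rw [← h1]; simp
      simpa using h2
    refine (Set.infinite_range_of_injective hinj).mono ?_
    rintro _ ⟨n, rfl⟩
    refine Or.inr ⟨rfl, ?_⟩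
    have : ({0, n + 1} : Finset ℕ).card = 2 := Finset.card_pair (by omega)
    unfold par
    rw [this]
    rfl

theorem inf_q (s : List ℕ) (f : Finset ℕ) : Inf (tw S t) (TV.q s f) := by
  have hinj : Function.Injective (fun n : ℕ => TV.e s f n) := by
    intro a b h
    simpa using h
  refine (Set.infinite_range_of_injective hinj).mono ?_
  rintro _ ⟨n, rfl⟩
  exact Or.inl ⟨rfl, rfl⟩

theorem fin_e (s : List ℕ) (f : Finset ℕ) (n : ℕ) : ¬ Inf (tw S t) (TV.e s f n) := by
  intro h
  apply h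
  refine Set.Finite.subset (Set.toFinite {TV.q s f, TV.p (n :: s) true, TV.p (n :: s) false}) ?_
  intro w hw
  cases w with
  | p s' b =>
    have : s' = n :: s := by
      have := hw
      simp [tw_adj, TR] at this
      exact this.1
    subst this
    cases b <;> simp
  | q s' f' =>
    have : s' = s ∧ f' = f := by
      have := hw
      simp [tw_adj, TR] at this
      exact this
    obtain ⟨rfl, rfl⟩ := this
    simp
  | e s' f' n' => simp [tw_adj, TR] at hw
  | l s' => simp [tw_adj, TR] at hw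
  | m i => simp [tw_adj, TR] at hw

theorem fin_l (s : List ℕ) : ¬ Inf (tw S t) (TV.l s) := by
  intro h
  apply h
  refine Set.Finite.subset (Set.toFinite {TV.p s true, TV.p s false}) ?_
  intro w hw
  cases w with
  | p s' b =>
    have : s = s' := by
      have := hw
      simp [tw_adj, TR] at this
      exact this.1
    subst this
    cases b <;> simp
  | q s' f' => simp [tw_adj, TR] at hw
  | e s' f' n' => simp [tw_adj, TR] at hw
  | l s' => simp [tw_adj, TR] at hw
  | m i => simp [tw_adj, TR] at hw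

theorem fin_m (i : Bool) : ¬ Inf (tw S t) (TV.m i) := by
  intro h
  apply h
  refine Set.Finite.subset (Set.toFinite {TV.p [] true, TV.p [] false, TV.m true, TV.m false}) ?_
  intro w hw
  cases w with
  | p s' b =>
    have : s' = [] := by
      have := hw
      simp [tw_adj, TR] at this
      exact this.1
    subst this
    cases b <;> simp
  | q s' f' => simp [tw_adj, TR] at hw
  | e s' f' n' => simp [tw_adj, TR] at hw
  | l s' => simp [tw_adj, TR] at hw
  | m j => cases j <;> simp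

/-- lying in a triangle -/
def Tri {V : Type*} (G : SimpleGraph V) (v : V) : Prop :=
  ∃ w w', G.Adj v w ∧ G.Adj v w' ∧ G.Adj w w'

theorem tri_of_iso {V W : Type*} {G : SimpleGraph V} {H : SimpleGraph W} (φ : G ≃g H) (x : V)
    (h : Tri G x) : Tri H (φ x) := by
  obtain ⟨w, w', h1, h2, h3⟩ := h
  exact ⟨φ w, φ w', φ.map_rel_iff.mpr h1, φ.map_rel_iff.mpr h2, φ.map_rel_iff.mpr h3⟩

theorem tri_copies {C β : Type*} (B : C → SimpleGraph β) (c : C) (x : β)
    (h : Tri (copies B) (c, x)) : Tri (B c) x := by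
  obtain ⟨⟨d, w⟩, ⟨d', w'⟩, ⟨h1, h2⟩, ⟨h3, h4⟩, ⟨h5, h6⟩⟩ := h
  have h1' : c = d := h1
  have h3' : c = d' := h3
  subst h1'
  subst h3'
  exact ⟨w, w', h2, h4, h6⟩

theorem tri_tw (x : TV) (h : Tri (tw S t) x) : x = TV.p [] t ∨ ∃ i, x = TV.m i := by
  obtain ⟨w, w', h1, h2, h3⟩ := h
  rw [tw_adj] at h1 h2 h3
  cases x with
  | m i => exact Or.inr ⟨i, rfl⟩
  | p s b =>
    left
    cases w with
    | m i =>
      simp only [TR, false_or] at h1
      rw [h1.1, h1.2]
    | p s' b' => simp [TR] at h1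
    | l s' =>
      cases w' <;> simp [TR] at h1 h2 h3
    | q s' f' =>
      cases w' with
      | e s'' f'' n =>
        simp [TR] at h1 h2 h3
        obtain ⟨rfl, _⟩ := h1
        obtain ⟨h2, _⟩ := h2
        obtain ⟨rfl, _⟩ := h3
        exact absurd (congrArg List.length h2) (by simp)
      | m i =>
        simp [TR] at h3
      | p s'' b'' => simp [TR] at h2
      | q s'' f'' => simp [TR] at h3
      | l s'' => simp [TR] at h3
    | e s' f' n' =>
      cases w' with
      | q s'' f'' =>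
        simp [TR] at h1 h2 h3
        obtain ⟨rfl, _⟩ := h2
        obtain ⟨h1, _⟩ := h1
        obtain ⟨rfl, _⟩ := h3
        exact absurd (congrArg List.length h1) (by simp)
      | m i => simp [TR] at h3
      | p s'' b'' => simp [TR] at h2
      | e s'' f'' n'' => simp [TR] at h3
      | l s'' => simp [TR] at h3
  | q s f =>
    exfalso
    cases w with
    | p s' b' =>
      cases w' with
      | p s'' b'' => simp [TR] at h3
      | e s'' f'' n'' =>
        simp [TR] at h1 h2 h3
        obtain ⟨rfl, _⟩ := h1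
        obtain ⟨rfl, _⟩ := h2
        obtain ⟨h3, _⟩ := h3
        exact absurd (congrArg List.length h3) (by simp)
      | q s'' f'' => simp [TR] at h2
      | l s'' => simp [TR] at h2
      | m i => simp [TR] at h2
    | e s' f' n' =>
      cases w' with
      | p s'' b'' =>
        simp [TR] at h1 h2 h3
        obtain ⟨rfl, _⟩ := h1
        obtain ⟨rfl, _⟩ := h2
        obtain ⟨h3, _⟩ := h3
        exact absurd (congrArg List.length h3) (by simp)
      | e s'' f'' n'' => simp [TR] at h3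
      | q s'' f'' => simp [TR] at h2
      | l s'' => simp [TR] at h2
      | m i => simp [TR] at h2
    | q s' f' => simp [TR] at h1
    | l s' => simp [TR] at h1
    | m i => simp [TR] at h1
  | e s f n =>
    exfalso
    cases w with
    | p s' b' =>
      cases w' with
      | p s'' b'' => simp [TR] at h3
      | q s'' f'' =>
        simp [TR] at h1 h2 h3
        obtain ⟨rfl, _⟩ := h1
        obtain ⟨rfl, _⟩ := h2
        obtain ⟨h3, _⟩ := h3
        exact absurd (congrArg List.length h3) (by simp)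
      | e s'' f'' n'' => simp [TR] at h2
      | l s'' => simp [TR] at h2
      | m i => simp [TR] at h2
    | q s' f' =>
      cases w' with
      | p s'' b'' =>
        simp [TR] at h1 h2 h3
        obtain ⟨rfl, _⟩ := h1
        obtain ⟨rfl, _⟩ := h2
        obtain ⟨h3, _⟩ := h3
        exact absurd (congrArg List.length h3) (by simp)
      | q s'' f'' => simp [TR] at h3
      | e s'' f'' n'' => simp [TR] at h2
      | l s'' => simp [TR] at h2
      | m i => simp [TR] at h2
    | e s' f' n' => simp [TR] at h1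
    | l s' => simp [TR] at h1
    | m i => simp [TR] at h1
  | l s =>
    exfalso
    cases w with
    | p s' b' =>
      cases w' with
      | p s'' b'' => simp [TR] at h3
      | q s'' f'' => simp [TR] at h2
      | e s'' f'' n'' => simp [TR] at h2
      | l s'' => simp [TR] at h2
      | m i => simp [TR] at h2
    | q s' f' => simp [TR] at h1
    | e s' f' n' => simp [TR] at h1
    | l s' => simp [TR] at h1
    | m i => simp [TR] at h1

/-- the neighbours of infinite degree of `p s b` -/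
theorem nb_p_inf (s : List ℕ) (b : Bool) (w : TV) (h : (tw S t).Adj (TV.p s b) w)
    (hw : Inf (tw S t) w) : ∃ f, w = TV.q s f ∧ b = par f := by
  cases w with
  | p s' b' => simp [tw_adj, TR] at h
  | q s' f =>
    simp only [tw_adj, TR, false_or] at h
    obtain ⟨rfl, h⟩ := h
    exact ⟨f, rfl, h⟩
  | e s' f n => exact absurd hw (fin_e S t _ _ _)
  | l s' => exact absurd hw (fin_l S t _)
  | m i => exact absurd hw (fin_m S t _)

/-- the neighbours of finite degree of `q s f` -/
theorem nb_q_fin (s : List ℕ) (f : Finset ℕ) (w : TV) (h : (tw S t).Adj (TV.q s f) w)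
    (hw : ¬ Inf (tw S t) w) : ∃ n, w = TV.e s f n := by
  cases w with
  | p s' b' => exact absurd (inf_p S t _ _) hw
  | q s' f' => simp [tw_adj, TR] at h
  | e s' f' n =>
    simp only [tw_adj, TR, or_false] at h
    obtain ⟨rfl, rfl⟩ := h
    exact ⟨n, rfl⟩
  | l s' => simp [tw_adj, TR] at h
  | m i => simp [tw_adj, TR] at h

theorem nb_e (s : List ℕ) (f : Finset ℕ) (n : ℕ) (w : TV) (h : (tw S t).Adj (TV.e s f n) w) :
    w = TV.q s f ∨ ∃ b, w = TV.p (n :: s) b ∧ (b = true ↔ n ∈ f) := by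
  cases w with
  | p s' b' =>
    simp only [tw_adj, TR, or_false] at h
    obtain ⟨rfl, h⟩ := h
    exact Or.inr ⟨b', rfl, h⟩
  | q s' f' =>
    simp only [tw_adj, TR, false_or] at h
    obtain ⟨rfl, rfl⟩ := h
    exact Or.inl rfl
  | e s' f' n' => simp [tw_adj, TR] at h
  | l s' => simp [tw_adj, TR] at h
  | m i => simp [tw_adj, TR] at h

/-- every neighbour of `p s true` has another neighbour -/
theorem nb_p_true (s : List ℕ) (w : TV) (h : (tw S t).Adj (TV.p s true) w) :
    ∃ w', w' ≠ TV.p s true ∧ (tw S t).Adj w w' := by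
  cases w with
  | p s' b' => simp [tw_adj, TR] at h
  | q s' f => exact ⟨TV.e s' f 0, by simp, Or.inl ⟨rfl, rfl⟩⟩
  | e s' f n => exact ⟨TV.q s' f, by simp, Or.inr ⟨rfl, rfl⟩⟩
  | l s' => exact ⟨TV.p s' false, by simp, Or.inl ⟨rfl, Or.inl rfl⟩⟩
  | m i => exact ⟨TV.m (!i), by simp, Or.inl (by simp [TR])⟩

theorem nb_l_of_notMem (s : List ℕ) (hs : s ∉ S) (w : TV) (h : (tw S t).Adj (TV.l s) w) :
    w = TV.p s false := by
  cases w with
  | p s' b' =>
    simp only [tw_adj, TR, or_false] at h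
    obtain ⟨rfl, h | h⟩ := h
    · rw [h]
    · exact absurd h hs
  | q s' f => simp [tw_adj, TR] at h
  | e s' f n => simp [tw_adj, TR] at h
  | l s' => simp [tw_adj, TR] at h
  | m i => simp [tw_adj, TR] at h

end local_facts

variable {C : Type*}

theorem step (S : Set (List ℕ)) (τ : C → Bool) (G : SimpleGraph (C × TV))
    (hG : G = copies (fun c => tw S (τ c))) (Θ : G ≃g G) (c d : C) (s s' : List ℕ)
    (h : Θ (c, TV.p s false) = (d, TV.p s' true)) :
    s ∈ S ∧ ∃ k k', Θ (c, TV.p (k :: s) false) = (d, TV.p (k' :: s') true) := by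
  have hadj : ∀ (a b : C) (x y : TV), G.Adj (a, x) (b, y) ↔ a = b ∧ (tw S (τ a)).Adj x y := by
    intro a b x y
    rw [hG]; exact Iff.rfl
  have hinf : ∀ (a : C) (x : TV), Inf G (a, x) ↔ Inf (tw S (τ a)) x := by
    intro a x
    rw [hG]; exact inf_copies _ a x
  clear hG
  constructor
  · by_contra hs
    have h1 : G.Adj (c, TV.p s false) (c, TV.l s) :=
      (hadj _ _ _ _).mpr ⟨rfl, Or.inr ⟨rfl, Or.inl rfl⟩⟩
    have h2 : G.Adj (d, TV.p s' true) (Θ (c, TV.l s)) := by
      rw [← h]; exact Θ.map_rel_iff.mpr h1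
    rcases hΘ : Θ (c, TV.l s) with ⟨d', w⟩
    rw [hΘ, hadj] at h2
    obtain ⟨h3, h4⟩ := h2
    subst h3
    obtain ⟨w', hw1, hw2⟩ := nb_p_true S (τ d) s' w h4
    have h5 : G.Adj (Θ (c, TV.l s)) (d, w') := by
      rw [hΘ, hadj]; exact ⟨rfl, hw2⟩
    have h6 : G.Adj (c, TV.l s) (Θ.symm (d, w')) := by
      rw [← Θ.map_rel_iff]
      simpa using h5
    rcases hx : Θ.symm (d, w') with ⟨c', x⟩
    rw [hx, hadj] at h6
    obtain ⟨h7, h8⟩ := h6
    subst h7
    have h9 := nb_l_of_notMem S (τ c) s hs x h8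
    rw [h9] at hx
    have h10 : (d, w') = Θ (c, TV.p s false) := by
      rw [← hx]; simp
    rw [h] at h10
    exact hw1 (Prod.ext_iff.mp h10).2
  · -- the configuration with empty support
    have a1 : G.Adj (c, TV.p s false) (c, TV.q s ∅) :=
      (hadj _ _ _ _).mpr ⟨rfl, Or.inr ⟨rfl, rfl⟩⟩
    have a2 : G.Adj (d, TV.p s' true) (Θ (c, TV.q s ∅)) := by
      rw [← h]; exact Θ.map_rel_iff.mpr a1
    have a3 : Inf G (Θ (c, TV.q s ∅)) := by
      rw [inf_iff_of_iso Θ, hinf]
      exact inf_q S _ _ _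
    rcases hΘ : Θ (c, TV.q s ∅) with ⟨d', w⟩
    rw [hΘ, hadj] at a2
    rw [hΘ, hinf] at a3
    obtain ⟨h3, h4⟩ := a2
    subst h3
    obtain ⟨f, rfl, hf⟩ := nb_p_inf S (τ d) s' true w h4 a3
    have hne : f.Nonempty := by
      rw [Finset.nonempty_iff_ne_empty]
      rintro rfl
      simp [par] at hf
    obtain ⟨k', hk'⟩ := hne
    -- the connecting vertex
    have b1 : G.Adj (d, TV.q s' f) (d, TV.e s' f k') :=
      (hadj _ _ _ _).mpr ⟨rfl, Or.inl ⟨rfl, rfl⟩⟩
    have b2 : G.Adj (c, TV.q s ∅) (Θ.symm (d, TV.e s' f k')) := by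
      rw [← Θ.map_rel_iff, hΘ]
      simpa using b1
    have b3 : ¬ Inf G (Θ.symm (d, TV.e s' f k')) := by
      rw [inf_iff_of_iso Θ.symm, hinf]
      exact fin_e S _ _ _ _
    rcases hx : Θ.symm (d, TV.e s' f k') with ⟨c', x⟩
    rw [hx, hadj] at b2
    rw [hx, hinf] at b3
    obtain ⟨b4, b5⟩ := b2
    subst b4
    obtain ⟨k, rfl⟩ := nb_q_fin S (τ c) s ∅ x b5 b3
    have b6 : Θ (c, TV.e s ∅ k) = (d, TV.e s' f k') := by
      rw [← hx]; simp
    -- the child
    have c1 : G.Adj (c, TV.e s ∅ k) (c, TV.p (k :: s) false) :=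
      (hadj _ _ _ _).mpr ⟨rfl, Or.inl ⟨rfl, by simp⟩⟩
    have c2 : G.Adj (d, TV.e s' f k') (Θ (c, TV.p (k :: s) false)) := by
      rw [← b6]; exact Θ.map_rel_iff.mpr c1
    rcases hy : Θ (c, TV.p (k :: s) false) with ⟨d'', y⟩
    rw [hy, hadj] at c2
    obtain ⟨c3, c4⟩ := c2
    subst c3
    rcases nb_e S (τ d) s' f k' y c4 with rfl | ⟨b, rfl, hb⟩
    · rw [← hΘ] at hy
      have := Θ.injective hy
      simp at this
    · refine ⟨k, k', ?_⟩
      rw [hb.mpr hk'] at hy
      exact hy

theorem rigid (S : Set (List ℕ)) (τ : C → Bool) (c₀ : C) (hτ : ∀ c, τ c = true ↔ c = c₀)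
    (G : SimpleGraph (C × TV)) (hG : G = copies (fun c => tw S (τ c))) (Θ : G ≃g G) :
    (∃ z : ℕ → ℕ, ∀ n, pre z n ∈ S) ∨ ∀ i, ∃ j, Θ (c₀, TV.m i) = (c₀, TV.m j) := by
  have st := step S τ G hG Θ.symm
  have hadj : ∀ (a b : C) (x y : TV), G.Adj (a, x) (b, y) ↔ a = b ∧ (tw S (τ a)).Adj x y := by
    intro a b x y
    rw [hG]; exact Iff.rfl
  have hinf : ∀ (a : C) (x : TV), Inf G (a, x) ↔ Inf (tw S (τ a)) x := by
    intro a x
    rw [hG]; exact inf_copies _ a x
  have htri : ∀ (a : C) (x : TV), Tri G (a, x) → Tri (tw S (τ a)) x := by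
    intro a x h
    rw [hG] at h; exact tri_copies _ a x h
  clear hG
  have ht : τ c₀ = true := (hτ c₀).mpr rfl
  have adjm : ∀ i, G.Adj (c₀, TV.p [] true) (c₀, TV.m i) := fun i =>
    (hadj _ _ _ _).mpr ⟨rfl, Or.inr ⟨rfl, by rw [ht]⟩⟩
  have adjmm : G.Adj (c₀, TV.m true) (c₀, TV.m false) :=
    (hadj _ _ _ _).mpr ⟨rfl, Or.inl (by simp [TR])⟩
  have t1 : Tri G (c₀, TV.p [] true) := ⟨_, _, adjm true, adjm false, adjmm⟩
  have t2 : ∀ i, Tri G (c₀, TV.m i) := by
    intro i
    refine ⟨(c₀, TV.m (!i)), (c₀, TV.p [] true), ?_, (adjm i).symm, (adjm _).symm⟩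
    exact (hadj _ _ _ _).mpr ⟨rfl, Or.inl (by simp [TR])⟩
  rcases hx : Θ (c₀, TV.p [] true) with ⟨c, x⟩
  have h1 : x = TV.p [] (τ c) := by
    have h2 := tri_of_iso Θ _ t1
    rw [hx] at h2
    rcases tri_tw S (τ c) x (htri c x h2) with h3 | ⟨i, rfl⟩
    · exact h3
    · exfalso
      have h3 : Inf G (Θ (c₀, TV.p [] true)) := by
        rw [inf_iff_of_iso Θ, hinf]
        exact inf_p S _ _ _
      rw [hx, hinf] at h3
      exact fin_m S _ _ h3
  by_cases hc : c = c₀
  · right
    subst hc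
    rw [h1, ht] at hx
    intro i
    have h2 : G.Adj (Θ (c, TV.p [] true)) (Θ (c, TV.m i)) := Θ.map_rel_iff.mpr (adjm i)
    rw [hx] at h2
    have h3 := tri_of_iso Θ _ (t2 i)
    rcases hy : Θ (c, TV.m i) with ⟨d, y⟩
    rw [hy, hadj] at h2
    rw [hy] at h3
    obtain ⟨h4, h5⟩ := h2
    subst h4
    rcases tri_tw S (τ c) y (htri c y h3) with h6 | ⟨j, rfl⟩
    · exfalso
      rw [ht] at h6
      rw [h6] at h5
      exact h5.ne rfl
    · exact ⟨j, rfl⟩
  · left
    have hcf : τ c = false := by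
      rw [← Bool.not_eq_true, hτ]
      exact hc
    rw [h1, hcf] at hx
    have h0 : Θ.symm (c, TV.p [] false) = (c₀, TV.p [] true) := by
      rw [← hx]; simp
    -- iterate
    have st := st c c₀
    let P : Type := {v : List ℕ × List ℕ // Θ.symm (c, TV.p v.1 false) = (c₀, TV.p v.2 true)}
    have st' : ∀ v : P, ∃ k : ℕ, ∃ v' : P, v'.1.1 = k :: v.1.1 := by
      rintro ⟨⟨s, s'⟩, hv⟩
      obtain ⟨_, k, k', h2⟩ := st s s' hv
      exact ⟨k, ⟨⟨(k :: s, k' :: s'), h2⟩, rfl⟩⟩
    choose kk nx hnx using st'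
    let sq : ℕ → P := fun n => Nat.rec ⟨([], []), h0⟩ (fun _ v => nx v) n
    refine ⟨fun n => kk (sq n), ?_⟩
    have h2 : ∀ n, pre (fun n => kk (sq n)) n = (sq n).1.1 := by
      intro n
      induction n with
      | zero => rfl
      | succ n ih =>
        have h3 : (sq (n + 1)) = nx (sq n) := rfl
        rw [h3, hnx, ← ih]
        rfl
    intro n
    rw [h2]
    exact (st _ _ (sq n).2).1

end Pool.Agent.FinStab
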