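import Pool.Agent.Helper32.FS.Stable
import Pool.Agent.Helper32.FS.Rigid

/-!
# The graph attached to a set of finite sequences
-/

open Set

namespace Pool.Agent.FinStab

theorem main_flip {V : Type*} (G : SimpleGraph V) {F : Set (Sym2 V)} (hF : F.Finite) (x : V) :
    Main (flip G F) x ↔ Main G x := by
  have hS := supp_finite hF
  have key := flip_adj_of_notMem_supp G F
  constructor
  · intro h
    exact main_of_agree (supp F) univ hS (fun a _ w hw => (key a w hw).symm)
      (fun _ _ _ _ _ => mem_univ _) (mem_univ x) h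
  · intro h
    exact main_of_agree (supp F) univ hS (fun a _ w hw => key a w hw)
      (fun _ _ _ _ _ => mem_univ _) (mem_univ x) h

theorem flip_empty {V : Type*} (G : SimpleGraph V) : flip G ∅ = G := by
  ext x y
  rw [flip_adj]
  constructor
  · rintro ⟨_, h⟩
    by_contra h'
    exact h ⟨fun h2 => absurd h2 h', fun h2 => absurd h2 (notMem_empty _)⟩
  · intro h
    exact ⟨h.ne, fun h2 => (notMem_empty _) (h2.mp h)⟩

section decode

variable {α α' I I' : Type*}

theorem mvc_injective : Function.Injective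
    (fun v : (I × ℕ) × α => ((v.1, mv v.2) : (I × ℕ) × Vx α)) := by
  rintro ⟨c, u⟩ ⟨d, v⟩ h
  obtain ⟨h1, h2⟩ := Prod.ext_iff.mp h
  exact Prod.ext h1 (mv_injective h2)

theorem copies_iff_link (H : I × ℕ → SimpleGraph α) (τ : I → Finset (Sym2 (ℕ × Vx α)))
    (v w : (I × ℕ) × α) :
    (copies H).Adj v w ↔ Link (big H τ) (v.1, mv v.2) (w.1, mv w.2) := by
  rw [link_big]
  constructor
  · rintro ⟨h1, h2⟩
    exact ⟨h1, v.2, w.2, rfl, rfl, h2⟩
  · rintro ⟨h1, u, u', h2, h3, h4⟩
    rw [← mv_injective h2, ← mv_injective h3] at h4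
    exact ⟨h1, h4⟩

theorem main_big (H : I × ℕ → SimpleGraph α) (τ : I → Finset (Sym2 (ℕ × Vx α)))
    (v : (I × ℕ) × Vx α) : Main (big H τ) v ↔ ∃ w : (I × ℕ) × α, v = (w.1, mv w.2) := by
  obtain ⟨c, x⟩ := v
  unfold big
  rw [main_blocks, main_code]
  constructor
  · rintro ⟨u, rfl⟩
    exact ⟨(c, u), rfl⟩
  · rintro ⟨w, h⟩
    exact ⟨w.2, (Prod.ext_iff.mp h).2⟩

theorem decode (H : I × ℕ → SimpleGraph α) (τ : I → Finset (Sym2 (ℕ × Vx α)))
    (H' : I' × ℕ → SimpleGraph α') (τ' : I' → Finset (Sym2 (ℕ × Vx α')))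
    (F : Set (Sym2 ((I' × ℕ) × Vx α'))) (hF : F.Finite)
    (φ : big H τ ≃g flip (big H' τ') F) :
    ∃ Θ : copies H ≃g copies H', ∀ v : (I × ℕ) × α,
      φ (v.1, mv v.2) = ((Θ v).1, mv (Θ v).2) := by
  have m1 : ∀ v : (I × ℕ) × α, ∃ w : (I' × ℕ) × α', φ (v.1, mv v.2) = (w.1, mv w.2) := by
    intro v
    have h1 : Main (big H τ) (v.1, mv v.2) := (main_big H τ _).mpr ⟨v, rfl⟩
    have h2 := main_of_iso φ _ h1
    rw [main_flip _ hF, main_big] at h2
    exact h2
  have m2 : ∀ w : (I' × ℕ) × α', ∃ v : (I × ℕ) × α, φ.symm (w.1, mv w.2) = (v.1, mv v.2) := by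
    intro w
    have h1 : Main (big H' τ') (w.1, mv w.2) := (main_big H' τ' _).mpr ⟨w, rfl⟩
    rw [← main_flip _ hF] at h1
    have h2 := main_of_iso φ.symm _ h1
    rw [main_big] at h2
    exact h2
  choose f hf using m1
  choose g hg using m2
  refine ⟨⟨⟨f, g, ?_, ?_⟩, ?_⟩, ?_⟩
  · intro v
    apply mvc_injective
    change ((g (f v)).1, mv (g (f v)).2) = (v.1, mv v.2)
    rw [← hg, ← hf]
    exact φ.symm_apply_apply _
  · intro w
    apply mvc_injective
    change ((f (g w)).1, mv (f (g w)).2) = (w.1, mv w.2)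
    rw [← hf, ← hg]
    exact φ.apply_symm_apply _
  · intro v w
    change (copies H').Adj (f v) (f w) ↔ (copies H).Adj v w
    rw [copies_iff_link H τ, copies_iff_link H' τ', ← hf, ← hf, ← link_flip _ hF,
      link_iff_of_iso φ]
  · exact hf

end decode

section codeIso

variable {α α' : Type*}

/-- functoriality of `code` -/
def codeEquiv (θ : α ≃ α') : Vx α ≃ Vx α' :=
  Equiv.prodCongr (Equiv.sumCongr θ (Equiv.prodCongr θ (Equiv.prodCongr θ (Equiv.refl ℕ))))
    (Equiv.refl ℕ)

theorem code_adj_iff {H : SimpleGraph α} {H' : SimpleGraph α'} (θ : H ≃g H') (x y : Vx α) :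
    (code H').Adj (codeEquiv θ.toEquiv x) (codeEquiv θ.toEquiv y) ↔ (code H).Adj x y := by
  have hadj : ∀ a b, H'.Adj (θ a) (θ b) ↔ H.Adj a b := fun a b => θ.map_rel_iff
  have hinj : ∀ a b, θ a = θ b ↔ a = b := fun a b => θ.injective.eq_iff
  obtain ⟨x, k⟩ := x
  obtain ⟨y, l⟩ := y
  unfold code cliq codeEquiv
  simp only [Equiv.prodCongr_apply, Prod.map_apply, Equiv.refl_apply]
  have h1 : (Equiv.sumCongr θ.toEquiv (Equiv.prodCongr θ.toEquiv (Equiv.prodCongr θ.toEquiv
      (Equiv.refl ℕ))) x = Equiv.sumCongr θ.toEquiv (Equiv.prodCongr θ.toEquiv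
      (Equiv.prodCongr θ.toEquiv (Equiv.refl ℕ))) y) ↔ x = y := Equiv.apply_eq_iff_eq _
  rw [h1]
  have h2 : (hat H').Adj (Equiv.sumCongr θ.toEquiv (Equiv.prodCongr θ.toEquiv
      (Equiv.prodCongr θ.toEquiv (Equiv.refl ℕ))) x) (Equiv.sumCongr θ.toEquiv
      (Equiv.prodCongr θ.toEquiv (Equiv.prodCongr θ.toEquiv (Equiv.refl ℕ))) y) ↔
      (hat H).Adj x y := by
    rcases x with u | ⟨a, b, i⟩
    · rcases y with v | ⟨a', b', i'⟩
      · exact Iff.rfl
      · change (θ u = θ a' ∨ (θ u = θ b' ∧ H'.Adj (θ a') (θ b'))) ↔ _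
        rw [hinj, hinj, hadj]
        rfl
    · rcases y with v | ⟨a', b', i'⟩
      · change (θ v = θ a ∨ (θ v = θ b ∧ H'.Adj (θ a) (θ b))) ↔ _
        rw [hinj, hinj, hadj]
        rfl
      · exact Iff.rfl
  rw [h2]

end codeIso

/-- block types -/
abbrev J (α : Type*) := Finset (Sym2 (ℕ × Vx α))

theorem rich_fst (α : Type*) : Rich (Prod.fst : J α × ℕ → J α) := by
  intro F
  have hinj : Function.Injective (fun n : ℕ => ((F, n) : J α × ℕ)) := fun a b hab =>
    (Prod.ext_iff.mp hab).2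
  refine (Set.infinite_range_of_injective hinj).mono ?_
  rintro _ ⟨n, rfl⟩
  rfl

/-- vertices of the graphs `gam S` -/
abbrev Vt := ((J TV × ℕ) × ℕ) × Vx TV

/-- the special copy -/
def sc : (J TV × ℕ) × ℕ := ((∅, 0), 0)

open Classical in
/-- the graph attached to `S` -/
noncomputable def gam (S : Set (List ℕ)) : SimpleGraph Vt :=
  big (fun c => tw S (decide (c = sc))) Prod.fst

open Classical in
theorem stable_of_branch (S : Set (List ℕ)) (z : ℕ → ℕ) (hz : ∀ n, pre z n ∈ S) :
    FinitelyStable (gam S) := by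
  have h0 : FinitelyStable (big (fun _ : (J TV × ℕ) × ℕ => tw S false) Prod.fst) :=
    stable_of_rich (code (tw S false)) Prod.fst (rich_fst TV)
  let θ := twistIso S z hz
  let ψ : (J TV × ℕ) × ℕ → (Vx TV ≃ Vx TV) := fun c =>
    if c = sc then codeEquiv θ.toEquiv else Equiv.refl _
  refine FinitelyStable.of_iso (G := big (fun _ : (J TV × ℕ) × ℕ => tw S false) Prod.fst)
    ⟨Equiv.prodShear (Equiv.refl _) ψ, ?_⟩ h0
  rintro ⟨⟨i, k⟩, x⟩ ⟨⟨j, l⟩, y⟩
  change (gam S).Adj ((i, k), ψ (i, k) x) ((j, l), ψ (j, l) y) ↔ _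
  unfold gam big
  rw [flip_adj, flip_adj, copies_adj, copies_adj, mem_pat, mem_pat]
  have h1 : (((i, k), ψ (i, k) x) ≠ (((j, l), ψ (j, l) y) : Vt)) ↔
      (((i, k), x) ≠ (((j, l), y) : Vt)) := by
    rw [not_iff_not]
    constructor
    · intro h
      obtain ⟨h2, h3⟩ := Prod.ext_iff.mp h
      have h2' : (i, k) = (j, l) := h2
      rw [h2'] at h3 ⊢
      rw [(ψ (j, l)).injective h3]
    · intro h
      obtain ⟨h2, h3⟩ := Prod.ext_iff.mp h
      have h2' : (i, k) = (j, l) := h2
      have h3' : x = y := h3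
      rw [h2', h3']
  have h2 : ((i, k) = (j, l) ∧ (code (tw S (decide ((i, k) = sc)))).Adj (ψ (i, k) x) (ψ (j, l) y)) ↔
      ((i, k) = (j, l) ∧ (code (tw S false)).Adj x y) := by
    refine and_congr_right ?_
    intro h
    rw [← h]
    by_cases hc : (i, k) = sc
    · have h3 : ψ (i, k) = codeEquiv θ.toEquiv := if_pos hc
      rw [h3, decide_eq_true hc]
      exact code_adj_iff θ x y
    · have h3 : ψ (i, k) = Equiv.refl _ := if_neg hc
      rw [h3, decide_eq_false hc]
      rfl
  have h3 : (i = j ∧ s((k, ψ (i, k) x), (l, ψ (j, l) y)) ∈ i.1) ↔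
      (i = j ∧ s((k, x), (l, y)) ∈ i.1) := by
    refine and_congr_right ?_
    intro h
    subst h
    by_cases hi : i = (∅, 0)
    · rw [hi]
      simp
    · have h4 : ∀ k, ψ (i, k) = Equiv.refl _ := by
        intro k
        refine if_neg ?_
        intro h5
        exact hi (Prod.ext_iff.mp h5).1
      rw [h4, h4]
      rfl
  rw [h1, h2, h3]

open Classical in
theorem branch_of_stable (S : Set (List ℕ)) (h : FinitelyStable (gam S)) :
    ∃ z : ℕ → ℕ, ∀ n, pre z n ∈ S := by
  set a : Bool → Vt := fun i => (sc, mv (TV.m i)) with ha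
  have hainj : Function.Injective a := by
    intro i j hij
    have := mv_injective (Prod.ext_iff.mp hij).2
    simpa using this
  have hne : a true ≠ a false := fun h => by
    have := hainj h
    simp at this
  obtain ⟨φ⟩ := h {s(a true, a false)} (Set.finite_singleton _) (by
    intro e he
    rw [mem_singleton_iff.mp he, Sym2.mk_isDiag_iff]
    exact hne)
  have hnot : ¬ (gam S).Adj (a true) (a false) := by
    rintro ⟨_, h1⟩
    apply h1
    constructor
    · rintro ⟨_, h2⟩
      rcases h2 with ⟨_, h2⟩ | ⟨_, _, h2⟩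
      · exact absurd rfl h2
      · exact absurd h2 (fun h => h)
    · intro h2
      exfalso
      have h3 := (mem_pat (Prod.fst : J TV × ℕ → J TV) (∅, 0) (∅, 0) 0 0 (mv (TV.m true))
        (mv (TV.m false))).mp h2
      exact absurd h3.2 (by simp)
  obtain ⟨Θ, hΘ⟩ := decode _ _ _ _ _ (Set.finite_singleton _) φ.symm
  rcases rigid S (fun c => decide (c = sc)) sc (fun c => by simp) _ rfl Θ with h1 | h1
  · exact h1
  · exfalso
    obtain ⟨j, hj⟩ := h1 true
    obtain ⟨j', hj'⟩ := h1 false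
    have e1 : φ.symm (a true) = a j := by
      have := hΘ (sc, TV.m true)
      rw [hj] at this
      exact this
    have e2 : φ.symm (a false) = a j' := by
      have := hΘ (sc, TV.m false)
      rw [hj'] at this
      exact this
    have hjj : j ≠ j' := by
      rintro rfl
      rw [← e2] at e1
      exact hne (φ.symm.injective e1)
    have key : (flip (gam S) {s(a true, a false)}).Adj (a j) (a j') ↔
        (gam S).Adj (a true) (a false) := by
      rw [← e1, ← e2]
      exact φ.symm.map_rel_iff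
    apply hnot
    rw [← key]
    have h2 : (flip (gam S) {s(a true, a false)}).Adj (a true) (a false) :=
      ⟨hne, fun h => hnot (h.mpr rfl)⟩
    cases j <;> cases j'
    · exact absurd rfl hjj
    · exact h2.symm
    · exact h2
    · exact absurd rfl hjj

theorem stable_iff_branch (S : Set (List ℕ)) :
    FinitelyStable (gam S) ↔ ∃ z : ℕ → ℕ, ∀ n, pre z n ∈ S :=
  ⟨branch_of_stable S, fun ⟨z, hz⟩ => stable_of_branch S z hz⟩

theorem deg_gam (S : Set (List ℕ)) (v : Vt) : {w | (gam S).Adj v w}.Infinite := by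
  classical
  exact deg_big _ _ v

theorem codeg_gam (S : Set (List ℕ)) (v : Vt) : {w | ¬ (gam S).Adj v w}.Infinite := by
  classical
  exact codeg_big _ _ v

end Pool.Agent.FinStab
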