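import Pool.Agent.Helper32.FS.Defs

/-!
# Robust decoding
-/

open Set

namespace Pool.Agent.FinStab

variable {V W : Type*}

/-- outside every finite set there are two non-adjacent neighbours of `x` -/
def Main (G : SimpleGraph V) (x : V) : Prop :=
  ∀ K : Set V, K.Finite → ∃ y z, y ∉ K ∧ z ∉ K ∧ y ≠ z ∧ G.Adj x y ∧ G.Adj x z ∧ ¬ G.Adj y z

/-- the set of common neighbours -/
def comm (G : SimpleGraph V) (x y : V) : Set V := {z | G.Adj x z ∧ G.Adj y z}

/-- `x` and `y` are different main vertices with infinitely many common neighbours -/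
def Link (G : SimpleGraph V) (x y : V) : Prop :=
  x ≠ y ∧ Main G x ∧ Main G y ∧ (comm G x y).Infinite

theorem main_of_iso {G : SimpleGraph V} {H : SimpleGraph W} (φ : G ≃g H) (x : V)
    (h : Main G x) : Main H (φ x) := by
  intro K hK
  obtain ⟨y, z, hy, hz, hyz, h1, h2, h3⟩ := h (φ ⁻¹' K) (hK.preimage φ.injective.injOn)
  exact ⟨φ y, φ z, hy, hz, φ.injective.ne hyz, φ.map_rel_iff.mpr h1, φ.map_rel_iff.mpr h2,
    fun h => h3 (φ.map_rel_iff.mp h)⟩

theorem link_of_iso {G : SimpleGraph V} {H : SimpleGraph W} (φ : G ≃g H) (x y : V)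
    (h : Link G x y) : Link H (φ x) (φ y) := by
  refine ⟨φ.injective.ne h.1, main_of_iso φ x h.2.1, main_of_iso φ y h.2.2.1, ?_⟩
  refine ((h.2.2.2).image (φ.injective.injOn)).mono ?_
  rintro _ ⟨z, ⟨h1, h2⟩, rfl⟩
  exact ⟨φ.map_rel_iff.mpr h1, φ.map_rel_iff.mpr h2⟩

theorem link_iff_of_iso {G : SimpleGraph V} {H : SimpleGraph W} (φ : G ≃g H) (x y : V) :
    Link H (φ x) (φ y) ↔ Link G x y := by
  constructor
  · intro h
    have := link_of_iso φ.symm _ _ h
    simpa using this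
  · exact link_of_iso φ x y

theorem main_of_agree {G G' : SimpleGraph V} (T P : Set V) (hT : T.Finite)
    (h1 : ∀ a ∈ P, ∀ w, w ∉ T → (G.Adj a w ↔ G'.Adj a w))
    (h2 : ∀ a ∈ P, ∀ w, w ∉ T → G.Adj a w → w ∈ P) {x : V} (hx : x ∈ P) (h : Main G x) :
    Main G' x := by
  intro K hK
  obtain ⟨y, z, hy, hz, hyz, a1, a2, a3⟩ := h (K ∪ T) (hK.union hT)
  simp only [mem_union, not_or] at hy hz
  refine ⟨y, z, hy.1, hz.1, hyz, (h1 x hx y hy.2).mp a1, (h1 x hx z hz.2).mp a2, ?_⟩
  intro h'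
  exact a3 ((h1 y (h2 x hx y hy.2 a1) z hz.2).mpr h')

theorem comm_infinite_of_agree {G G' : SimpleGraph V} (T : Set V) (hT : T.Finite) {x y : V}
    (hx : ∀ w, w ∉ T → (G.Adj x w ↔ G'.Adj x w)) (hy : ∀ w, w ∉ T → (G.Adj y w ↔ G'.Adj y w))
    (h : (comm G x y).Infinite) : (comm G' x y).Infinite := by
  refine (h.sdiff hT).mono ?_
  rintro z ⟨⟨h1, h2⟩, h3⟩
  exact ⟨(hx z h3).mp h1, (hy z h3).mp h2⟩

/-- vertices touched by a set of pairs -/
def supp (F : Set (Sym2 V)) : Set V := {v | ∃ e ∈ F, v ∈ e}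

theorem supp_finite {F : Set (Sym2 V)} (hF : F.Finite) : (supp F).Finite := by
  have h : supp F = ⋃ e ∈ F, {v | v ∈ e} := by
    ext v
    simp [supp]
  rw [h]
  refine hF.biUnion (fun e _ => ?_)
  induction e using Sym2.ind with
  | _ v w =>
    refine Set.Finite.subset (Set.toFinite {v, w}) ?_
    intro u hu
    exact Sym2.mem_iff.mp hu

theorem flip_adj_of_notMem_supp (G : SimpleGraph V) (F : Set (Sym2 V)) (a w : V)
    (hw : w ∉ supp F) : G.Adj a w ↔ (flip G F).Adj a w := by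
  have h : s(a, w) ∉ F := fun h => hw ⟨_, h, Sym2.mem_mk_right _ _⟩
  rw [flip_adj]
  constructor
  · intro h1
    exact ⟨h1.ne, fun h2 => h (h2.mp h1)⟩
  · rintro ⟨_, h2⟩
    by_contra h3
    exact h2 ⟨fun h4 => absurd h4 h3, fun h4 => absurd h4 h⟩

theorem link_flip (G : SimpleGraph V) {F : Set (Sym2 V)} (hF : F.Finite) (x y : V) :
    Link (flip G F) x y ↔ Link G x y := by
  have hS := supp_finite hF
  have key := flip_adj_of_notMem_supp G F
  have m : ∀ x, Main (flip G F) x ↔ Main G x := by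
    intro x
    constructor
    · intro h
      exact main_of_agree (supp F) univ hS (fun a _ w hw => (key a w hw).symm)
        (fun _ _ _ _ _ => mem_univ _) (mem_univ x) h
    · intro h
      exact main_of_agree (supp F) univ hS (fun a _ w hw => key a w hw)
        (fun _ _ _ _ _ => mem_univ _) (mem_univ x) h
  have c : (comm (flip G F) x y).Infinite ↔ (comm G x y).Infinite := by
    constructor
    · exact comm_infinite_of_agree (supp F) hS (fun w hw => (key x w hw).symm)
        (fun w hw => (key y w hw).symm)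
    · exact comm_infinite_of_agree (supp F) hS (fun w hw => key x w hw)
        (fun w hw => key y w hw)
  unfold Link
  rw [m, m, c]

section copies

variable {C β : Type*}

theorem main_copies (B : C → SimpleGraph β) (c : C) (x : β) :
    Main (copies B) (c, x) ↔ Main (B c) x := by
  constructor
  · intro h K hK
    obtain ⟨⟨d, y⟩, ⟨d', z⟩, hy, hz, hyz, h1, h2, h3⟩ := h ((fun y => (c, y)) '' K) (hK.image _)
    obtain ⟨rfl, h1⟩ := h1
    obtain ⟨rfl, h2⟩ := h2
    refine ⟨y, z, fun hy' => hy ⟨y, hy', rfl⟩, fun hz' => hz ⟨z, hz', rfl⟩, ?_, h1, h2, ?_⟩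
    · rintro rfl
      exact hyz rfl
    · intro h4
      exact h3 ⟨rfl, h4⟩
  · intro h K hK
    have hinj : Function.Injective (fun y : β => (c, y)) := fun a b hab => (Prod.ext_iff.mp hab).2
    obtain ⟨y, z, hy, hz, hyz, h1, h2, h3⟩ := h ((fun y => (c, y)) ⁻¹' K)
      (hK.preimage hinj.injOn)
    exact ⟨(c, y), (c, z), hy, hz, fun h => hyz (hinj h), ⟨rfl, h1⟩, ⟨rfl, h2⟩, fun h => h3 h.2⟩

theorem comm_copies (B : C → SimpleGraph β) (c d : C) (x y : β) :
    (comm (copies B) (c, x) (d, y)).Infinite ↔ c = d ∧ (comm (B c) x y).Infinite := by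
  constructor
  · intro h
    obtain ⟨⟨e, z⟩, ⟨h1, _⟩, ⟨h3, _⟩⟩ := h.nonempty
    have hcd : c = d := by
      have h1' : c = e := h1
      have h3' : d = e := h3
      rw [h1', h3']
    subst hcd
    refine ⟨rfl, ?_⟩
    intro hfin
    apply h
    refine (hfin.image (fun z => (c, z))).subset ?_
    rintro ⟨e, z⟩ ⟨⟨h1, h2⟩, ⟨_, h4⟩⟩
    have h1' : c = e := h1
    subst h1'
    exact ⟨z, ⟨h2, h4⟩, rfl⟩
  · rintro ⟨rfl, h⟩
    have hinj : Function.Injective (fun y : β => (c, y)) := fun a b hab => (Prod.ext_iff.mp hab).2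
    refine (h.image hinj.injOn).mono ?_
    rintro _ ⟨z, ⟨h1, h2⟩, rfl⟩
    exact ⟨⟨rfl, h1⟩, ⟨rfl, h2⟩⟩

end copies

section blocks

variable {I β : Type*}

/-- touched vertices of a block -/
def touched (τ : I → Finset (Sym2 (ℕ × β))) (i : I) : Set ((I × ℕ) × β) :=
  (fun v : ℕ × β => ((i, v.1), v.2)) '' supp (τ i : Set (Sym2 (ℕ × β)))

theorem touched_finite (τ : I → Finset (Sym2 (ℕ × β))) (i : I) : (touched τ i).Finite :=
  (supp_finite (τ i).finite_toSet).image _

theorem block_agree (B : I × ℕ → SimpleGraph β) (τ : I → Finset (Sym2 (ℕ × β))) (i : I)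
    (a : (I × ℕ) × β) (ha : a.1.1 = i) (w : (I × ℕ) × β) (hw : w ∉ touched τ i) :
    (copies B).Adj a w ↔ (flip (copies B) (pat τ)).Adj a w := by
  have h : s(a, w) ∉ pat τ := by
    intro h
    obtain ⟨⟨j, k⟩, x⟩ := a
    obtain ⟨⟨j', l⟩, y⟩ := w
    have ha' : j = i := ha
    subst ha'
    rw [mem_pat] at h
    obtain ⟨rfl, h⟩ := h
    exact hw ⟨(l, y), ⟨_, h, Sym2.mem_mk_right _ _⟩, rfl⟩
  rw [flip_adj]
  constructor
  · intro h1
    exact ⟨h1.ne, fun h2 => h (h2.mp h1)⟩
  · rintro ⟨_, h2⟩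
    by_contra h3
    exact h2 ⟨fun h4 => absurd h4 h3, fun h4 => absurd h4 h⟩

theorem main_blocks (B : I × ℕ → SimpleGraph β) (τ : I → Finset (Sym2 (ℕ × β)))
    (c : I × ℕ) (x : β) : Main (flip (copies B) (pat τ)) (c, x) ↔ Main (B c) x := by
  rw [← main_copies B c x]
  have h1 := block_agree B τ c.1
  have h2 : ∀ a ∈ {v : (I × ℕ) × β | v.1.1 = c.1}, ∀ w, w ∉ touched τ c.1 →
      (copies B).Adj a w → w ∈ {v : (I × ℕ) × β | v.1.1 = c.1} := by
    intro a ha w _ h
    have h3 : a.1 = w.1 := h.1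
    change w.1.1 = c.1
    rw [← h3]
    exact ha
  constructor
  · intro h
    exact main_of_agree (touched τ c.1) {v | v.1.1 = c.1} (touched_finite τ c.1)
      (fun a ha w hw => (h1 a ha w hw).symm)
      (fun a ha w hw h' => h2 a ha w hw ((h1 a ha w hw).mpr h')) rfl h
  · intro h
    exact main_of_agree (touched τ c.1) {v | v.1.1 = c.1} (touched_finite τ c.1)
      (fun a ha w hw => h1 a ha w hw) h2 rfl h

theorem comm_blocks (B : I × ℕ → SimpleGraph β) (τ : I → Finset (Sym2 (ℕ × β)))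
    (c d : I × ℕ) (x y : β) : (comm (flip (copies B) (pat τ)) (c, x) (d, y)).Infinite ↔
      c = d ∧ (comm (B c) x y).Infinite := by
  rw [← comm_copies B c d x y]
  have hT := (touched_finite τ c.1).union (touched_finite τ d.1)
  have h1 : ∀ w, w ∉ touched τ c.1 ∪ touched τ d.1 →
      ((copies B).Adj (c, x) w ↔ (flip (copies B) (pat τ)).Adj (c, x) w) := fun w hw =>
    block_agree B τ c.1 (c, x) rfl w (fun h => hw (Or.inl h))
  have h2 : ∀ w, w ∉ touched τ c.1 ∪ touched τ d.1 →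
      ((copies B).Adj (d, y) w ↔ (flip (copies B) (pat τ)).Adj (d, y) w) := fun w hw =>
    block_agree B τ d.1 (d, y) rfl w (fun h => hw (Or.inr h))
  constructor
  · exact comm_infinite_of_agree _ hT (fun w hw => (h1 w hw).symm) (fun w hw => (h2 w hw).symm)
  · exact comm_infinite_of_agree _ hT h1 h2

end blocks

section code

variable {α : Type*}

/-- attach an infinite clique at every vertex -/
def cliq (Y : SimpleGraph V) : SimpleGraph (V × ℕ) where
  Adj p q := (p.1 = q.1 ∧ p.2 ≠ q.2) ∨ (p.2 = 0 ∧ q.2 = 0 ∧ Y.Adj p.1 q.1)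
  symm := ⟨by
    rintro p q (⟨h1, h2⟩ | ⟨h1, h2, h3⟩)
    · exact Or.inl ⟨h1.symm, h2.symm⟩
    · exact Or.inr ⟨h2, h1, h3.symm⟩⟩
  loopless := ⟨by
    rintro p (⟨_, h2⟩ | ⟨_, _, h3⟩)
    · exact h2 rfl
    · exact h3.ne rfl⟩

theorem main_cliq (Y : SimpleGraph V) (x : V) (a : ℕ) :
    Main (cliq Y) (x, a) ↔ a = 0 ∧ {y | Y.Adj x y}.Infinite := by
  constructor
  · intro h
    have ha : a = 0 := by
      by_contra ha
      obtain ⟨⟨y, b⟩, ⟨z, b'⟩, _, _, hyz, h1, h2, h3⟩ := h ∅ Set.finite_empty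
      rcases h1 with ⟨h1, _⟩ | ⟨h1, _⟩
      · rcases h2 with ⟨h2, _⟩ | ⟨h2, _⟩
        · apply h3
          refine Or.inl ⟨?_, ?_⟩
          · have h1' : x = y := h1
            have h2' : x = z := h2
            change y = z
            rw [← h1', ← h2']
          · intro h4
            apply hyz
            have h1' : x = y := h1
            have h2' : x = z := h2
            have h4' : b = b' := h4
            rw [← h1', ← h2', h4']
        · exact ha h2
      · exact ha h1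
    refine ⟨ha, ?_⟩
    subst ha
    intro hfin
    obtain ⟨⟨y, b⟩, ⟨z, b'⟩, hy, hz, hyz, h1, h2, h3⟩ :=
      h ((fun y => (y, 0)) '' {y | Y.Adj x y}) (hfin.image _)
    rcases h1 with ⟨h1, h1b⟩ | ⟨_, h1b, h1⟩
    · rcases h2 with ⟨h2, _⟩ | ⟨_, h2b, h2⟩
      · have h1' : x = y := h1
        have h2' : x = z := h2
        apply h3
        refine Or.inl ⟨?_, ?_⟩
        · change y = z
          rw [← h1', ← h2']
        · intro h4
          apply hyz
          have h4' : b = b' := h4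
          rw [← h1', ← h2', h4']
      · apply hz
        have h2b' : b' = 0 := h2b
        rw [h2b']
        exact ⟨z, h2, rfl⟩
    · apply hy
      have h1b' : b = 0 := h1b
      rw [h1b']
      exact ⟨y, h1, rfl⟩
  · rintro ⟨rfl, h⟩ K hK
    have i1 : Function.Injective (fun y : V => (y, 0)) := fun a b hab => (Prod.ext_iff.mp hab).1
    have i2 : Function.Injective (fun b : ℕ => (x, b)) := fun a b hab => (Prod.ext_iff.mp hab).2
    obtain ⟨y, hy, hyK⟩ := (h.sdiff (hK.preimage (f := fun y : V => (y, 0)) i1.injOn)).nonempty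
    have h0 : ({b : ℕ | b ≠ 0} : Set ℕ).Infinite := by
      refine Set.infinite_of_forall_exists_gt (fun n => ⟨n + 1, Nat.succ_ne_zero n, by omega⟩)
    obtain ⟨b, hb, hbK⟩ := (h0.sdiff (hK.preimage (f := fun b : ℕ => (x, b)) i2.injOn)).nonempty
    refine ⟨(y, 0), (x, b), hyK, hbK, ?_, Or.inr ⟨rfl, rfl, hy⟩, Or.inl ⟨rfl, hb.symm⟩, ?_⟩
    · intro h1
      exact hb (Prod.ext_iff.mp h1).2.symm
    · rintro (⟨h1, _⟩ | ⟨_, h1, _⟩)
      · have h1' : y = x := h1
        rw [h1'] at hy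
        exact hy.ne rfl
      · exact hb h1

theorem comm_cliq (Y : SimpleGraph V) (x y : V) (hxy : x ≠ y) :
    (comm (cliq Y) (x, 0) (y, 0)).Infinite ↔ (comm Y x y).Infinite := by
  have i1 : Function.Injective (fun y : V => (y, 0)) := fun a b hab => (Prod.ext_iff.mp hab).1
  have h : comm (cliq Y) (x, 0) (y, 0) = (fun z => (z, 0)) '' comm Y x y := by
    ext ⟨z, a⟩
    constructor
    · rintro ⟨h1, h2⟩
      rcases h1 with ⟨h1, h1b⟩ | ⟨_, h1b, h1⟩
      · rcases h2 with ⟨h2, _⟩ | ⟨_, h2b, h2⟩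
        · exact absurd (show x = y from (show x = z from h1).trans (show y = z from h2).symm) hxy
        · exact absurd (show a = 0 from h2b).symm h1b
      · rcases h2 with ⟨h2, h2b⟩ | ⟨_, h2b, h2⟩
        · exact absurd (show a = 0 from h1b).symm h2b
        · have ha : a = 0 := h1b
          subst ha
          exact ⟨z, ⟨h1, h2⟩, rfl⟩
    · rintro ⟨z', ⟨h1, h2⟩, h3⟩
      rw [← h3]
      exact ⟨Or.inr ⟨rfl, rfl, h1⟩, Or.inr ⟨rfl, rfl, h2⟩⟩
  rw [h]
  constructor
  · intro h1 h2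
    exact h1 (h2.image _)
  · intro h1
    exact h1.image i1.injOn

/-- the adjacency `H u v` is coded by infinitely many common neighbours -/
def hat (H : SimpleGraph α) : SimpleGraph (α ⊕ (α × α × ℕ)) where
  Adj p q := match p, q with
    | Sum.inl u, Sum.inr (a, b, _) => u = a ∨ (u = b ∧ H.Adj a b)
    | Sum.inr (a, b, _), Sum.inl u => u = a ∨ (u = b ∧ H.Adj a b)
    | _, _ => False
  symm := ⟨by
    rintro (u | ⟨a, b, i⟩) (v | ⟨a', b', i'⟩) h
    · exact h
    · exact h
    · exact h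
    · exact h⟩
  loopless := ⟨by
    rintro (u | ⟨a, b, i⟩) h
    · exact h
    · exact h⟩

theorem hat_deg_inl (H : SimpleGraph α) (u : α) :
    {y | (hat H).Adj (Sum.inl u) y}.Infinite := by
  have hinj : Function.Injective (fun i : ℕ => (Sum.inr (u, u, i) : α ⊕ (α × α × ℕ))) := by
    intro i j h
    simpa using h
  refine (Set.infinite_range_of_injective hinj).mono ?_
  rintro _ ⟨i, rfl⟩
  exact Or.inl rfl

theorem hat_deg_inr (H : SimpleGraph α) (a : α × α × ℕ) :
    {y | (hat H).Adj (Sum.inr a) y}.Finite := by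
  obtain ⟨a, b, i⟩ := a
  refine Set.Finite.subset (Set.toFinite {Sum.inl a, Sum.inl b}) ?_
  rintro (u | w) h
  · rcases h with h | ⟨h, _⟩
    · rw [h]; exact Or.inl rfl
    · rw [h]; exact Or.inr rfl
  · exact absurd h (by exact fun h => h)

theorem hat_comm (H : SimpleGraph α) (u v : α) (huv : u ≠ v) :
    (comm (hat H) (Sum.inl u) (Sum.inl v)).Infinite ↔ H.Adj u v := by
  constructor
  · intro h
    obtain ⟨w, h1, h2⟩ := h.nonempty
    rcases w with w | ⟨a, b, i⟩
    · exact absurd h1 (by exact fun h => h)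
    · rcases h1 with h1 | ⟨h1, h1'⟩
      · rcases h2 with h2 | ⟨h2, h2'⟩
        · exact absurd (h1.trans h2.symm) huv
        · rw [h1, h2]; exact h2'
      · rcases h2 with h2 | ⟨h2, h2'⟩
        · rw [h1, h2]; exact h1'.symm
        · exact absurd (h1.trans h2.symm) huv
  · intro h
    have hinj : Function.Injective (fun i : ℕ => (Sum.inr (u, v, i) : α ⊕ (α × α × ℕ))) := by
      intro i j h
      simpa using h
    refine (Set.infinite_range_of_injective hinj).mono ?_
    rintro _ ⟨i, rfl⟩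
    exact ⟨Or.inl rfl, Or.inr ⟨rfl, h⟩⟩

/-- the vertex type of the coded graphs -/
abbrev Vx (α : Type*) := (α ⊕ (α × α × ℕ)) × ℕ

/-- the coded graph -/
def code (H : SimpleGraph α) : SimpleGraph (Vx α) := cliq (hat H)

/-- the main vertex with name `u` -/
def mv (u : α) : Vx α := (Sum.inl u, 0)

theorem mv_injective : Function.Injective (mv (α := α)) := by
  intro u v h
  simpa [mv] using h

theorem main_code (H : SimpleGraph α) (x : Vx α) : Main (code H) x ↔ ∃ u, x = mv u := by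
  obtain ⟨x, a⟩ := x
  unfold code
  rw [main_cliq]
  constructor
  · rintro ⟨rfl, h⟩
    rcases x with u | w
    · exact ⟨u, rfl⟩
    · exact absurd (hat_deg_inr H w) h
  · rintro ⟨u, hu⟩
    obtain ⟨rfl, rfl⟩ := Prod.ext_iff.mp hu
    exact ⟨rfl, hat_deg_inl H u⟩

theorem comm_code (H : SimpleGraph α) (u v : α) (huv : u ≠ v) :
    (comm (code H) (mv u) (mv v)).Infinite ↔ H.Adj u v := by
  unfold code mv
  rw [comm_cliq _ _ _ (by simpa using huv), hat_comm H u v huv]

theorem deg_code (H : SimpleGraph α) (x : Vx α) : {y | (code H).Adj x y}.Infinite := by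
  obtain ⟨x, a⟩ := x
  have i2 : Function.Injective (fun b : ℕ => (x, b)) := fun a b hab => (Prod.ext_iff.mp hab).2
  have h0 : ({b : ℕ | a ≠ b} : Set ℕ).Infinite := by
    refine Set.infinite_of_forall_exists_gt (fun n => ⟨n + a + 1, ?_, by omega⟩)
    change a ≠ n + a + 1
    omega
  refine (h0.image i2.injOn).mono ?_
  rintro _ ⟨b, hb, rfl⟩
  exact Or.inl ⟨rfl, hb⟩

variable {I : Type*}

/-- the big graph: copies of coded graphs, changed in every block -/
def big (H : I × ℕ → SimpleGraph α) (τ : I → Finset (Sym2 (ℕ × Vx α))) :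
    SimpleGraph ((I × ℕ) × Vx α) :=
  flip (copies (fun c => code (H c))) (pat τ)

theorem link_big (H : I × ℕ → SimpleGraph α) (τ : I → Finset (Sym2 (ℕ × Vx α)))
    (c d : I × ℕ) (x y : Vx α) : Link (big H τ) (c, x) (d, y) ↔
      c = d ∧ ∃ u v, x = mv u ∧ y = mv v ∧ (H c).Adj u v := by
  unfold Link big
  rw [main_blocks, main_blocks, comm_blocks, main_code, main_code]
  constructor
  · rintro ⟨hne, ⟨u, rfl⟩, ⟨v, rfl⟩, rfl, h⟩
    refine ⟨rfl, u, v, rfl, rfl, ?_⟩
    have huv : u ≠ v := by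
      rintro rfl
      exact hne rfl
    exact (comm_code _ u v huv).mp h
  · rintro ⟨rfl, u, v, rfl, rfl, h⟩
    refine ⟨?_, ⟨u, rfl⟩, ⟨v, rfl⟩, rfl, (comm_code _ u v h.ne).mpr h⟩
    intro h'
    exact h.ne (mv_injective (Prod.ext_iff.mp h').2)

theorem deg_big (H : I × ℕ → SimpleGraph α) (τ : I → Finset (Sym2 (ℕ × Vx α)))
    (v : (I × ℕ) × Vx α) : {w | (big H τ).Adj v w}.Infinite := by
  obtain ⟨c, x⟩ := v
  have hinj : Function.Injective (fun y : Vx α => (c, y)) := fun a b hab => (Prod.ext_iff.mp hab).2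
  have h1 : {w | (copies (fun c => code (H c))).Adj (c, x) w}.Infinite := by
    refine ((deg_code (H c) x).image hinj.injOn).mono ?_
    rintro _ ⟨y, hy, rfl⟩
    exact ⟨rfl, hy⟩
  refine (h1.sdiff (touched_finite τ c.1)).mono ?_
  rintro w ⟨h2, h3⟩
  exact (block_agree _ τ c.1 (c, x) rfl w h3).mp h2

theorem codeg_big [Infinite I] [Nonempty α] (H : I × ℕ → SimpleGraph α)
    (τ : I → Finset (Sym2 (ℕ × Vx α)))
    (v : (I × ℕ) × Vx α) : {w | ¬ (big H τ).Adj v w}.Infinite := by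
  obtain ⟨⟨i, k⟩, x⟩ := v
  obtain ⟨u⟩ := ‹Nonempty α›
  have hinj : Function.Injective (fun j : I => (((j, 0), mv u) : (I × ℕ) × Vx α)) := by
    intro a b hab
    exact (Prod.ext_iff.mp (Prod.ext_iff.mp hab).1).1
  have h0 : ({j : I | j ≠ i} : Set I).Infinite := by
    have : ({j : I | j ≠ i} : Set I) = univ \ {i} := by
      ext j; simp
    rw [this]
    exact Set.infinite_univ.sdiff (Set.finite_singleton i)
  refine (h0.image hinj.injOn).mono ?_
  rintro _ ⟨j, hj, rfl⟩ h
  have h1 : s((((i, k), x) : (I × ℕ) × Vx α), ((j, 0), mv u)) ∉ pat τ := by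
    rw [mem_pat]
    rintro ⟨h2, _⟩
    exact hj h2.symm
  have h2 := h.2
  apply h2
  constructor
  · rintro ⟨h3, _⟩
    exact absurd (Prod.ext_iff.mp h3).1.symm hj
  · intro h3
    exact absurd h3 h1

end code

end Pool.Agent.FinStab
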