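import Mathlib

/-!
# Finitely stable graphs: definitions and elementary facts
-/

open Set

namespace Pool.Agent.FinStab

variable {V W : Type*}

/-- `flip G F` is the graph obtained from `G` by changing the status of the pairs in `F`. -/
def flip (G : SimpleGraph V) (F : Set (Sym2 V)) : SimpleGraph V where
  Adj x y := x ≠ y ∧ ¬ (G.Adj x y ↔ s(x, y) ∈ F)
  symm := ⟨by
    intro x y h
    refine ⟨h.1.symm, ?_⟩
    rw [G.adj_comm, Sym2.eq_swap]
    exact h.2⟩
  loopless := ⟨fun x h => h.1 rfl⟩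

/-- A graph is finitely stable if changing the status of finitely many pairs of distinct
vertices always gives an isomorphic graph. -/
def FinitelyStable (G : SimpleGraph V) : Prop :=
  ∀ F : Set (Sym2 V), F.Finite → (∀ e ∈ F, ¬ e.IsDiag) → Nonempty (flip G F ≃g G)

theorem flip_adj (G : SimpleGraph V) (F : Set (Sym2 V)) (x y : V) :
    (flip G F).Adj x y ↔ x ≠ y ∧ ¬ (G.Adj x y ↔ s(x, y) ∈ F) := Iff.rfl

/-- transport of a flip along an isomorphism -/
def flipIso {G : SimpleGraph V} {H : SimpleGraph W} (φ : G ≃g H) (F : Set (Sym2 W)) :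
    flip G (Sym2.map φ ⁻¹' F) ≃g flip H F where
  toEquiv := φ.toEquiv
  map_rel_iff' := by
    intro x y
    have h1 : (φ x ≠ φ y) ↔ x ≠ y := by simp
    have h2 : H.Adj (φ x) (φ y) ↔ G.Adj x y := φ.map_rel_iff
    change (φ x ≠ φ y ∧ ¬ (H.Adj (φ x) (φ y) ↔ s(φ x, φ y) ∈ F)) ↔ _
    rw [h1, h2]
    rfl

theorem FinitelyStable.of_iso {G : SimpleGraph V} {H : SimpleGraph W} (φ : G ≃g H)
    (hG : FinitelyStable G) : FinitelyStable H := by
  intro F hF hd
  have hinj : Function.Injective (Sym2.map φ) := Sym2.map.injective φ.injective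
  obtain ⟨ψ⟩ := hG (Sym2.map φ ⁻¹' F) (hF.preimage hinj.injOn) (by
    intro e he hdiag
    refine hd _ he ?_
    induction e using Sym2.ind with
    | _ x y =>
      rw [Sym2.mk_isDiag_iff] at hdiag
      rw [Sym2.map_mk, Sym2.mk_isDiag_iff, hdiag])
  exact ⟨((flipIso φ F).symm.trans ψ).trans φ⟩

theorem finitelyStable_iff_of_iso {G : SimpleGraph V} {H : SimpleGraph W} (φ : G ≃g H) :
    FinitelyStable G ↔ FinitelyStable H :=
  ⟨FinitelyStable.of_iso φ, FinitelyStable.of_iso φ.symm⟩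

variable {C β : Type*}

/-- disjoint union of the graphs `B c` -/
def copies (B : C → SimpleGraph β) : SimpleGraph (C × β) where
  Adj p q := p.1 = q.1 ∧ (B p.1).Adj p.2 q.2
  symm := ⟨by
    rintro ⟨c, x⟩ ⟨d, y⟩ ⟨h1, h2⟩
    have h1' : c = d := h1
    subst h1'
    exact ⟨rfl, h2.symm⟩⟩
  loopless := ⟨fun p h => h.2.ne rfl⟩

theorem copies_adj (B : C → SimpleGraph β) (c d : C) (x y : β) :
    (copies B).Adj (c, x) (d, y) ↔ c = d ∧ (B c).Adj x y := Iff.rfl

variable {I : Type*}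

/-- the pattern of changes given by a finite set of pairs in every block -/
def pat (τ : I → Finset (Sym2 (ℕ × β))) : Set (Sym2 ((I × ℕ) × β)) :=
  {e | ∃ i, ∃ f ∈ τ i, e = Sym2.map (fun v : ℕ × β => ((i, v.1), v.2)) f}

theorem mem_pat (τ : I → Finset (Sym2 (ℕ × β))) (i j : I) (k l : ℕ) (x y : β) :
    s(((i, k), x), ((j, l), y)) ∈ pat τ ↔ i = j ∧ s((k, x), (l, y)) ∈ τ i := by
  constructor
  · rintro ⟨i', f, hf, h⟩
    induction f using Sym2.ind with
    | _ v w =>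
      obtain ⟨k', x'⟩ := v
      obtain ⟨l', y'⟩ := w
      rw [Sym2.map_mk, Sym2.eq_iff] at h
      rcases h with ⟨h1, h2⟩ | ⟨h1, h2⟩
      · simp only [Prod.mk.injEq] at h1 h2
        obtain ⟨⟨rfl, rfl⟩, rfl⟩ := h1
        obtain ⟨⟨rfl, rfl⟩, rfl⟩ := h2
        exact ⟨rfl, hf⟩
      · simp only [Prod.mk.injEq] at h1 h2
        obtain ⟨⟨rfl, rfl⟩, rfl⟩ := h1
        obtain ⟨⟨rfl, rfl⟩, rfl⟩ := h2
        exact ⟨rfl, by rw [Sym2.eq_swap]; exact hf⟩
  · rintro ⟨rfl, h⟩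
    exact ⟨i, _, h, rfl⟩

/-- all types of blocks occur infinitely often -/
def Rich (τ : I → Finset (Sym2 (ℕ × β))) : Prop := ∀ F, (τ ⁻¹' {F}).Infinite

theorem exists_equiv_of_rich {A B J : Type*} [Countable A] [Countable B] (f : A → J) (g : B → J)
    (hf : ∀ j, (f ⁻¹' {j}).Infinite) (hg : ∀ j, (g ⁻¹' {j}).Infinite) :
    ∃ e : A ≃ B, ∀ a, g (e a) = f a := by
  have h : ∀ j, Nonempty ({a // f a = j} ≃ {b // g b = j}) := by
    intro j
    have h1 : Infinite {a // f a = j} := (hf j).to_subtype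
    have h2 : Infinite {b // g b = j} := (hg j).to_subtype
    obtain ⟨d1⟩ := nonempty_denumerable {a // f a = j}
    obtain ⟨d2⟩ := nonempty_denumerable {b // g b = j}
    exact ⟨Denumerable.equiv₂ _ _⟩
  have ej : ∀ j, {a // f a = j} ≃ {b // g b = j} := fun j => (h j).some
  refine ⟨(Equiv.sigmaFiberEquiv f).symm.trans ((Equiv.sigmaCongrRight ej).trans
    (Equiv.sigmaFiberEquiv g)), ?_⟩
  intro a
  have : ((Equiv.sigmaFiberEquiv f).symm a) = ⟨f a, ⟨a, rfl⟩⟩ := rfl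
  rw [Equiv.trans_apply, Equiv.trans_apply, this]
  exact (ej (f a) ⟨a, rfl⟩).2

end Pool.Agent.FinStab
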