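import Pool.Agent.Helper32.FS.Defs

/-!
# First-order formulas in graphs and finite changes
-/

open FirstOrder FirstOrder.Language

namespace Pool.Agent.FinStab.FO

/-- formulas of the language of graphs in the variables `x 0, ..., x (n-1)` -/
abbrev Fm (n : ℕ) := Language.graph.BoundedFormula Empty n

variable {V W : Type*}

/-- truth of a formula in a graph -/
def Tr (G : SimpleGraph V) {n : ℕ} (φ : Fm n) (x : Fin n → V) : Prop :=
  @BoundedFormula.Realize Language.graph V G.structure Empty n φ default x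

/-- equality of two variables -/
def fEq {n : ℕ} (i j : Fin n) : Fm n :=
  BoundedFormula.equal (Term.var (Sum.inr i)) (Term.var (Sum.inr j))

/-- adjacency of two variables -/
def fAdj {n : ℕ} (i j : Fin n) : Fm n :=
  BoundedFormula.rel (Language.adj) ![Term.var (Sum.inr i), Term.var (Sum.inr j)]

theorem tr_falsum (G : SimpleGraph V) {n : ℕ} (x : Fin n → V) :
    Tr G (BoundedFormula.falsum : Fm n) x ↔ False := Iff.rfl

theorem tr_eq (G : SimpleGraph V) {n : ℕ} (i j : Fin n) (x : Fin n → V) :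
    Tr G (fEq i j) x ↔ x i = x j := Iff.rfl

theorem tr_adj (G : SimpleGraph V) {n : ℕ} (i j : Fin n) (x : Fin n → V) :
    Tr G (fAdj i j) x ↔ G.Adj (x i) (x j) := Iff.rfl

theorem tr_imp (G : SimpleGraph V) {n : ℕ} (φ ψ : Fm n) (x : Fin n → V) :
    Tr G (φ.imp ψ) x ↔ (Tr G φ x → Tr G ψ x) := Iff.rfl

theorem tr_all (G : SimpleGraph V) {n : ℕ} (φ : Fm (n + 1)) (x : Fin n → V) :
    Tr G φ.all x ↔ ∀ a, Tr G φ (Fin.snoc x a) := Iff.rfl

theorem tr_not (G : SimpleGraph V) {n : ℕ} (φ : Fm n) (x : Fin n → V) :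
    Tr G φ.not x ↔ ¬ Tr G φ x := Iff.rfl

theorem tr_ex (G : SimpleGraph V) {n : ℕ} (φ : Fm (n + 1)) (x : Fin n → V) :
    Tr G φ.ex x ↔ ∃ a, Tr G φ (Fin.snoc x a) := by
  let _ := G.structure
  exact BoundedFormula.realize_ex

theorem tr_and (G : SimpleGraph V) {n : ℕ} (φ ψ : Fm n) (x : Fin n → V) :
    Tr G (φ ⊓ ψ) x ↔ (Tr G φ x ∧ Tr G ψ x) := by
  let _ := G.structure
  exact BoundedFormula.realize_inf

theorem tr_or (G : SimpleGraph V) {n : ℕ} (φ ψ : Fm n) (x : Fin n → V) :
    Tr G (φ ⊔ ψ) x ↔ (Tr G φ x ∨ Tr G ψ x) := by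
  let _ := G.structure
  exact BoundedFormula.realize_sup

theorem tr_iff (G : SimpleGraph V) {n : ℕ} (φ ψ : Fm n) (x : Fin n → V) :
    Tr G (φ.iff ψ) x ↔ (Tr G φ x ↔ Tr G ψ x) := by
  let _ := G.structure
  exact BoundedFormula.realize_iff

/-- induction on formulas -/
theorem fm_ind {P : ∀ n, Fm n → Prop} (h0 : ∀ n, P n BoundedFormula.falsum)
    (h1 : ∀ n i j, P n (fEq i j)) (h2 : ∀ n i j, P n (fAdj i j))
    (h3 : ∀ n φ ψ, P n φ → P n ψ → P n (φ.imp ψ))
    (h4 : ∀ n φ, P (n + 1) φ → P n φ.all) : ∀ n φ, P n φ := by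
  have ht : ∀ n (t : Language.graph.Term (Empty ⊕ Fin n)), ∃ i, t = Term.var (Sum.inr i) := by
    intro n t
    cases t with
    | var a =>
      rcases a with a | a
      · exact a.elim
      · exact ⟨a, rfl⟩
    | func f ts => exact (f : Empty).elim
  intro n φ
  induction φ with
  | falsum => exact h0 _
  | equal t₁ t₂ =>
    obtain ⟨i, rfl⟩ := ht _ t₁
    obtain ⟨j, rfl⟩ := ht _ t₂
    exact h1 _ i j
  | @rel n l R ts =>
    cases R with
    | adj =>
      obtain ⟨i, hi⟩ := ht _ (ts 0)
      obtain ⟨j, hj⟩ := ht _ (ts 1)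
      have : ts = ![Term.var (Sum.inr i), Term.var (Sum.inr j)] := by
        funext k
        match k with
        | 0 => exact hi
        | 1 => exact hj
      rw [this]
      exact h2 _ i j
  | imp φ ψ ih1 ih2 => exact h3 _ _ _ ih1 ih2
  | all φ ih => exact h4 _ _ ih

/-- isomorphisms preserve truth -/
theorem tr_iso {G : SimpleGraph V} {H : SimpleGraph W} (f : G ≃g H) {n : ℕ} (φ : Fm n)
    (x : Fin n → V) : Tr G φ x ↔ Tr H φ (fun i => f (x i)) := by
  revert x
  refine fm_ind (P := fun n φ => ∀ x : Fin n → V, Tr G φ x ↔ Tr H φ (fun i => f (x i)))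
    ?_ ?_ ?_ ?_ ?_ n φ
  · intro n x
    rw [tr_falsum, tr_falsum]
  · intro n i j x
    rw [tr_eq, tr_eq]
    exact f.injective.eq_iff.symm
  · intro n i j x
    rw [tr_adj, tr_adj]
    exact f.map_rel_iff.symm
  · intro n φ ψ h1 h2 x
    rw [tr_imp, tr_imp, h1, h2]
  · intro n φ h x
    rw [tr_all, tr_all]
    have key : ∀ a, (fun i => f ((Fin.snoc x a : Fin (n + 1) → V) i)) =
        (Fin.snoc (fun i => f (x i)) (f a) : Fin (n + 1) → W) := by
      intro a
      funext i
      refine Fin.lastCases ?_ (fun i => ?_) i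
      · simp
      · simp
    constructor
    · intro h' b
      have := (h _).1 (h' (f.symm b))
      rw [key] at this
      simpa using this
    · intro h' a
      rw [h, key]
      exact h' _

/-- elementary equivalence -/
def EEq (G : SimpleGraph V) (H : SimpleGraph W) : Prop :=
  ∀ φ : Fm 0, Tr G φ default ↔ Tr H φ default

theorem EEq.refl (G : SimpleGraph V) : EEq G G := fun _ => Iff.rfl

theorem EEq.symm {G : SimpleGraph V} {H : SimpleGraph W} (h : EEq G H) : EEq H G :=
  fun φ => (h φ).symm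

theorem EEq.trans {U : Type*} {G : SimpleGraph V} {H : SimpleGraph W} {K : SimpleGraph U}
    (h : EEq G H) (h' : EEq H K) : EEq G K := fun φ => (h φ).trans (h' φ)

theorem EEq.of_iso {G : SimpleGraph V} {H : SimpleGraph W} (f : G ≃g H) : EEq G H := by
  intro φ
  rw [tr_iso f]
  have : (fun i => f ((default : Fin 0 → V) i)) = default := Subsingleton.elim _ _
  rw [this]

/-- truth in the changed graph is expressible -/
theorem exists_flip_formula : ∀ n (φ : Fm n), ∃ ψ : Fm (2 + n), ∀ (V : Type) (G : SimpleGraph V)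
    (a b : V) (x : Fin n → V),
      Tr G ψ (Fin.append ![a, b] x) ↔ Tr (flip G {s(a, b)}) φ x := by
  refine fm_ind ?_ ?_ ?_ ?_ ?_
  · intro n
    exact ⟨BoundedFormula.falsum, fun V G a b x => Iff.rfl⟩
  · intro n i j
    refine ⟨fEq (Fin.natAdd 2 i) (Fin.natAdd 2 j), fun V G a b x => ?_⟩
    rw [tr_eq, tr_eq, Fin.append_right, Fin.append_right]
  · intro n i j
    refine ⟨(fEq (Fin.natAdd 2 i) (Fin.natAdd 2 j)).not ⊓
      ((fAdj (Fin.natAdd 2 i) (Fin.natAdd 2 j)).iff
        ((fEq (Fin.natAdd 2 i) (Fin.castAdd n 0) ⊓ fEq (Fin.natAdd 2 j) (Fin.castAdd n 1)) ⊔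
        (fEq (Fin.natAdd 2 i) (Fin.castAdd n 1) ⊓ fEq (Fin.natAdd 2 j) (Fin.castAdd n 0)))).not,
      fun V G a b x => ?_⟩
    rw [tr_and, tr_not, tr_not, tr_iff, tr_or, tr_and, tr_and, tr_eq, tr_eq, tr_eq, tr_eq, tr_eq,
      tr_adj, tr_adj, flip_adj]
    simp only [Fin.append_right, Fin.append_left]
    simp only [Set.mem_singleton_iff, Sym2.eq_iff, Matrix.cons_val_zero, Matrix.cons_val_one,
      ne_eq]
  · rintro n φ ψ ⟨φ', h1⟩ ⟨ψ', h2⟩
    refine ⟨φ'.imp ψ', fun V G a b x => ?_⟩
    rw [tr_imp, tr_imp, h1, h2]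
  · rintro n φ ⟨φ', h1⟩
    refine ⟨BoundedFormula.all (n := 2 + n) φ', fun V G a b x => ?_⟩
    rw [tr_all, tr_all]
    refine forall_congr' fun c => ?_
    rw [← h1 V G a b (Fin.snoc x c), Fin.append_snoc]

/-- flip invariance passes to elementarily equivalent graphs -/
theorem flipInv_of_eeq {V W : Type} {G : SimpleGraph V} {H : SimpleGraph W}
    (h : ∀ a b, a ≠ b → EEq (flip G {s(a, b)}) G) (hGH : EEq G H) :
    ∀ a b, a ≠ b → EEq (flip H {s(a, b)}) H := by
  intro a b hab
  have key : ∀ φ : Fm 0, Tr H φ default → Tr (flip H {s(a, b)}) φ default := by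
    intro φ hφ
    obtain ⟨ψ, hψ⟩ := exists_flip_formula 0 φ
    have e : ∀ {U : Type} (p q : U), (Fin.snoc (Fin.snoc (default : Fin 0 → U) p : Fin 1 → U) q :
        Fin 2 → U) = Fin.append ![p, q] (default : Fin 0 → U) := by
      intro U p q
      funext i
      match i with
      | 0 => rfl
      | 1 => rfl
    have hG : Tr G (((fEq 0 1).not.imp ψ).all.all : Fm 0) default := by
      rw [tr_all]
      intro p
      rw [tr_all]
      intro q
      rw [tr_imp, tr_not, tr_eq]
      intro hpq
      have hpq' : p ≠ q := hpq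
      rw [e, hψ]
      exact ((h p q hpq') φ).2 ((hGH φ).2 hφ)
    have hH := (hGH _).1 hG
    rw [tr_all] at hH
    have h1 := hH a
    rw [tr_all] at h1
    have h2 := h1 b
    rw [tr_imp, tr_not, tr_eq] at h2
    have h3 := h2 (by exact hab)
    rw [e, hψ] at h3
    exact h3
  intro φ
  constructor
  · intro h1
    by_contra h2
    exact key φ.not h2 h1
  · exact key φ

theorem flip_empty (G : SimpleGraph V) : flip G ∅ = G := by
  ext x y
  rw [flip_adj]
  constructor
  · rintro ⟨_, h⟩
    by_contra h'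
    exact h ⟨fun h1 => (h' h1).elim, fun h1 => h1.elim⟩
  · intro h
    exact ⟨h.ne, fun h' => (h'.1 h).elim⟩

theorem flip_insert (G : SimpleGraph V) (F : Set (Sym2 V)) (e : Sym2 V) (he : e ∉ F) :
    flip G (insert e F) = flip (flip G F) {e} := by
  ext x y
  rw [flip_adj, flip_adj, flip_adj]
  by_cases h : s(x, y) = e
  · subst h
    simp only [Set.mem_insert_iff, true_or, Set.mem_singleton_iff]
    by_cases hG : G.Adj x y <;> by_cases hxy : x = y <;> simp [hG, hxy, he]
  · simp only [Set.mem_insert_iff, h, false_or, Set.mem_singleton_iff]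
    by_cases hG : G.Adj x y <;> by_cases hxy : x = y <;> by_cases hF : s(x, y) ∈ F <;>
      simp [hG, hxy, hF]

theorem flip_insert_diag (G : SimpleGraph V) (F : Set (Sym2 V)) (e : Sym2 V) (he : e.IsDiag) :
    flip G (insert e F) = flip G F := by
  ext x y
  rw [flip_adj, flip_adj]
  by_cases h : s(x, y) = e
  · subst h
    rw [Sym2.mk_isDiag_iff] at he
    simp [he]
  · simp only [Set.mem_insert_iff, h, false_or]

/-- finite changes preserve the theory as soon as single changes do -/
theorem eeq_flip_finite {V : Type} {G : SimpleGraph V}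
    (h : ∀ a b, a ≠ b → EEq (flip G {s(a, b)}) G) {F : Set (Sym2 V)} (hF : F.Finite) :
    EEq (flip G F) G := by
  induction F, hF using Set.Finite.induction_on with
  | empty => rw [flip_empty]; exact EEq.refl G
  | @insert e F he hF ih =>
    by_cases hd : e.IsDiag
    · rw [flip_insert_diag G F e hd]; exact ih
    · rw [flip_insert G F e he]
      refine EEq.trans ?_ ih
      induction e using Sym2.ind with
      | _ a b =>
        rw [Sym2.mk_isDiag_iff] at hd
        exact flipInv_of_eeq h ih.symm a b hd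

/-- finite stability follows from the case of a single pair -/
theorem finitelyStable_of_single {G : SimpleGraph V}
    (h : ∀ a b, a ≠ b → Nonempty (flip G {s(a, b)} ≃g G)) : FinitelyStable G := by
  intro F hF _
  induction F, hF using Set.Finite.induction_on with
  | empty => rw [flip_empty]; exact ⟨SimpleGraph.Iso.refl⟩
  | @insert e F he hF ih =>
    have ih' := ih (by
      intro e' he'
      rename_i hh
      exact hh e' (Set.mem_insert_of_mem _ he'))
    rename_i hh
    have hd := hh e (Set.mem_insert _ _)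
    rw [flip_insert G F e he]
    obtain ⟨f⟩ := ih'
    have e1 : Sym2.map f ⁻¹' {Sym2.map f e} = {e} := by
      ext e'
      simp only [Set.mem_preimage, Set.mem_singleton_iff]
      exact (Sym2.map.injective f.injective).eq_iff
    have f2 := flipIso f {Sym2.map f e}
    rw [e1] at f2
    have hd' : ¬ (Sym2.map f e).IsDiag := by
      intro hdiag
      apply hd
      induction e using Sym2.ind with
      | _ x y =>
        rw [Sym2.map_mk, Sym2.mk_isDiag_iff] at hdiag
        rw [Sym2.mk_isDiag_iff]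
        exact f.injective hdiag
    induction e using Sym2.ind with
    | _ x y =>
      rw [Sym2.map_mk] at f2 hd'
      rw [Sym2.mk_isDiag_iff] at hd'
      obtain ⟨f3⟩ := h (f x) (f y) hd'
      exact ⟨f2.trans f3⟩

end Pool.Agent.FinStab.FO
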