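import Pool.Agent.Helper32.FS.FO1

/-!
# Ultrapowers of graphs: Łoś, saturation, back and forth
-/

open FirstOrder FirstOrder.Language Filter

namespace Pool.Agent.FinStab.FO

/-- a nonprincipal ultrafilter on `ℕ` -/
noncomputable abbrev U : Filter ℕ := ((hyperfilter ℕ : Ultrafilter ℕ) : Filter ℕ)

theorem ev_not {p : ℕ → Prop} : (∀ᶠ i in U, ¬ p i) ↔ ¬ ∀ᶠ i in U, p i :=
  Ultrafilter.eventually_not

theorem ev_imp {p q : ℕ → Prop} :
    (∀ᶠ i in U, (p i → q i)) ↔ ((∀ᶠ i in U, p i) → ∀ᶠ i in U, q i) :=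
  Ultrafilter.eventually_imp

theorem ev_or {p q : ℕ → Prop} :
    (∀ᶠ i in U, (p i ∨ q i)) ↔ ((∀ᶠ i in U, p i) ∨ ∀ᶠ i in U, q i) :=
  Ultrafilter.eventually_or

theorem ev_iff {p q : ℕ → Prop} :
    (∀ᶠ i in U, (p i ↔ q i)) ↔ ((∀ᶠ i in U, p i) ↔ ∀ᶠ i in U, q i) := by
  have : (∀ᶠ i in U, (p i ↔ q i)) ↔ ∀ᶠ i in U, ((p i → q i) ∧ (q i → p i)) :=
    eventually_congr (Eventually.of_forall fun i => iff_iff_implies_and_implies)
  rw [this, eventually_and, ev_imp, ev_imp]
  exact ⟨fun h => ⟨h.1, h.2⟩, fun h => ⟨h.1, h.2⟩⟩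

/-- the vertex set of the ultrapower -/
abbrev Q (V : Type) := Filter.Germ U V

variable {V W : Type}

/-- a representative -/
noncomputable def rep (a : Q V) : ℕ → V := Quotient.out a

theorem coe_rep (a : Q V) : ((rep a : ℕ → V) : Q V) = a := Quotient.out_eq a

theorem rep_coe (f : ℕ → V) : rep (f : Q V) =ᶠ[U] f := Germ.coe_eq.1 (coe_rep _)

/-- ultraproduct of a sequence of graphs on the same vertex set -/
noncomputable def UG (G : ℕ → SimpleGraph V) : SimpleGraph (Q V) where
  Adj a b := ∀ᶠ i in U, (G i).Adj (rep a i) (rep b i)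
  symm := ⟨fun _ _ h => h.mono fun _ hi => hi.symm⟩
  loopless := ⟨fun a h => by
    obtain ⟨i, hi⟩ := h.exists
    exact (G i).loopless.irrefl _ hi⟩

theorem ug_adj (G : ℕ → SimpleGraph V) (f g : ℕ → V) :
    (UG G).Adj (f : Q V) (g : Q V) ↔ ∀ᶠ i in U, (G i).Adj (f i) (g i) := by
  constructor
  · intro h
    filter_upwards [h, rep_coe f, rep_coe g] with i h1 h2 h3
    rw [h2, h3] at h1
    exact h1
  · intro h
    change ∀ᶠ i in U, (G i).Adj (rep (f : Q V) i) (rep (g : Q V) i)
    filter_upwards [h, rep_coe f, rep_coe g] with i h1 h2 h3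
    rw [h2, h3]
    exact h1

theorem snoc_coe {n : ℕ} (x : Fin n → ℕ → V) (f : ℕ → V) :
    (fun j => (((Fin.snoc x f : Fin (n + 1) → ℕ → V) j : ℕ → V) : Q V)) =
      (Fin.snoc (fun j => ((x j : ℕ → V) : Q V)) (f : Q V) : Fin (n + 1) → Q V) := by
  funext j
  refine Fin.lastCases ?_ (fun j => ?_) j
  · simp
  · simp

theorem snoc_eval {n : ℕ} (x : Fin n → ℕ → V) (f : ℕ → V) (i : ℕ) :
    (fun j => (Fin.snoc x f : Fin (n + 1) → ℕ → V) j i) =
      (Fin.snoc (fun j => x j i) (f i) : Fin (n + 1) → V) := by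
  funext j
  refine Fin.lastCases ?_ (fun j => ?_) j
  · simp
  · simp

/-- Łoś's theorem -/
theorem los : ∀ n (φ : Fm n), ∀ (G : ℕ → SimpleGraph V) (x : Fin n → ℕ → V),
    Tr (UG G) φ (fun j => ((x j : ℕ → V) : Q V)) ↔ ∀ᶠ i in U, Tr (G i) φ (fun j => x j i) := by
  refine fm_ind ?_ ?_ ?_ ?_ ?_
  · intro n G x
    simp only [tr_falsum]
    exact ⟨False.elim, fun h => by obtain ⟨i, hi⟩ := h.exists; exact hi⟩
  · intro n i j G x
    simp only [tr_eq]
    exact Germ.coe_eq
  · intro n i j G x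
    simp only [tr_adj]
    exact ug_adj G _ _
  · intro n φ ψ h1 h2 G x
    simp only [tr_imp]
    rw [h1, h2, ev_imp]
  · intro n φ h G x
    simp only [tr_all]
    constructor
    · intro h'
      by_contra hc
      rw [← ev_not] at hc
      have hc' : ∀ᶠ i in U, ∃ a, ¬ Tr (G i) φ (Fin.snoc (fun j => x j i) a) := by
        filter_upwards [hc] with i hi
        by_contra hh
        push Not at hh
        exact hi hh
      obtain ⟨i0, a0, _⟩ := hc'.exists
      have : ∀ i, ∃ a, (∃ a, ¬ Tr (G i) φ (Fin.snoc (fun j => x j i) a)) →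
          ¬ Tr (G i) φ (Fin.snoc (fun j => x j i) a) := by
        intro i
        by_cases hi : ∃ a, ¬ Tr (G i) φ (Fin.snoc (fun j => x j i) a)
        · obtain ⟨a, ha⟩ := hi
          exact ⟨a, fun _ => ha⟩
        · exact ⟨a0, fun h => (hi h).elim⟩
      choose f hf using this
      have h1 := h' (f : Q V)
      rw [← snoc_coe, h G (Fin.snoc x f)] at h1
      have h2 : ∀ᶠ i in U, False := by
        filter_upwards [h1, hc'] with i hi1 hi2
        rw [snoc_eval] at hi1
        exact hf i hi2 hi1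
      obtain ⟨i, hi⟩ := h2.exists
      exact hi
    · intro h' a
      rw [← coe_rep a, ← snoc_coe, h G (Fin.snoc x (rep a))]
      filter_upwards [h'] with i hi
      rw [snoc_eval]
      exact hi _

/-- countable saturation, in terms of coordinates -/
theorem diag {D : Type} (P : ℕ → ℕ → D → Prop)
    (h : ∀ N, ∀ᶠ i in U, ∃ z, ∀ m < N, P m i z) :
    ∃ z : ℕ → D, ∀ m, ∀ᶠ i in U, P m i (z i) := by
  classical
  obtain ⟨i0, z0, _⟩ := (h 0).exists
  have h0 : ∀ i, ∃ z, ∀ m < 0, P m i z := fun i => ⟨z0, fun m hm => absurd hm (Nat.not_lt_zero _)⟩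
  have h1 : ∀ i, ∃ z, ∀ m < Nat.findGreatest (fun N => ∃ z, ∀ m < N, P m i z) i, P m i z := by
    intro i
    exact Nat.findGreatest_spec (P := fun N => ∃ z, ∀ m < N, P m i z) (Nat.zero_le i) (h0 i)
  choose z hz using h1
  refine ⟨z, fun m => ?_⟩
  have h2 : ∀ᶠ i in U, m + 1 ≤ i :=
    (Nat.hyperfilter_le_atTop : U ≤ atTop) (eventually_ge_atTop (m + 1))
  filter_upwards [h (m + 1), h2] with i h3 h4
  refine hz i m ?_
  exact Nat.lt_of_succ_le (Nat.le_findGreatest h4 h3)

/-- changing one pair of the ultrapower -/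
theorem ug_flip (G : SimpleGraph V) (x y : ℕ → V) :
    UG (fun i => flip G {s(x i, y i)}) = flip (UG fun _ => G) {s((x : Q V), (y : Q V))} := by
  ext a b
  rw [← coe_rep a, ← coe_rep b, ug_adj, flip_adj, ug_adj]
  simp only [flip_adj, Set.mem_singleton_iff, Sym2.eq_iff]
  have e : ∀ f g : ℕ → V, (∀ᶠ i in U, f i = g i) ↔ (f : Q V) = (g : Q V) :=
    fun f g => Germ.coe_eq.symm
  have e' : ∀ f g : ℕ → V, (∀ᶠ i in U, f i ≠ g i) ↔ (f : Q V) ≠ (g : Q V) := by
    intro f g
    exact (ev_not (p := fun i => f i = g i)).trans (not_congr (e f g))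
  refine eventually_and.trans (and_congr (e' _ _) ?_)
  refine ev_not.trans (not_congr ?_)
  refine ev_iff.trans (iff_congr Iff.rfl ?_)
  refine ev_or.trans (or_congr ?_ ?_)
  · exact eventually_and.trans (and_congr (e _ _) (e _ _))
  · exact eventually_and.trans (and_congr (e _ _) (e _ _))

instance : Countable Language.graph.Symbols := by
  have h1 : Countable (Σ l, Language.graph.Functions l) :=
    Function.Injective.countable (f := fun p : (Σ l, Language.graph.Functions l) => p.1)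
      (fun p => (p.2 : Empty).elim)
  have h2 : Countable (Σ l, Language.graph.Relations l) :=
    Function.Injective.countable (f := fun p : (Σ l, Language.graph.Relations l) => p.1) (by
      rintro ⟨l, r⟩ ⟨l', r'⟩ h
      have h' : l = l' := h
      subst h'
      rw [Subsingleton.elim r r'])
  exact inferInstanceAs (Countable ((Σ l, Language.graph.Functions l) ⊕
    (Σ l, Language.graph.Relations l)))

instance (n : ℕ) : Countable (Fm n) :=
  Function.Injective.countable
    (f := fun φ : Fm n => (⟨n, φ⟩ : Σ n, Language.graph.BoundedFormula Empty n))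
    (fun φ ψ h => by
      simpa using h)

instance (n : ℕ) : Nonempty (Fm n) := ⟨BoundedFormula.falsum⟩

/-- same first-order properties of tuples -/
def EE (A : SimpleGraph V) (B : SimpleGraph W) {n : ℕ} (a : Fin n → V) (b : Fin n → W) : Prop :=
  ∀ φ : Fm n, Tr A φ a ↔ Tr B φ b

/-- finite conjunctions -/
def conj {n : ℕ} (σ : ℕ → Fm n) : ℕ → Fm n
  | 0 => BoundedFormula.falsum.imp BoundedFormula.falsum
  | N + 1 => conj σ N ⊓ σ N

theorem tr_conj {V : Type*} (G : SimpleGraph V) {n : ℕ} (σ : ℕ → Fm n) (N : ℕ) (x : Fin n → V) :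
    Tr G (conj σ N) x ↔ ∀ m < N, Tr G (σ m) x := by
  induction N with
  | zero =>
    constructor
    · intro _ m hm
      exact absurd hm (Nat.not_lt_zero _)
    · intro _
      exact fun h => h
  | succ N ih =>
    change Tr G (conj σ N ⊓ σ N) x ↔ _
    rw [tr_and, ih]
    constructor
    · rintro ⟨h1, h2⟩ m hm
      rcases Nat.lt_succ_iff_lt_or_eq.1 hm with h | h
      · exact h1 m h
      · rw [h]; exact h2
    · intro h
      exact ⟨fun m hm => h m (Nat.lt_succ_of_lt hm), h N (Nat.lt_succ_self N)⟩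

/-- the forth step -/
theorem ee_extend (A : SimpleGraph W) (G : ℕ → SimpleGraph V) {n : ℕ} (a : Fin n → W)
    (b : Fin n → Q V) (h : EE A (UG G) a b) (c : W) :
    ∃ d : Q V, EE A (UG G) (Fin.snoc a c : Fin (n + 1) → W) (Fin.snoc b d : Fin (n + 1) → Q V) := by
  classical
  obtain ⟨e, he⟩ := exists_surjective_nat (Fm (n + 1))
  let σ : ℕ → Fm (n + 1) := fun m => if Tr A (e m) (Fin.snoc a c) then e m else (e m).not
  have hσ : ∀ m, Tr A (σ m) (Fin.snoc a c) := by
    intro m
    by_cases hm : Tr A (e m) (Fin.snoc a c)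
    · simp only [σ, if_pos hm]; exact hm
    · simp only [σ, if_neg hm]; exact hm
  let β : Fin n → ℕ → V := fun j => rep (b j)
  have hβ : (fun j => ((β j : ℕ → V) : Q V)) = b := funext fun j => coe_rep _
  have h1 : ∀ N, ∀ᶠ i in U, ∃ z, ∀ m < N, Tr (G i) (σ m) (Fin.snoc (fun j => β j i) z) := by
    intro N
    have h2 : Tr A (conj σ N).ex a := by
      rw [tr_ex]
      exact ⟨c, (tr_conj A σ N _).2 fun m _ => hσ m⟩
    have h3 := (h _).1 h2
    rw [← hβ, los] at h3
    filter_upwards [h3] with i hi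
    rw [tr_ex] at hi
    obtain ⟨z, hz⟩ := hi
    exact ⟨z, (tr_conj _ σ N _).1 hz⟩
  obtain ⟨z, hz⟩ := diag (fun m i z => Tr (G i) (σ m) (Fin.snoc (fun j => β j i) z)) h1
  refine ⟨(z : Q V), ?_⟩
  have h4 : ∀ m, Tr (UG G) (σ m) (Fin.snoc b (z : Q V)) := by
    intro m
    rw [← hβ, ← snoc_coe, los]
    filter_upwards [hz m] with i hi
    rw [snoc_eval]
    exact hi
  intro φ
  obtain ⟨m, rfl⟩ := he φ
  have h5 := h4 m
  by_cases hm : Tr A (e m) (Fin.snoc a c)
  · simp only [σ, if_pos hm] at h5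
    exact ⟨fun _ => h5, fun _ => hm⟩
  · simp only [σ, if_neg hm] at h5
    exact ⟨fun h => (hm h).elim, fun h => (h5 h).elim⟩

theorem EE.symm {A : SimpleGraph V} {B : SimpleGraph W} {n : ℕ} {a : Fin n → V} {b : Fin n → W}
    (h : EE A B a b) : EE B A b a := fun φ => (h φ).symm

/-- the ultraproduct of graphs elementarily equivalent to `G` is elementarily equivalent
to `G` -/
theorem eeq_ug {H : SimpleGraph W} (G : ℕ → SimpleGraph V) (h : ∀ᶠ i in U, EEq (G i) H) :
    EEq (UG G) H := by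
  intro φ
  have e1 : (default : Fin 0 → Q V) =
      (fun j => (((default : Fin 0 → ℕ → V) j : ℕ → V) : Q V)) := Subsingleton.elim _ _
  rw [e1, los]
  have e2 : (∀ᶠ i in U, Tr (G i) φ (fun j => (default : Fin 0 → ℕ → V) j i)) ↔
      ∀ᶠ _i in U, Tr H φ default := by
    refine eventually_congr ?_
    filter_upwards [h] with i hi
    have : (fun j => (default : Fin 0 → ℕ → V) j i) = default := Subsingleton.elim _ _
    rw [this]
    exact hi φ
  rw [e2]
  exact eventually_const

end Pool.Agent.FinStab.FO
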