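import Pool.Agent.Helper32.FS.FO2

/-!
# Countable finitely stable elementary extensions
-/

open FirstOrder FirstOrder.Language Filter

namespace Pool.Agent.FinStab.FO

/-- closing a countable set under countably many finitary operations -/
theorem exists_closure {X I : Type} [Countable I] (ι : I → Type) [∀ i, Finite (ι i)]
    (op : ∀ i, (ι i → X) → X) (A0 : Set X) (h0 : A0.Countable) :
    ∃ N : Set X, A0 ⊆ N ∧ N.Countable ∧ ∀ i (f : ι i → X), (∀ j, f j ∈ N) → op i f ∈ N := by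
  let S : ℕ → Set X := fun k => Nat.rec A0
    (fun _ T => T ∪ ⋃ i, op i '' (Set.pi Set.univ fun _ => T)) k
  have hS1 : ∀ k, S (k + 1) = S k ∪ ⋃ i, op i '' (Set.pi Set.univ fun _ => S k) := fun k => rfl
  have hmono : Monotone S := monotone_nat_of_le_succ fun k => by
    rw [hS1]
    exact Set.subset_union_left
  have hc : ∀ k, (S k).Countable := by
    intro k
    induction k with
    | zero => exact h0
    | succ k ih =>
      rw [hS1]
      refine ih.union (Set.countable_iUnion fun i => ?_)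
      exact (Set.countable_univ_pi fun _ => ih).image _
  refine ⟨⋃ k, S k, Set.subset_iUnion S 0, Set.countable_iUnion hc, ?_⟩
  intro i f hf
  have h1 : ∀ j, ∃ k, f j ∈ S k := fun j => Set.mem_iUnion.1 (hf j)
  choose k hk using h1
  obtain ⟨K, hK⟩ := Finite.exists_le k
  refine Set.mem_iUnion.2 ⟨K + 1, ?_⟩
  rw [hS1]
  refine Or.inr (Set.mem_iUnion.2 ⟨i, f, ?_, rfl⟩)
  intro j _
  exact hmono (hK j) (hk j)

/-- back and forth -/
theorem iso_of_bf {X Y : Type} [Countable X] [Countable Y] [Nonempty X] [Nonempty Y]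
    {A : SimpleGraph X} {B : SimpleGraph Y} (R : ∀ n, (Fin n → X) → (Fin n → Y) → Prop)
    (h0 : R 0 default default)
    (hf : ∀ n a b, R n a b → ∀ c, ∃ d, R (n + 1) (Fin.snoc a c) (Fin.snoc b d))
    (hb : ∀ n a b, R n a b → ∀ d, ∃ c, R (n + 1) (Fin.snoc a c) (Fin.snoc b d))
    (hR : ∀ n a b, R n a b → ∀ i j, (a i = a j ↔ b i = b j) ∧
      (A.Adj (a i) (a j) ↔ B.Adj (b i) (b j))) : Nonempty (A ≃g B) := by
  obtain ⟨eX, heX⟩ := exists_surjective_nat X
  obtain ⟨eY, heY⟩ := exists_surjective_nat Y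
  have step : ∀ (k : ℕ) (s : {p : (Fin k → X) × (Fin k → Y) // R k p.1 p.2}),
      ∃ x y, R (k + 1) (Fin.snoc s.1.1 x) (Fin.snoc s.1.2 y) ∧
        (k % 2 = 0 → x = eX (k / 2)) ∧ (k % 2 = 1 → y = eY (k / 2)) := by
    intro k s
    rcases Nat.mod_two_eq_zero_or_one k with hk | hk
    · obtain ⟨d, hd⟩ := hf k _ _ s.2 (eX (k / 2))
      exact ⟨_, d, hd, fun _ => rfl, fun h => by omega⟩
    · obtain ⟨c, hc⟩ := hb k _ _ s.2 (eY (k / 2))
      exact ⟨c, _, hc, fun h => by omega, fun _ => rfl⟩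
  choose x y h1 h2 h3 using step
  let c : ∀ k, {p : (Fin k → X) × (Fin k → Y) // R k p.1 p.2} := fun k =>
    Nat.rec (motive := fun k => {p : (Fin k → X) × (Fin k → Y) // R k p.1 p.2})
      ⟨(default, default), h0⟩
      (fun k s => ⟨(Fin.snoc s.1.1 (x k s), Fin.snoc s.1.2 (y k s)), h1 k s⟩) k
  let α : ℕ → X := fun k => x k (c k)
  let β : ℕ → Y := fun k => y k (c k)
  have hc1 : ∀ k, (c (k + 1)).1.1 = Fin.snoc (c k).1.1 (α k) := fun k => rfl
  have hc2 : ∀ k, (c (k + 1)).1.2 = Fin.snoc (c k).1.2 (β k) := fun k => rfl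
  have hα : ∀ k (i : Fin k), (c k).1.1 i = α i := by
    intro k
    induction k with
    | zero => exact fun i => i.elim0
    | succ k ih =>
      intro i
      rw [hc1]
      refine Fin.lastCases ?_ (fun i => ?_) i
      · simp
      · simp [ih]
  have hβ : ∀ k (i : Fin k), (c k).1.2 i = β i := by
    intro k
    induction k with
    | zero => exact fun i => i.elim0
    | succ k ih =>
      intro i
      rw [hc2]
      refine Fin.lastCases ?_ (fun i => ?_) i
      · simp
      · simp [ih]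
  have key : ∀ i j : ℕ, (α i = α j ↔ β i = β j) ∧ (A.Adj (α i) (α j) ↔ B.Adj (β i) (β j)) := by
    intro i j
    have hi : i < i + j + 1 := by omega
    have hj : j < i + j + 1 := by omega
    have := hR _ _ _ (c (i + j + 1)).2 ⟨i, hi⟩ ⟨j, hj⟩
    rw [hα, hα, hβ, hβ] at this
    exact this
  have sα : ∀ z, ∃ k, α k = z := by
    intro z
    obtain ⟨m, rfl⟩ := heX z
    refine ⟨2 * m, ?_⟩
    have := h2 (2 * m) (c (2 * m)) (by omega)
    rw [show 2 * m / 2 = m by omega] at this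
    exact this
  have sβ : ∀ z, ∃ k, β k = z := by
    intro z
    obtain ⟨m, rfl⟩ := heY z
    refine ⟨2 * m + 1, ?_⟩
    have := h3 (2 * m + 1) (c (2 * m + 1)) (by omega)
    rw [show (2 * m + 1) / 2 = m by omega] at this
    exact this
  choose p hp using sα
  have hbij : Function.Bijective fun z => β (p z) := by
    constructor
    · intro z z' h
      have := (key (p z) (p z')).1.2 h
      rw [hp, hp] at this
      exact this
    · intro w
      obtain ⟨k, rfl⟩ := sβ w
      refine ⟨α k, ?_⟩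
      exact (key (p (α k)) k).1.1 (hp _)
  refine ⟨⟨Equiv.ofBijective _ hbij, ?_⟩⟩
  intro z z'
  change B.Adj (β (p z)) (β (p z')) ↔ A.Adj z z'
  rw [← (key (p z) (p z')).2, hp, hp]

/-- constant sequences -/
noncomputable def cst (v : ℕ) : Q ℕ := ((fun _ => v : ℕ → ℕ) : Q ℕ)

theorem cst_injective : Function.Injective cst := by
  intro v w h
  have h' := Germ.coe_eq.1 h
  obtain ⟨i, hi⟩ := h'.exists
  exact hi

theorem tr_cst (G : SimpleGraph ℕ) {n : ℕ} (φ : Fm n) (a : Fin n → ℕ) :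
    Tr (UG fun _ => G) φ (fun j => cst (a j)) ↔ Tr G φ a := by
  have := los n φ (fun _ => G) (fun j => (fun _ => a j : ℕ → ℕ))
  rw [show (fun j => cst (a j)) = fun j => (((fun _ => a j : ℕ → ℕ)) : Q ℕ) from rfl, this]
  exact eventually_const

/-- the operations needed -/
noncomputable def ops (M : SimpleGraph (Q ℕ)) : ∀ i : (Σ n, Fm (n + 1)) ⊕ (ℕ ⊕ ℕ),
    ((match i with
      | Sum.inl p => Fin p.1
      | Sum.inr (Sum.inl n) => Fin 3 ⊕ (Fin n ⊕ Fin n)
      | Sum.inr (Sum.inr n) => Fin 3 ⊕ (Fin n ⊕ Fin n) : Type) → Q ℕ) → Q ℕ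
  | Sum.inl p => fun a => Classical.epsilon fun z => Tr M p.2 (Fin.snoc a z)
  | Sum.inr (Sum.inl n) => fun f => Classical.epsilon fun d =>
      EE M (flip M {s(f (Sum.inl 0), f (Sum.inl 1))})
        (Fin.snoc (fun j => f (Sum.inr (Sum.inl j))) (f (Sum.inl 2)) : Fin (n + 1) → Q ℕ)
        (Fin.snoc (fun j => f (Sum.inr (Sum.inr j))) d)
  | Sum.inr (Sum.inr n) => fun f => Classical.epsilon fun c =>
      EE M (flip M {s(f (Sum.inl 0), f (Sum.inl 1))})
        (Fin.snoc (fun j => f (Sum.inr (Sum.inl j))) c : Fin (n + 1) → Q ℕ)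
        (Fin.snoc (fun j => f (Sum.inr (Sum.inr j))) (f (Sum.inl 2)))

/-- a countable set closed under all witnesses -/
theorem exists_closed (M : SimpleGraph (Q ℕ)) (A0 : Set (Q ℕ)) (h0 : A0.Countable) :
    ∃ N : Set (Q ℕ), A0 ⊆ N ∧ N.Countable ∧
      (∀ n (φ : Fm (n + 1)) (a : Fin n → Q ℕ), (∀ j, a j ∈ N) →
        (∃ z, Tr M φ (Fin.snoc a z)) → ∃ z ∈ N, Tr M φ (Fin.snoc a z)) ∧
      (∀ x ∈ N, ∀ y ∈ N, ∀ n (a b : Fin n → Q ℕ), (∀ j, a j ∈ N) → (∀ j, b j ∈ N) → ∀ c ∈ N,
        (∃ d, EE M (flip M {s(x, y)}) (Fin.snoc a c : Fin (n + 1) → Q ℕ) (Fin.snoc b d)) →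
        ∃ d ∈ N, EE M (flip M {s(x, y)}) (Fin.snoc a c : Fin (n + 1) → Q ℕ) (Fin.snoc b d)) ∧
      (∀ x ∈ N, ∀ y ∈ N, ∀ n (a b : Fin n → Q ℕ), (∀ j, a j ∈ N) → (∀ j, b j ∈ N) → ∀ d ∈ N,
        (∃ c, EE M (flip M {s(x, y)}) (Fin.snoc a c : Fin (n + 1) → Q ℕ) (Fin.snoc b d)) →
        ∃ c ∈ N, EE M (flip M {s(x, y)}) (Fin.snoc a c : Fin (n + 1) → Q ℕ) (Fin.snoc b d)) := by
  obtain ⟨N, h1, h2, h3⟩ := @exists_closure (Q ℕ) ((Σ n, Fm (n + 1)) ⊕ (ℕ ⊕ ℕ)) inferInstance
    (fun i => match i with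
      | Sum.inl p => Fin p.1
      | Sum.inr (Sum.inl n) => Fin 3 ⊕ (Fin n ⊕ Fin n)
      | Sum.inr (Sum.inr n) => Fin 3 ⊕ (Fin n ⊕ Fin n))
    (by
      intro i
      rcases i with p | n | n
      · exact inferInstanceAs (Finite (Fin p.1))
      · exact inferInstanceAs (Finite (Fin 3 ⊕ (Fin n ⊕ Fin n)))
      · exact inferInstanceAs (Finite (Fin 3 ⊕ (Fin n ⊕ Fin n))))
    (ops M) A0 h0
  refine ⟨N, h1, h2, ?_, ?_, ?_⟩
  · intro n φ a ha hz
    exact ⟨_, h3 (Sum.inl ⟨n, φ⟩) a ha, Classical.epsilon_spec hz⟩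
  · intro x hx y hy n a b ha hb c hc hd
    refine ⟨_, h3 (Sum.inr (Sum.inl n)) (Sum.elim ![x, y, c] (Sum.elim a b)) ?_,
      Classical.epsilon_spec hd⟩
    rintro (j | j | j)
    · match j with
      | 0 => exact hx
      | 1 => exact hy
      | 2 => exact hc
    · exact ha j
    · exact hb j
  · intro x hx y hy n a b ha hb c hc hd
    refine ⟨_, h3 (Sum.inr (Sum.inr n)) (Sum.elim ![x, y, c] (Sum.elim a b)) ?_,
      Classical.epsilon_spec hd⟩
    rintro (j | j | j)
    · match j with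
      | 0 => exact hx
      | 1 => exact hy
      | 2 => exact hc
    · exact ha j
    · exact hb j

/-- Tarski's test -/
theorem tr_sub {X : Type} (M : SimpleGraph X) (N : Set X)
    (hN : ∀ n (φ : Fm (n + 1)) (a : Fin n → X), (∀ j, a j ∈ N) →
        (∃ z, Tr M φ (Fin.snoc a z)) → ∃ z ∈ N, Tr M φ (Fin.snoc a z)) :
    ∀ n (φ : Fm n) (a : Fin n → N),
      Tr (M.comap (Subtype.val : N → X)) φ a ↔ Tr M φ (fun j => (a j).1) := by
  refine fm_ind ?_ ?_ ?_ ?_ ?_
  · intro n a
    exact Iff.rfl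
  · intro n i j a
    rw [tr_eq, tr_eq]
    exact Subtype.ext_iff
  · intro n i j a
    rw [tr_adj, tr_adj]
    exact Iff.rfl
  · intro n φ ψ h1 h2 a
    rw [tr_imp, tr_imp, h1, h2]
  · intro n φ h a
    rw [tr_all, tr_all]
    have e : ∀ z : N, (fun j => ((Fin.snoc a z : Fin (n + 1) → N) j).1) =
        (Fin.snoc (fun j => (a j).1) z.1 : Fin (n + 1) → X) := by
      intro z
      funext j
      refine Fin.lastCases ?_ (fun j => ?_) j
      · simp
      · simp
    constructor
    · intro h1 z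
      by_contra h2
      obtain ⟨z', hz', h3⟩ := hN n φ.not (fun j => (a j).1) (fun j => (a j).2) ⟨z, h2⟩
      have h4 := (h _).1 (h1 ⟨z', hz'⟩)
      rw [e] at h4
      exact h3 h4
    · intro h1 z
      rw [h, e]
      exact h1 _

/-- every flip invariant countable graph has a countable finitely stable elementary extension,
realising a given type of the ultrapower -/
theorem exists_stable_extension (G : SimpleGraph ℕ)
    (h : ∀ a b, a ≠ b → EEq (flip G {s(a, b)}) G) (k : ℕ) (t : Fin k → Q ℕ) :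
    ∃ (H : SimpleGraph ℕ) (f : ℕ → ℕ) (s : Fin k → ℕ), FinitelyStable H ∧
      (∀ n (φ : Fm n) (a : Fin n → ℕ), Tr G φ a ↔ Tr H φ (fun j => f (a j))) ∧
      ∀ φ : Fm k, Tr (UG fun _ => G) φ t ↔ Tr H φ s := by
  let M : SimpleGraph (Q ℕ) := UG fun _ => G
  obtain ⟨N, hA, hNc, hTV, hBF1, hBF2⟩ := exists_closed M (Set.range cst ∪ Set.range t)
    ((Set.countable_range _).union (Set.countable_range _))
  have hcN : ∀ v, cst v ∈ N := fun v => hA (Or.inl ⟨v, rfl⟩)
  have htN : ∀ j, t j ∈ N := fun j => hA (Or.inr ⟨j, rfl⟩)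
  have : Countable N := hNc.to_subtype
  have hinf : Infinite N := Infinite.of_injective (fun v : ℕ => (⟨cst v, hcN v⟩ : N))
    (fun v w h => cst_injective (Subtype.ext_iff.1 h))
  obtain ⟨dN⟩ := nonempty_denumerable N
  let NG : SimpleGraph N := M.comap (Subtype.val : N → Q ℕ)
  have hTr := tr_sub M N hTV
  have hMG : EEq M G := eeq_ug (H := G) (fun _ => G) (Eventually.of_forall fun _ => EEq.refl G)
  have hstab : FinitelyStable NG := by
    refine finitelyStable_of_single fun x y hxy => ?_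
    have hxy' : x.1 ≠ y.1 := fun h => hxy (Subtype.ext h)
    have hfl : flip M {s(x.1, y.1)} = UG (fun i => flip G {s(rep x.1 i, rep y.1 i)}) := by
      rw [ug_flip, coe_rep, coe_rep]
    have hne : ∀ᶠ i in U, rep x.1 i ≠ rep y.1 i := by
      refine (ev_not (p := fun i => rep x.1 i = rep y.1 i)).2 fun h => hxy' ?_
      have h' := Germ.coe_eq.2 h
      rwa [coe_rep, coe_rep] at h'
    have hE : EEq (flip M {s(x.1, y.1)}) G := by
      rw [hfl]
      exact eeq_ug (H := G) _ (hne.mono fun i hi => h _ _ hi)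
    have hiso : Nonempty (NG ≃g flip NG {s(x, y)}) := by
      refine iso_of_bf (fun n a b => EE M (flip M {s(x.1, y.1)}) (fun j => (a j).1)
        (fun j => (b j).1)) ?_ ?_ ?_ ?_
      · intro φ
        have key := (hMG.trans hE.symm) φ
        rwa [Subsingleton.elim (@default (Fin 0 → Q ℕ) Unique.instInhabited)
          (fun j => ((default : Fin 0 → N) j).1)] at key
      · intro n a b hab c
        have h1 : ∃ d, EE M (flip M {s(x.1, y.1)})
            (Fin.snoc (fun j => (a j).1) c.1 : Fin (n + 1) → Q ℕ)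
            (Fin.snoc (fun j => (b j).1) d) := by
          rw [hfl] at hab ⊢
          exact ee_extend M _ _ _ hab c.1
        obtain ⟨d, hd, h2⟩ := hBF1 _ x.2 _ y.2 n _ _ (fun j => (a j).2) (fun j => (b j).2) _ c.2 h1
        refine ⟨⟨d, hd⟩, ?_⟩
        have e : ∀ (a : Fin n → N) (z : N), (fun j => ((Fin.snoc a z : Fin (n + 1) → N) j).1) =
            (Fin.snoc (fun j => (a j).1) z.1 : Fin (n + 1) → Q ℕ) := by
          intro a z
          funext j
          refine Fin.lastCases ?_ (fun j => ?_) j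
          · simp
          · simp
        change EE M _ (fun j => ((Fin.snoc a c : Fin (n + 1) → N) j).1)
          (fun j => ((Fin.snoc b (⟨d, hd⟩ : N) : Fin (n + 1) → N) j).1)
        rw [e, e]
        exact h2
      · intro n a b hab d
        have h1 : ∃ c, EE M (flip M {s(x.1, y.1)})
            (Fin.snoc (fun j => (a j).1) c : Fin (n + 1) → Q ℕ)
            (Fin.snoc (fun j => (b j).1) d.1) := by
          obtain ⟨c, hc⟩ := ee_extend (flip M {s(x.1, y.1)}) (fun _ => G) _ _ hab.symm d.1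
          exact ⟨c, hc.symm⟩
        obtain ⟨c, hc, h2⟩ := hBF2 _ x.2 _ y.2 n _ _ (fun j => (a j).2) (fun j => (b j).2) _ d.2 h1
        refine ⟨⟨c, hc⟩, ?_⟩
        have e : ∀ (a : Fin n → N) (z : N), (fun j => ((Fin.snoc a z : Fin (n + 1) → N) j).1) =
            (Fin.snoc (fun j => (a j).1) z.1 : Fin (n + 1) → Q ℕ) := by
          intro a z
          funext j
          refine Fin.lastCases ?_ (fun j => ?_) j
          · simp
          · simp
        change EE M _ (fun j => ((Fin.snoc a (⟨c, hc⟩ : N) : Fin (n + 1) → N) j).1)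
          (fun j => ((Fin.snoc b d : Fin (n + 1) → N) j).1)
        rw [e, e]
        exact h2
      · intro n a b hab i j
        constructor
        · have := hab (fEq i j)
          rw [tr_eq, tr_eq] at this
          rw [Subtype.ext_iff, Subtype.ext_iff]
          exact this
        · have := hab (fAdj i j)
          rw [tr_adj, tr_adj] at this
          change M.Adj (a i).1 (a j).1 ↔ _
          rw [this, flip_adj, flip_adj]
          have e1 : ((b i).1 ≠ (b j).1) ↔ b i ≠ b j := by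
            rw [ne_eq, ne_eq, Subtype.ext_iff]
          have e2 : s((b i).1, (b j).1) ∈ ({s(x.1, y.1)} : Set (Sym2 (Q ℕ))) ↔
              s(b i, b j) ∈ ({s(x, y)} : Set (Sym2 N)) := by
            simp only [Set.mem_singleton_iff, Sym2.eq_iff, Subtype.ext_iff]
          rw [e1, e2]
          exact Iff.rfl
    exact ⟨hiso.some.symm⟩
  let e : ℕ ≃ N := (Denumerable.eqv N).symm
  let H : SimpleGraph ℕ := NG.comap e
  let ι : H ≃g NG := ⟨e, Iff.rfl⟩
  refine ⟨H, fun v => ι.symm ⟨cst v, hcN v⟩, fun j => ι.symm ⟨t j, htN j⟩,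
    hstab.of_iso ι.symm, ?_, ?_⟩
  · intro n φ a
    rw [← tr_cst, ← tr_iso ι.symm φ (fun j => (⟨cst (a j), hcN (a j)⟩ : N)), hTr]
  · intro φ
    rw [← tr_iso ι.symm φ (fun j => (⟨t j, htN j⟩ : N)), hTr]

end Pool.Agent.FinStab.FO
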