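import Pool.Agent.Helper32.FS.FO3

/-!
# Coding sets of natural numbers by tuples
-/

open FirstOrder FirstOrder.Language Filter

namespace Pool.Agent.FinStab.FO

/-- relations defined by a first-order formula, uniformly in all graphs -/
def Dfn (n : ℕ) (P : ∀ V : Type, SimpleGraph V → (Fin n → V) → Prop) : Prop :=
  ∃ φ : Fm n, ∀ (V : Type) (G : SimpleGraph V) (x : Fin n → V), Tr G φ x ↔ P V G x

theorem dfn_eq {n : ℕ} (i j : Fin n) : Dfn n (fun _ _ x => x i = x j) :=
  ⟨fEq i j, fun _ _ _ => Iff.rfl⟩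

theorem dfn_adj {n : ℕ} (i j : Fin n) : Dfn n (fun _ G x => G.Adj (x i) (x j)) :=
  ⟨fAdj i j, fun _ _ _ => Iff.rfl⟩

theorem dfn_const {n : ℕ} (p : Prop) : Dfn n (fun _ _ _ => p) := by
  by_cases hp : p
  · exact ⟨BoundedFormula.falsum.imp BoundedFormula.falsum, fun V G x => by
      rw [tr_imp, tr_falsum]; exact ⟨fun _ => hp, fun _ h => h⟩⟩
  · exact ⟨BoundedFormula.falsum, fun V G x => by
      rw [tr_falsum]; exact ⟨False.elim, hp⟩⟩

theorem Dfn.not {n : ℕ} {P : ∀ V : Type, SimpleGraph V → (Fin n → V) → Prop} (h : Dfn n P) :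
    Dfn n (fun V G x => ¬ P V G x) := by
  obtain ⟨φ, hφ⟩ := h
  exact ⟨φ.not, fun V G x => by rw [tr_not, hφ]⟩

theorem Dfn.and {n : ℕ} {P P' : ∀ V : Type, SimpleGraph V → (Fin n → V) → Prop} (h : Dfn n P)
    (h' : Dfn n P') : Dfn n (fun V G x => P V G x ∧ P' V G x) := by
  obtain ⟨φ, hφ⟩ := h
  obtain ⟨ψ, hψ⟩ := h'
  exact ⟨φ ⊓ ψ, fun V G x => by rw [tr_and, hφ, hψ]⟩

theorem Dfn.imp {n : ℕ} {P P' : ∀ V : Type, SimpleGraph V → (Fin n → V) → Prop} (h : Dfn n P)
    (h' : Dfn n P') : Dfn n (fun V G x => P V G x → P' V G x) := by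
  obtain ⟨φ, hφ⟩ := h
  obtain ⟨ψ, hψ⟩ := h'
  exact ⟨φ.imp ψ, fun V G x => by rw [tr_imp, hφ, hψ]⟩

theorem Dfn.iff {n : ℕ} {P P' : ∀ V : Type, SimpleGraph V → (Fin n → V) → Prop} (h : Dfn n P)
    (h' : Dfn n P') : Dfn n (fun V G x => (P V G x ↔ P' V G x)) := by
  obtain ⟨φ, hφ⟩ := h
  obtain ⟨ψ, hψ⟩ := h'
  exact ⟨φ.iff ψ, fun V G x => by rw [tr_iff, hφ, hψ]⟩

theorem Dfn.ex {n : ℕ} {P : ∀ V : Type, SimpleGraph V → (Fin (n + 1) → V) → Prop}
    (h : Dfn (n + 1) P) : Dfn n (fun V G x => ∃ z, P V G (Fin.snoc x z)) := by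
  obtain ⟨φ, hφ⟩ := h
  exact ⟨φ.ex, fun V G x => by rw [tr_ex]; exact exists_congr fun z => hφ _ _ _⟩

theorem Dfn.all {n : ℕ} {P : ∀ V : Type, SimpleGraph V → (Fin (n + 1) → V) → Prop}
    (h : Dfn (n + 1) P) : Dfn n (fun V G x => ∀ z, P V G (Fin.snoc x z)) := by
  obtain ⟨φ, hφ⟩ := h
  exact ⟨φ.all, fun V G x => by rw [tr_all]; exact forall_congr' fun z => hφ _ _ _⟩

theorem dfn_forall_fin {n : ℕ} : ∀ (m : ℕ)
    (P : Fin m → ∀ V : Type, SimpleGraph V → (Fin n → V) → Prop),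
    (∀ i, Dfn n (P i)) → Dfn n (fun V G x => ∀ i, P i V G x) := by
  intro m
  induction m with
  | zero =>
    intro P _
    obtain ⟨φ, hφ⟩ := dfn_const (n := n) True
    exact ⟨φ, fun V G x => (hφ V G x).trans ⟨fun _ i => i.elim0, fun _ => trivial⟩⟩
  | succ m ih =>
    intro P h
    obtain ⟨φ, hφ⟩ := (ih (fun i => P i.castSucc) (fun i => h _)).and (h (Fin.last m))
    refine ⟨φ, fun V G x => (hφ V G x).trans ?_⟩
    exact (Fin.forall_fin_succ' (P := fun i => P i V G x)).symm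

theorem dfn_exists_fin {n : ℕ} (m : ℕ)
    (P : Fin m → ∀ V : Type, SimpleGraph V → (Fin n → V) → Prop)
    (h : ∀ i, Dfn n (P i)) : Dfn n (fun V G x => ∃ i, P i V G x) := by
  obtain ⟨φ, hφ⟩ := (dfn_forall_fin m (fun i V G x => ¬ P i V G x) (fun i => (h i).not)).not
  refine ⟨φ, fun V G x => (hφ V G x).trans ?_⟩
  push Not
  exact Iff.rfl

theorem dfn_exs {n : ℕ} : ∀ (m : ℕ) (P : ∀ V : Type, SimpleGraph V → (Fin (n + m) → V) → Prop),
    Dfn (n + m) P → Dfn n (fun V G x => ∃ y : Fin m → V, P V G (Fin.append x y)) := by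
  intro m
  induction m with
  | zero =>
    intro P h
    obtain ⟨φ, hφ⟩ := h
    refine ⟨φ, fun V G x => (hφ V G x).trans ?_⟩
    constructor
    · intro h
      refine ⟨fun i => i.elim0, ?_⟩
      have : Fin.append x (fun i : Fin 0 => (i.elim0 : V)) = x := by
        funext i
        exact Fin.append_left x _ i
      rw [this]
      exact h
    · rintro ⟨y, hy⟩
      have : Fin.append x y = x := by
        funext i
        exact Fin.append_left x _ i
      rw [this] at hy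
      exact hy
  | succ m ih =>
    intro P h
    obtain ⟨φ, hφ⟩ := ih _ (Dfn.ex (n := n + m) (P := P) h)
    refine ⟨φ, fun V G x => (hφ V G x).trans ?_⟩
    constructor
    · rintro ⟨y, z, hz⟩
      refine ⟨Fin.snoc y z, ?_⟩
      rw [Fin.append_snoc]
      exact hz
    · rintro ⟨y, hy⟩
      refine ⟨Fin.init y, y (Fin.last m), ?_⟩
      rw [← Fin.append_snoc, Fin.snoc_init_self]
      exact hy

/-- `z` is outside the tuple `t` and adjacent to exactly those entries prescribed by `σ` -/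
def InW {k : ℕ} (σ : Fin k → Bool) {V : Type} (G : SimpleGraph V) (t : Fin k → V) (z : V) : Prop :=
  ∀ i, z ≠ t i ∧ (G.Adj z (t i) ↔ σ i = true)

/-- some vertex of the witness set has exactly `m` neighbours there -/
def Theta {k : ℕ} (σ : Fin k → Bool) (m : ℕ) {V : Type} (G : SimpleGraph V) (t : Fin k → V) :
    Prop :=
  ∃ z, InW σ G t z ∧ ∃ y : Fin m → V, (∀ i, InW σ G t (y i) ∧ G.Adj z (y i)) ∧
    (∀ i j, i ≠ j → y i ≠ y j) ∧ ∀ w, InW σ G t w → G.Adj z w → ∃ i, w = y i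

theorem dfn_inW {k n : ℕ} (σ : Fin k → Bool) (f : Fin k → Fin n) (a : Fin n) :
    Dfn n (fun _ G x => InW σ G (fun i => x (f i)) (x a)) :=
  dfn_forall_fin k _ fun i => ((dfn_eq a (f i)).not.and ((dfn_adj a (f i)).iff (dfn_const _)))

theorem dfn_theta {k : ℕ} (σ : Fin k → Bool) (m : ℕ) : Dfn k (fun _ G x => Theta σ m G x) := by
  -- variables: t, z, y, w
  have h1 : Dfn (k + 1 + m + 1) (fun _ G x =>
      InW σ G (fun i => x (Fin.castSucc (Fin.castAdd m (Fin.castSucc i)))) (x (Fin.last _)) →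
      G.Adj (x (Fin.castSucc (Fin.castAdd m (Fin.last k)))) (x (Fin.last _)) →
      ∃ i : Fin m, x (Fin.last _) = x (Fin.castSucc (Fin.natAdd (k + 1) i))) :=
    (dfn_inW σ _ _).imp ((dfn_adj _ _).imp (dfn_exists_fin m _ fun i => dfn_eq _ _))
  have h2 : Dfn (k + 1 + m) (fun _ G x =>
      (∀ i : Fin m, InW σ G (fun i => x (Fin.castAdd m (Fin.castSucc i)))
        (x (Fin.natAdd (k + 1) i)) ∧
        G.Adj (x (Fin.castAdd m (Fin.last k))) (x (Fin.natAdd (k + 1) i))) ∧
      (∀ i j : Fin m, i ≠ j → x (Fin.natAdd (k + 1) i) ≠ x (Fin.natAdd (k + 1) j)) ∧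
      ∀ w, (InW σ G (fun i => (Fin.snoc x w : Fin (k + 1 + m + 1) → _)
          (Fin.castSucc (Fin.castAdd m (Fin.castSucc i))))
          ((Fin.snoc x w : Fin (k + 1 + m + 1) → _) (Fin.last _)) →
        G.Adj ((Fin.snoc x w : Fin (k + 1 + m + 1) → _)
          (Fin.castSucc (Fin.castAdd m (Fin.last k))))
          ((Fin.snoc x w : Fin (k + 1 + m + 1) → _) (Fin.last _)) →
        ∃ i : Fin m, (Fin.snoc x w : Fin (k + 1 + m + 1) → _) (Fin.last _) =
          (Fin.snoc x w : Fin (k + 1 + m + 1) → _) (Fin.castSucc (Fin.natAdd (k + 1) i)))) :=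
    (dfn_forall_fin m _ fun i => (dfn_inW σ _ _).and (dfn_adj _ _)).and
      ((dfn_forall_fin m _ fun i => dfn_forall_fin m _ fun j =>
        (dfn_const _).imp (dfn_eq _ _).not).and h1.all)
  obtain ⟨φ, hφ⟩ := (((dfn_inW σ (Fin.castSucc : Fin k → Fin (k + 1)) (Fin.last k)).and
    (dfn_exs m _ h2)).ex)
  refine ⟨φ, fun V G t => (hφ V G t).trans ?_⟩
  simp only [Fin.snoc_castSucc, Fin.snoc_last, Fin.append_left, Fin.append_right]
  exact Iff.rfl

/-- existential closure -/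
theorem tr_exs {V : Type} (G : SimpleGraph V) {k : ℕ} (φ : Fm k) :
    Tr G (φ.exs : Fm 0) default ↔ ∃ t : Fin k → V, Tr G φ t := by
  let _ := G.structure
  exact BoundedFormula.realize_exs

/-- the extension property of the Rado graph -/
def HasExt {V : Type} (G : SimpleGraph V) : Prop :=
  ∀ A B : Finset V, Disjoint A B → ∃ z, z ∉ A ∧ z ∉ B ∧ (∀ a ∈ A, G.Adj z a) ∧
    ∀ b ∈ B, ¬ G.Adj z b

theorem hasExt_iff {V : Type} (G : SimpleGraph V) :
    HasExt G ↔ ∀ k (σ : Fin k → Bool) (t : Fin k → V), (∀ i j, i ≠ j → t i ≠ t j) →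
      ∃ z, InW σ G t z := by
  classical
  constructor
  · intro h k σ t ht
    obtain ⟨z, h1, h2, h3, h4⟩ := h ((Finset.univ.filter fun i => σ i = true).image t)
      ((Finset.univ.filter fun i => ¬ σ i = true).image t) (by
        rw [Finset.disjoint_left]
        intro a ha hb
        simp only [Finset.mem_image, Finset.mem_filter, Finset.mem_univ, true_and] at ha hb
        obtain ⟨i, hi, rfl⟩ := ha
        obtain ⟨j, hj, hij⟩ := hb
        have : i ≠ j := by
          rintro rfl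
          exact hj hi
        exact ht _ _ this hij.symm)
    refine ⟨z, fun i => ?_⟩
    by_cases hi : σ i = true
    · have hm : t i ∈ (Finset.univ.filter fun i => σ i = true).image t :=
        Finset.mem_image_of_mem t (by simp [hi])
      exact ⟨fun h => h1 (h ▸ hm), ⟨fun _ => hi, fun _ => h3 _ hm⟩⟩
    · have hm : t i ∈ (Finset.univ.filter fun i => ¬ σ i = true).image t :=
        Finset.mem_image_of_mem t (by simp [hi])
      exact ⟨fun h => h2 (h ▸ hm), ⟨fun h => (h4 _ hm h).elim, fun h => (hi h).elim⟩⟩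
  · intro h A B hAB
    let e := (A ∪ B).equivFin.symm
    obtain ⟨z, hz⟩ := h (A ∪ B).card (fun i => decide ((e i).1 ∈ A)) (fun i => (e i).1)
      (fun i j hij h => hij (e.injective (Subtype.ext h)))
    have key : ∀ v ∈ A ∪ B, z ≠ v ∧ (G.Adj z v ↔ v ∈ A) := by
      intro v hv
      have := hz (e.symm ⟨v, hv⟩)
      simpa using this
    refine ⟨z, ?_, ?_, ?_, ?_⟩
    · intro hA
      exact (key z (Finset.mem_union_left _ hA)).1 rfl
    · intro hB
      exact (key z (Finset.mem_union_right _ hB)).1 rfl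
    · intro a ha
      exact (key a (Finset.mem_union_left _ ha)).2.2 ha
    · intro b hb h'
      exact (Finset.disjoint_left.1 hAB) ((key b (Finset.mem_union_right _ hb)).2.1 h') hb

theorem hasExt_of_eeq {V W : Type} {G : SimpleGraph V} {H : SimpleGraph W} (h : EEq G H)
    (hG : HasExt G) : HasExt H := by
  rw [hasExt_iff] at hG ⊢
  intro k σ t ht
  by_contra hc
  have h1 : Dfn (k + 1) (fun _ G x =>
      InW σ G (fun i => x (Fin.castSucc i)) (x (Fin.last k))) := dfn_inW σ _ _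
  have h2 : Dfn k (fun _ _ x => ∀ i j : Fin k, i ≠ j → x i ≠ x j) :=
    dfn_forall_fin k _ fun i => dfn_forall_fin k _ fun j => (dfn_const _).imp (dfn_eq _ _).not
  obtain ⟨φ, hφ⟩ := h2.and h1.ex.not
  have h3 : Tr H (φ.exs : Fm 0) default := by
    rw [tr_exs]
    refine ⟨t, (hφ _ _ _).2 ⟨ht, ?_⟩⟩
    simpa only [Fin.snoc_castSucc, Fin.snoc_last] using hc
  have h4 := (h _).2 h3
  rw [tr_exs] at h4
  obtain ⟨s, hs⟩ := h4
  obtain ⟨h5, h6⟩ := (hφ _ _ _).1 hs
  simp only [Fin.snoc_castSucc, Fin.snoc_last] at h6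
  exact h6 (hG k σ s h5)

/-- uniqueness of the Rado graph -/
theorem iso_of_hasExt {G H : SimpleGraph ℕ} (hG : HasExt G) (hH : HasExt H) :
    Nonempty (G ≃g H) := by
  classical
  have step : ∀ {A B : SimpleGraph ℕ}, HasExt B → ∀ n (a b : Fin n → ℕ),
      (∀ i j, (a i = a j ↔ b i = b j) ∧ (A.Adj (a i) (a j) ↔ B.Adj (b i) (b j))) → ∀ c, ∃ d,
      ∀ i j, ((Fin.snoc a c : Fin (n + 1) → ℕ) i = (Fin.snoc a c : Fin (n + 1) → ℕ) j ↔
        (Fin.snoc b d : Fin (n + 1) → ℕ) i = (Fin.snoc b d : Fin (n + 1) → ℕ) j) ∧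
        (A.Adj ((Fin.snoc a c : Fin (n + 1) → ℕ) i) ((Fin.snoc a c : Fin (n + 1) → ℕ) j) ↔
        B.Adj ((Fin.snoc b d : Fin (n + 1) → ℕ) i) ((Fin.snoc b d : Fin (n + 1) → ℕ) j)) := by
    intro A B hB n a b hab c
    have hd : ∃ d, ∀ i, (c = a i ↔ d = b i) ∧ (A.Adj c (a i) ↔ B.Adj d (b i)) := by
      by_cases hc : ∃ i, c = a i
      · obtain ⟨i, rfl⟩ := hc
        exact ⟨b i, fun j => hab i j⟩
      · push Not at hc
        obtain ⟨z, h1, h2, h3, h4⟩ := hB
          ((Finset.univ.filter fun i => A.Adj c (a i)).image b)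
          ((Finset.univ.filter fun i => ¬ A.Adj c (a i)).image b) (by
            rw [Finset.disjoint_left]
            intro v hv hw
            simp only [Finset.mem_image, Finset.mem_filter, Finset.mem_univ, true_and] at hv hw
            obtain ⟨i, hi, rfl⟩ := hv
            obtain ⟨j, hj, hij⟩ := hw
            rw [((hab j i).1).2 hij] at hj
            exact hj hi)
        refine ⟨z, fun i => ⟨⟨fun h => (hc i h).elim, fun h => ?_⟩, ?_⟩⟩
        · by_cases hi : A.Adj c (a i)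
          · exact (h1 (h ▸ Finset.mem_image_of_mem b (by simp [hi]))).elim
          · exact (h2 (h ▸ Finset.mem_image_of_mem b (by simp [hi]))).elim
        · by_cases hi : A.Adj c (a i)
          · exact ⟨fun _ => h3 _ (Finset.mem_image_of_mem b (by simp [hi])), fun _ => hi⟩
          · exact ⟨fun h => (hi h).elim,
              fun h => (h4 _ (Finset.mem_image_of_mem b (by simp [hi])) h).elim⟩
    obtain ⟨d, hd⟩ := hd
    refine ⟨d, fun i j => ?_⟩
    refine Fin.lastCases ?_ (fun i => ?_) i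
    · refine Fin.lastCases ?_ (fun j => ?_) j
      · simp
      · simpa using hd j
    · refine Fin.lastCases ?_ (fun j => ?_) j
      · simp only [Fin.snoc_castSucc, Fin.snoc_last]
        refine ⟨?_, ?_⟩
        · rw [eq_comm, (hd i).1, eq_comm]
        · rw [A.adj_comm, (hd i).2, B.adj_comm]
      · simpa using hab i j
  refine iso_of_bf (fun n a b => ∀ i j, (a i = a j ↔ b i = b j) ∧
    (G.Adj (a i) (a j) ↔ H.Adj (b i) (b j))) ?_ ?_ ?_ ?_
  · exact fun i => i.elim0
  · intro n a b hab c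
    exact step hH n a b hab c
  · intro n a b hab d
    obtain ⟨c, hc⟩ := step (A := H) (B := G) hG n b a
      (fun i j => ⟨(hab i j).1.symm, (hab i j).2.symm⟩) d
    exact ⟨c, fun i j => ⟨(hc i j).1.symm, (hc i j).2.symm⟩⟩
  · intro n a b hab i j
    exact hab i j

end Pool.Agent.FinStab.FO
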