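import Pool.Agent.Helper32.FS.FO4

/-!
# Counting the finitely stable graphs with a given first-order theory
-/

open FirstOrder FirstOrder.Language Filter

namespace Pool.Agent.FinStab.FO

/-- if some witness set is empty then every finite pattern is coded by a tuple -/
theorem exists_code (G : SimpleGraph ℕ) (h : ∀ a b, a ≠ b → EEq (flip G {s(a, b)}) G)
    {k : ℕ} (σ : Fin k → Bool) (t0 : Fin k → ℕ) (ht0 : ∀ i j, i ≠ j → t0 i ≠ t0 j)
    (hno : ¬ ∃ z, InW σ G t0 z) (S : Set ℕ) (N : ℕ) :
    ∃ t : Fin k → ℕ, ∀ m < N, (Theta σ m G t ↔ m ∈ S) := by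
  classical
  have hinf : Infinite ((Set.range t0)ᶜ : Set ℕ) :=
    (Set.Finite.infinite_compl (Set.finite_range t0)).to_subtype
  obtain ⟨den⟩ := nonempty_denumerable ((Set.range t0)ᶜ : Set ℕ)
  let e : ℕ × ℕ ≃ ((Set.range t0)ᶜ : Set ℕ) := Denumerable.equiv₂ _ _
  let f : ℕ × ℕ → ℕ := fun p => (e p).1
  have hf : Function.Injective f := fun p q hpq => e.injective (Subtype.ext hpq)
  have hft : ∀ p i, f p ≠ t0 i := fun p i hpi => (e p).2 ⟨i, hpi.symm⟩
  let D : Set ℕ := f '' {p | p.1 < N ∧ p.1 ∈ S ∧ p.2 ≤ p.1}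
  have hDfin : D.Finite := by
    refine Set.Finite.image f (((Set.finite_Iio N).prod (Set.finite_Iio N)).subset ?_)
    rintro ⟨a, b⟩ ⟨h1, _, h3⟩
    exact ⟨h1, lt_of_le_of_lt h3 h1⟩
  have hDt : ∀ u ∈ D, ∀ i, u ≠ t0 i := by
    rintro u ⟨p, _, rfl⟩ i
    exact hft p i
  let same : ℕ → ℕ → Prop := fun u v => ∃ p q, u = f p ∧ v = f q ∧ p.1 = q.1
  have hsame : ∀ u v, same u v ↔ same v u := by
    intro u v
    constructor
    · rintro ⟨p, q, h1, h2, h3⟩
      exact ⟨q, p, h2, h1, h3.symm⟩
    · rintro ⟨p, q, h1, h2, h3⟩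
      exact ⟨q, p, h2, h1, h3.symm⟩
  let F : Set (Sym2 ℕ) := {d | ∃ u v, d = s(u, v) ∧ u ∈ D ∧
    ((v ∈ D ∧ (G.Adj u v ↔ ¬ same u v)) ∨ ∃ i, v = t0 i ∧ (G.Adj u v ↔ ¬ σ i = true))}
  have hFfin : F.Finite := by
    refine ((hDfin.prod (hDfin.union (Set.finite_range t0))).image
      (fun p : ℕ × ℕ => s(p.1, p.2))).subset ?_
    rintro d ⟨u, v, rfl, hu, hv⟩
    refine ⟨(u, v), ⟨hu, ?_⟩, rfl⟩
    rcases hv with ⟨hv, _⟩ | ⟨i, hv, _⟩
    · exact Or.inl hv
    · exact Or.inr ⟨i, hv.symm⟩
  have m1 : ∀ u ∈ D, ∀ v ∈ D, (s(u, v) ∈ F ↔ (G.Adj u v ↔ ¬ same u v)) := by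
    intro u hu v hv
    constructor
    · rintro ⟨u', v', h1, h2, h3⟩
      rw [Sym2.eq_iff] at h1
      rcases h1 with ⟨rfl, rfl⟩ | ⟨rfl, rfl⟩
      · rcases h3 with ⟨_, h3⟩ | ⟨i, h3, _⟩
        · exact h3
        · exact (hDt _ hv i h3).elim
      · rcases h3 with ⟨_, h3⟩ | ⟨i, h3, _⟩
        · rw [G.adj_comm, hsame]; exact h3
        · exact (hDt _ hu i h3).elim
    · intro h1
      exact ⟨u, v, rfl, hu, Or.inl ⟨hv, h1⟩⟩
  have a1 : ∀ u ∈ D, ∀ v ∈ D, ((flip G F).Adj u v ↔ u ≠ v ∧ same u v) := by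
    intro u hu v hv
    rw [flip_adj, m1 u hu v hv]
    by_cases c1 : G.Adj u v <;> by_cases c2 : same u v <;> simp [c1, c2]
  · have a2 : ∀ u ∈ D, ∀ i, ((flip G F).Adj u (t0 i) ↔ σ i = true) := by
      intro u hu i
      have hm : s(u, t0 i) ∈ F ↔ (G.Adj u (t0 i) ↔ ¬ σ i = true) := by
        constructor
        · rintro ⟨u', v', h1, h2, h3⟩
          rw [Sym2.eq_iff] at h1
          rcases h1 with ⟨rfl, rfl⟩ | ⟨rfl, rfl⟩
          · rcases h3 with ⟨h3, _⟩ | ⟨j, h3, h4⟩
            · exact (hDt _ h3 i rfl).elim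
            · have hij : i = j := by
                by_contra hne
                exact ht0 i j hne h3
              rw [hij]
              rw [hij] at h4
              exact h4
          · exact (hDt _ h2 i rfl).elim
        · intro h1
          exact ⟨u, t0 i, rfl, hu, Or.inr ⟨i, rfl, h1⟩⟩
      rw [flip_adj, hm]
      have := hDt u hu i
      tauto
    have a3 : ∀ u, u ∉ D → ∀ i, u ≠ t0 i → ((flip G F).Adj u (t0 i) ↔ G.Adj u (t0 i)) := by
      intro u hu i hui
      have hm : s(u, t0 i) ∉ F := by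
        rintro ⟨u', v', h1, h2, _⟩
        rw [Sym2.eq_iff] at h1
        rcases h1 with ⟨rfl, rfl⟩ | ⟨rfl, rfl⟩
        · exact hu h2
        · exact hDt _ h2 i rfl
      rw [flip_adj]
      tauto
    have hW : ∀ z, InW σ (flip G F) t0 z ↔ z ∈ D := by
      intro z
      constructor
      · intro hz
        by_contra hzD
        refine hno ⟨z, fun i => ⟨(hz i).1, ?_⟩⟩
        rw [← a3 z hzD i (hz i).1]
        exact (hz i).2
      · intro hz i
        exact ⟨hDt z hz i, a2 z hz i⟩
    have hT : ∀ m < N, (Theta σ m (flip G F) t0 ↔ m ∈ S) := by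
      intro m hm
      constructor
      · rintro ⟨z, hz, y, hy1, hy2, hy3⟩
        rw [hW] at hz
        obtain ⟨⟨n, i⟩, ⟨hn1, hn2, hn3⟩, rfl⟩ := hz
        have hzD : f (n, i) ∈ D := ⟨(n, i), ⟨hn1, hn2, hn3⟩, rfl⟩
        have e1 : Finset.univ.image y = ((Finset.range (n + 1)).erase i).image
            (fun j => f (n, j)) := by
          ext w
          simp only [Finset.mem_image, Finset.mem_univ, true_and, Finset.mem_erase,
            Finset.mem_range]
          constructor
          · rintro ⟨j, rfl⟩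
            obtain ⟨h1, h2⟩ := hy1 j
            rw [hW] at h1
            rw [a1 _ hzD _ h1] at h2
            obtain ⟨h3, p, q, hp, hq, hpq⟩ := h2
            obtain ⟨⟨n', j'⟩, ⟨h4, h5, h6⟩, h7⟩ := h1
            rw [hq] at h7
            have h8 := hf h7
            have h9 := hf hp
            subst h8
            subst h9
            have h10 : n = n' := hpq
            subst h10
            refine ⟨j', ⟨?_, ?_⟩, hq.symm⟩
            · rintro rfl
              exact h3 hq.symm
            · exact Nat.lt_succ_of_le h6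
          · rintro ⟨j, ⟨h1, h2⟩, rfl⟩
            have hjD : f (n, j) ∈ D := ⟨(n, j), ⟨hn1, hn2, Nat.le_of_lt_succ h2⟩, rfl⟩
            obtain ⟨i', hi'⟩ := hy3 (f (n, j)) ((hW _).2 hjD) (by
              rw [a1 _ hzD _ hjD]
              refine ⟨fun h => h1 ?_, (n, i), (n, j), rfl, rfl, rfl⟩
              have := hf h
              simpa using this.symm)
            exact ⟨i', hi'.symm⟩
        have c1 : (Finset.univ.image y).card = m := by
          rw [Finset.card_image_of_injective _ (fun a b hab => by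
            by_contra hne
            exact hy2 a b hne hab)]
          simp
        have c2 : (((Finset.range (n + 1)).erase i).image (fun j => f (n, j))).card = n := by
          rw [Finset.card_image_of_injective _ (fun a b hab => by
            have := hf hab
            simpa using this), Finset.card_erase_of_mem (Finset.mem_range.2
              (Nat.lt_succ_of_le hn3)), Finset.card_range]
          rfl
        rw [e1, c2] at c1
        rw [← c1]
        exact hn2
      · intro hmS
        have hD' : ∀ j, j ≤ m → f (m, j) ∈ D := fun j hj => ⟨(m, j), ⟨hm, hmS, hj⟩, rfl⟩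
        refine ⟨f (m, 0), (hW _).2 (hD' 0 (Nat.zero_le _)), fun i => f (m, i.1 + 1), ?_, ?_, ?_⟩
        · intro i
          have hi : i.1 + 1 ≤ m := i.2
          refine ⟨(hW _).2 (hD' _ hi), (a1 _ (hD' 0 (Nat.zero_le _)) _ (hD' _ hi)).2
            ⟨fun h => ?_, (m, 0), (m, i.1 + 1), rfl, rfl, rfl⟩⟩
          have := hf h
          simp at this
        · intro i j hij h
          have := hf h
          simp only [Prod.mk.injEq, true_and, Nat.add_right_cancel_iff] at this
          exact hij (Fin.ext this)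
        · intro w hw hadj
          rw [hW] at hw
          rw [a1 _ (hD' 0 (Nat.zero_le _)) _ hw] at hadj
          obtain ⟨h3, p, q, hp, hq, hpq⟩ := hadj
          obtain ⟨⟨n', j'⟩, ⟨h4, h5, h6⟩, h7⟩ := hw
          rw [hq] at h7
          have h8 := hf h7
          have h9 := hf hp
          subst h8
          subst h9
          have h10 : m = n' := hpq
          subst h10
          have h11 : j' ≠ 0 := by
            rintro rfl
            exact h3 hq.symm
          refine ⟨⟨j' - 1, ?_⟩, ?_⟩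
          · have h6' : j' ≤ m := h6
            omega
          · rw [hq]
            have : j' - 1 + 1 = j' := by omega
            change f (m, j') = f (m, j' - 1 + 1)
            rw [this]
    obtain ⟨φ, hφ⟩ := dfn_forall_fin (n := k) N
      (fun m _ G t => (Theta σ m.1 G t ↔ m.1 ∈ S)) (fun m => (dfn_theta σ m.1).iff (dfn_const _))
    have h1 : Tr (flip G F) (φ.exs : Fm 0) (@default (Fin 0 → ℕ) Unique.instInhabited) := by
      rw [tr_exs]
      exact ⟨t0, (hφ _ _ _).2 fun m => hT m.1 m.2⟩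
    have h2 := (eeq_flip_finite h hFfin _).1 h1
    rw [tr_exs] at h2
    obtain ⟨t, ht⟩ := h2
    exact ⟨t, fun m hm => (hφ _ _ _).1 ht ⟨m, hm⟩⟩

end Pool.Agent.FinStab.FO
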