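import Pool.Agent.Helper32.FS.FO5

/-!
# First-order theories of finitely stable graphs
-/

open FirstOrder FirstOrder.Language Filter Cardinal

namespace Pool.Agent.FinStab.FO

/-- the two graphs satisfy the same first-order sentences of the language of graphs -/
def SameTheory {V W : Type} (G : SimpleGraph V) (H : SimpleGraph W) : Prop :=
  @ElementarilyEquivalent Language.graph V W G.structure H.structure

theorem sameTheory_iff {V W : Type} (G : SimpleGraph V) (H : SimpleGraph W) :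
    SameTheory G H ↔ EEq G H := by
  let _ := G.structure
  let _ := H.structure
  exact elementarilyEquivalent_iff

/-- the extension property is kept under changes -/
theorem hasExt_flip {V : Type} {G : SimpleGraph V} (hG : HasExt G) (a b : V) :
    HasExt (flip G {s(a, b)}) := by
  classical
  intro A B hAB
  obtain ⟨z, h1, h2, h3, h4⟩ := hG (A ∪ (({a, b} : Finset V) \ B)) B (by
    rw [Finset.disjoint_union_left]
    exact ⟨hAB, Finset.sdiff_disjoint⟩)
  rw [Finset.mem_union, not_or] at h1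
  have hza : z ≠ a := by
    rintro rfl
    exact h1.2 (Finset.mem_sdiff.2 ⟨by simp, h2⟩)
  have hzb : z ≠ b := by
    rintro rfl
    exact h1.2 (Finset.mem_sdiff.2 ⟨by simp, h2⟩)
  have key : ∀ u, z ≠ u → ((flip G {s(a, b)}).Adj z u ↔ G.Adj z u) := by
    intro u hu
    have : s(z, u) ∉ ({s(a, b)} : Set (Sym2 V)) := by
      rw [Set.mem_singleton_iff, Sym2.eq_iff]
      rintro (⟨h, _⟩ | ⟨h, _⟩)
      · exact hza h
      · exact hzb h
    rw [flip_adj]
    tauto
  refine ⟨z, h1.1, h2, ?_, ?_⟩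
  · intro u hu
    refine (key u ?_).2 (h3 u (Finset.mem_union_left _ hu))
    rintro rfl
    exact h1.1 hu
  · intro u hu h
    refine h4 u hu ((key u ?_).1 h)
    rintro rfl
    exact h2 hu

theorem finitelyStable_of_hasExt {G : SimpleGraph ℕ} (hG : HasExt G) : FinitelyStable G :=
  finitelyStable_of_single fun a b _ => iso_of_hasExt (hasExt_flip hG a b) hG

theorem eeq_of_elementary {G H : SimpleGraph ℕ} {f : ℕ → ℕ}
    (hf : ∀ n (φ : Fm n) (a : Fin n → ℕ), Tr G φ a ↔ Tr H φ (fun j => f (a j))) : EEq H G := by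
  intro φ
  have := hf 0 φ (@default (Fin 0 → ℕ) Unique.instInhabited)
  rw [Subsingleton.elim (fun j => f ((@default (Fin 0 → ℕ) Unique.instInhabited) j))
    (@default (Fin 0 → ℕ) Unique.instInhabited)] at this
  exact this.symm

theorem elementaryEmbedding {G H : SimpleGraph ℕ} {f : ℕ → ℕ}
    (hf : ∀ n (φ : Fm n) (a : Fin n → ℕ), Tr G φ a ↔ Tr H φ (fun j => f (a j))) :
    Nonempty (@ElementaryEmbedding Language.graph ℕ ℕ G.structure H.structure) := by
  refine ⟨@ElementaryEmbedding.mk Language.graph ℕ ℕ G.structure H.structure f ?_⟩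
  intro n φ x
  have h1 := hf (n + 0) (BoundedFormula.relabel (Sum.inr : Fin n → Empty ⊕ Fin n) φ) x
  unfold Tr at h1
  rw [@BoundedFormula.realize_relabel _ _ G.structure, @BoundedFormula.realize_relabel _ _
    H.structure] at h1
  rw [Sum.elim_comp_inr, Sum.elim_comp_inr] at h1
  unfold Formula.Realize
  rw [Subsingleton.elim (x ∘ Fin.natAdd n) (@default (Fin 0 → ℕ) Unique.instInhabited),
    Subsingleton.elim ((fun j : Fin (n + 0) => f (x j)) ∘ Fin.natAdd n)
      (@default (Fin 0 → ℕ) Unique.instInhabited)] at h1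
  exact h1.symm

/-- a function with countable fibres on the subsets of `ℕ` is injective on a set of the size
of the continuum -/
theorem exists_choice {β : Type} (q : Set ℕ → β) (hq : ∀ r, {T | q T = r}.Countable) :
    ∃ g : Set ℕ → Set ℕ, ∀ S T, S ≠ T → q (g S) ≠ q (g T) := by
  have h1 : ∀ r, ∃ i : Set ℕ → ℕ, Set.InjOn i {T | q T = r} :=
    fun r => Set.countable_iff_exists_injOn.1 (hq r)
  choose i hi using h1
  have h2 : #(Set ℕ) ≤ #(Set.range q) * ℵ₀ := by
    rw [← mk_nat, mul_def]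
    refine mk_le_of_injective (f := fun S => ((⟨q S, S, rfl⟩ : Set.range q), i (q S) S)) ?_
    intro S T hST
    have h3 : q S = q T := congrArg (fun p => p.1.1) hST
    have h4 : i (q S) S = i (q T) T := congrArg (fun p => p.2) hST
    rw [h3] at h4
    exact hi (q T) h3 rfl h4
  have h3 : ℵ₀ < #(Set ℕ) := by
    rw [mk_set, mk_nat]
    exact cantor _
  have h4 : #(Set ℕ) ≤ #(Set.range q) := by
    rcases le_total #(Set.range q) ℵ₀ with h | h
    · refine (not_lt_of_ge (h2.trans ?_) h3).elim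
      calc #(Set.range q) * ℵ₀ ≤ ℵ₀ * ℵ₀ := mul_le_mul_left h _
        _ = ℵ₀ := aleph0_mul_aleph0
    · rwa [mul_eq_left h h aleph0_ne_zero] at h2
  obtain ⟨f⟩ := h4
  have h5 : ∀ S, ∃ T, q T = (f S).1 := fun S => (f S).2
  choose g hg using h5
  refine ⟨g, fun S T hST h => hST ?_⟩
  rw [hg, hg] at h
  exact f.injective (Subtype.ext h)

/-- a flip invariant graph which is not the Rado graph has continuum many finitely stable
companions -/
theorem exists_family {G : SimpleGraph ℕ} (h : ∀ a b, a ≠ b → EEq (flip G {s(a, b)}) G)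
    (hG : ¬ HasExt G) : ∃ H : Set ℕ → SimpleGraph ℕ,
      (∀ S, FinitelyStable (H S) ∧ EEq (H S) G) ∧ ∀ S T, S ≠ T → IsEmpty (H S ≃g H T) := by
  rw [hasExt_iff] at hG
  push Not at hG
  obtain ⟨k, σ, t0, ht0, hno⟩ := hG
  have hθ : ∀ m, ∃ φ : Fm k, ∀ (V : Type) (K : SimpleGraph V) (x : Fin k → V),
      Tr K φ x ↔ Theta σ m K x := fun m => dfn_theta σ m
  choose φ hφ using hθ
  have h1 : ∀ S : Set ℕ, ∃ H : SimpleGraph ℕ, (FinitelyStable H ∧ EEq H G) ∧
      ∃ s : Fin k → ℕ, ∀ m, (Tr H (φ m) s ↔ m ∈ S) := by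
    intro S
    obtain ⟨t, ht⟩ := diag (D := Fin k → ℕ) (fun m _ t => (Theta σ m G t ↔ m ∈ S))
      (fun N => Eventually.of_forall fun _ =>
        exists_code G h σ t0 ht0 (fun ⟨z, hz⟩ => hno z hz) S N)
    obtain ⟨H, f, s, h2, h3, h4⟩ := exists_stable_extension G h k
      (fun j => ((fun i => t i j : ℕ → ℕ) : Q ℕ))
    refine ⟨H, ⟨h2, eeq_of_elementary h3⟩, s, fun m => ?_⟩
    rw [← h4, los k (φ m) (fun _ => G) (fun j i => t i j)]
    have h5 := ht m
    have h6 : (∀ᶠ i in U, Tr G (φ m) (fun j => t i j)) ↔ ∀ᶠ _i in U, m ∈ S := by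
      refine eventually_congr ?_
      filter_upwards [h5] with i hi
      rw [hφ]
      exact hi
    rw [h6]
    exact eventually_const
  choose H hH hcode using h1
  let q : Set ℕ → Quotient (⟨fun K L : SimpleGraph ℕ => Nonempty (K ≃g L),
      ⟨fun _ => ⟨SimpleGraph.Iso.refl⟩, fun ⟨f⟩ => ⟨f.symm⟩, fun ⟨f⟩ ⟨g⟩ => ⟨f.trans g⟩⟩⟩ :
      Setoid (SimpleGraph ℕ)) := fun S => Quotient.mk _ (H S)
  obtain ⟨g, hg⟩ := exists_choice q (by
    intro r
    by_cases hr : ∃ S, q S = r
    · obtain ⟨S, rfl⟩ := hr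
      refine (Set.countable_range (fun s : Fin k → ℕ => {m | Tr (H S) (φ m) s})).mono ?_
      intro T hT
      obtain ⟨f⟩ := Quotient.exact hT
      obtain ⟨s, hs⟩ := hcode T
      refine ⟨fun j => f (s j), ?_⟩
      ext m
      change Tr (H S) (φ m) (fun j => f (s j)) ↔ m ∈ T
      rw [← tr_iso f, hs]
    · have : {T | q T = r} = ∅ := by
        ext T
        exact ⟨fun h => hr ⟨T, h⟩, fun h => h.elim⟩
      rw [this]
      exact Set.countable_empty)
  refine ⟨fun S => H (g S), fun S => hH _, fun S T hST => ⟨fun f => hg S T hST ?_⟩⟩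
  exact Quotient.sound (⟨f⟩ : Nonempty _)

/-- the main theorem -/
theorem main (G : SimpleGraph ℕ) :
    ((∃ H : SimpleGraph ℕ, FinitelyStable H ∧ SameTheory H G) ↔
      ∀ a b, a ≠ b → SameTheory (flip G {s(a, b)}) G) ∧
    ((∃ H : SimpleGraph ℕ, FinitelyStable H ∧ SameTheory H G) →
      ∃ H : SimpleGraph ℕ, FinitelyStable H ∧
        Nonempty (@ElementaryEmbedding Language.graph ℕ ℕ G.structure H.structure)) ∧
    (HasExt G → FinitelyStable G ∧
      ∀ H : SimpleGraph ℕ, SameTheory H G → Nonempty (H ≃g G)) ∧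
    (¬ HasExt G → (∃ H : SimpleGraph ℕ, FinitelyStable H ∧ SameTheory H G) →
      ∃ H : Set ℕ → SimpleGraph ℕ, (∀ S, FinitelyStable (H S) ∧ SameTheory (H S) G) ∧
        ∀ S T, S ≠ T → IsEmpty (H S ≃g H T)) := by
  simp only [sameTheory_iff]
  have hA : (∃ H : SimpleGraph ℕ, FinitelyStable H ∧ EEq H G) →
      ∀ a b, a ≠ b → EEq (flip G {s(a, b)}) G := by
    rintro ⟨H, h1, h2⟩
    refine flipInv_of_eeq (G := H) (fun a b hab => ?_) h2
    obtain ⟨f⟩ := h1 {s(a, b)} (Set.finite_singleton _) (by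
      rintro e he
      rw [Set.mem_singleton_iff] at he
      rw [he, Sym2.mk_isDiag_iff]
      exact hab)
    exact EEq.of_iso f
  have hB : (∀ a b, a ≠ b → EEq (flip G {s(a, b)}) G) →
      ∃ H : SimpleGraph ℕ, (FinitelyStable H ∧ EEq H G) ∧
        Nonempty (@ElementaryEmbedding Language.graph ℕ ℕ G.structure H.structure) := by
    intro h
    obtain ⟨H, f, s, h2, h3, _⟩ := exists_stable_extension G h 0 (fun i => i.elim0)
    exact ⟨H, ⟨h2, eeq_of_elementary h3⟩, elementaryEmbedding h3⟩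
  refine ⟨⟨hA, fun h => ?_⟩, fun h => ?_, fun hG => ⟨finitelyStable_of_hasExt hG, fun H hH => ?_⟩,
    fun hG h => exists_family (hA h) hG⟩
  · obtain ⟨H, h1, _⟩ := hB h
    exact ⟨H, h1⟩
  · obtain ⟨H, h1, h2⟩ := hB (hA h)
    exact ⟨H, h1.1, h2⟩
  · exact iso_of_hasExt (hasExt_of_eeq hH.symm hG) hG

end Pool.Agent.FinStab.FO
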