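import Pool.Agent.Helper32.FS.FO6

/-!
# Generic graphs with closed finite sets
-/

open FirstOrder FirstOrder.Language

namespace Pool.Agent.FinStab.Gk

open Pool.Agent.FinStab.FO

variable {X Y : Type}

/-- back and forth, with control on the isomorphism -/
theorem iso_of_bf' [Countable X] [Countable Y] [Nonempty X] [Nonempty Y]
    {A : SimpleGraph X} {B : SimpleGraph Y} (R : ∀ n, (Fin n → X) → (Fin n → Y) → Prop)
    (h0 : R 0 default default)
    (hf : ∀ n a b, R n a b → ∀ c, ∃ d, R (n + 1) (Fin.snoc a c) (Fin.snoc b d))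
    (hb : ∀ n a b, R n a b → ∀ d, ∃ c, R (n + 1) (Fin.snoc a c) (Fin.snoc b d))
    (hR : ∀ n a b, R n a b → ∀ i j, (a i = a j ↔ b i = b j) ∧
      (A.Adj (a i) (a j) ↔ B.Adj (b i) (b j))) :
    ∃ f : A ≃g B, ∀ z, ∃ n a b i, R n a b ∧ a i = z ∧ b i = f z := by
  obtain ⟨eX, heX⟩ := exists_surjective_nat X
  obtain ⟨eY, heY⟩ := exists_surjective_nat Y
  have step : ∀ (k : ℕ) (s : {p : (Fin k → X) × (Fin k → Y) // R k p.1 p.2}),
      ∃ x y, R (k + 1) (Fin.snoc s.1.1 x) (Fin.snoc s.1.2 y) ∧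
        (k % 2 = 0 → x = eX (k / 2)) ∧ (k % 2 = 1 → y = eY (k / 2)) := by
    intro k s
    rcases Nat.mod_two_eq_zero_or_one k with hk | hk
    · obtain ⟨d, hd⟩ := hf k _ _ s.2 (eX (k / 2))
      exact ⟨_, d, hd, fun _ => rfl, fun h => by omega⟩
    · obtain ⟨c, hc⟩ := hb k _ _ s.2 (eY (k / 2))
      exact ⟨c, _, hc, fun h => by omega, fun _ => rfl⟩
  choose x y h1 h2 h3 using step
  let c : ∀ k, {p : (Fin k → X) × (Fin k → Y) // R k p.1 p.2} := fun k =>
    Nat.rec (motive := fun k => {p : (Fin k → X) × (Fin k → Y) // R k p.1 p.2})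
      ⟨(default, default), h0⟩
      (fun k s => ⟨(Fin.snoc s.1.1 (x k s), Fin.snoc s.1.2 (y k s)), h1 k s⟩) k
  let α : ℕ → X := fun k => x k (c k)
  let β : ℕ → Y := fun k => y k (c k)
  have hc1 : ∀ k, (c (k + 1)).1.1 = Fin.snoc (c k).1.1 (α k) := fun k => rfl
  have hc2 : ∀ k, (c (k + 1)).1.2 = Fin.snoc (c k).1.2 (β k) := fun k => rfl
  have hα : ∀ k (i : Fin k), (c k).1.1 i = α i := by
    intro k
    induction k with
    | zero => exact fun i => i.elim0
    | succ k ih =>
      intro i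
      rw [hc1]
      refine Fin.lastCases ?_ (fun i => ?_) i
      · simp
      · simp [ih]
  have hβ : ∀ k (i : Fin k), (c k).1.2 i = β i := by
    intro k
    induction k with
    | zero => exact fun i => i.elim0
    | succ k ih =>
      intro i
      rw [hc2]
      refine Fin.lastCases ?_ (fun i => ?_) i
      · simp
      · simp [ih]
  have key : ∀ i j : ℕ, (α i = α j ↔ β i = β j) ∧ (A.Adj (α i) (α j) ↔ B.Adj (β i) (β j)) := by
    intro i j
    have hi : i < i + j + 1 := by omega
    have hj : j < i + j + 1 := by omega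
    have := hR _ _ _ (c (i + j + 1)).2 ⟨i, hi⟩ ⟨j, hj⟩
    rw [hα, hα, hβ, hβ] at this
    exact this
  have sα : ∀ z, ∃ k, α k = z := by
    intro z
    obtain ⟨m, rfl⟩ := heX z
    refine ⟨2 * m, ?_⟩
    have := h2 (2 * m) (c (2 * m)) (by omega)
    rw [show 2 * m / 2 = m by omega] at this
    exact this
  have sβ : ∀ z, ∃ k, β k = z := by
    intro z
    obtain ⟨m, rfl⟩ := heY z
    refine ⟨2 * m + 1, ?_⟩
    have := h3 (2 * m + 1) (c (2 * m + 1)) (by omega)
    rw [show (2 * m + 1) / 2 = m by omega] at this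
    exact this
  choose p hp using sα
  have hbij : Function.Bijective fun z => β (p z) := by
    constructor
    · intro z z' h
      have := (key (p z) (p z')).1.2 h
      rw [hp, hp] at this
      exact this
    · intro w
      obtain ⟨k, rfl⟩ := sβ w
      refine ⟨α k, ?_⟩
      exact (key (p (α k)) k).1.1 (hp _)
  refine ⟨⟨Equiv.ofBijective _ hbij, ?_⟩, ?_⟩
  · intro z z'
    change B.Adj (β (p z)) (β (p z')) ↔ A.Adj z z'
    rw [← (key (p z) (p z')).2, hp, hp]
  · intro z
    refine ⟨p z + 1, _, _, Fin.last _, (c (p z + 1)).2, ?_, ?_⟩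
    · rw [hα]
      exact hp z
    · rw [hβ]
      rfl

open Classical in
/-- neighbours of `x` in a finite set -/
noncomputable def nb (G : SimpleGraph X) (x : X) (A : Finset X) : Finset X := A.filter (G.Adj x)

theorem mem_nb {G : SimpleGraph X} {x y : X} {A : Finset X} : y ∈ nb G x A ↔ y ∈ A ∧ G.Adj x y := by
  classical
  exact Finset.mem_filter

/-- closed sets: every vertex outside has at most `k` neighbours inside -/
def Str (k : ℕ) (G : SimpleGraph X) (A : Finset X) : Prop := ∀ x, x ∉ A → (nb G x A).card ≤ k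

/-- generic graphs over a finite set `C` -/
structure Gen (k : ℕ) (G : SimpleGraph X) (C : Finset X) : Prop where
  hull : ∀ A : Finset X, ∃ B : Finset X, A ⊆ B ∧ C ⊆ B ∧ Str k G B
  ext : ∀ A : Finset X, C ⊆ A → Str k G A → ∀ (r : ℕ) (T : Fin r → Finset X)
    (H : SimpleGraph (Fin r)), (∀ i, T i ⊆ A ∧ (T i).card ≤ k) →
    ∃ v : Fin r → X, Function.Injective v ∧ (∀ i, v i ∉ A) ∧
      (∀ i, ∀ a ∈ A, (G.Adj (v i) a ↔ a ∈ T i)) ∧ (∀ i j, G.Adj (v i) (v j) ↔ H.Adj i j) ∧
      ∀ B : Finset X, (∀ x, x ∈ B ↔ (x ∈ A ∨ ∃ i, v i = x)) → Str k G B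

/-- finite partial isomorphisms -/
def PI (G : SimpleGraph X) (H : SimpleGraph Y) (S : Finset (X × Y)) : Prop :=
  ∀ p ∈ S, ∀ q ∈ S, (p.1 = q.1 ↔ p.2 = q.2) ∧ (G.Adj p.1 q.1 ↔ H.Adj p.2 q.2)

open Classical in
/-- extension of partial isomorphisms between closed sets -/
theorem extend_pi {k : ℕ} {G : SimpleGraph X} {H : SimpleGraph Y} {C : Finset Y} (hH : Gen k H C)
    {S : Finset (X × Y)} (hS : PI G H S) (h1 : Str k G (S.image Prod.fst))
    (h2 : Str k H (S.image Prod.snd)) (hC : C ⊆ S.image Prod.snd) (B : Finset X)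
    (hB : S.image Prod.fst ⊆ B) : ∃ S' : Finset (X × Y), S ⊆ S' ∧ PI G H S' ∧
      S'.image Prod.fst = B ∧ Str k H (S'.image Prod.snd) := by
  let e := (B \ S.image Prod.fst).equivFin.symm
  have he : ∀ i, (e i).1 ∈ B ∧ (e i).1 ∉ S.image Prod.fst := fun i => Finset.mem_sdiff.1 (e i).2
  obtain ⟨v, v1, v2, v3, v4, v5⟩ := hH.ext _ hC h2 _
    (fun i => (S.filter fun p => G.Adj (e i).1 p.1).image Prod.snd)
    (G.comap fun i => (e i).1) (by
      intro i
      refine ⟨Finset.image_subset_image (Finset.filter_subset _ _), ?_⟩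
      refine Finset.card_image_le.trans ?_
      have h3 : (S.filter fun p => G.Adj (e i).1 p.1).card =
          ((S.filter fun p => G.Adj (e i).1 p.1).image Prod.fst).card := by
        rw [Finset.card_image_of_injOn]
        intro p hp q hq hpq
        have hp' := (Finset.mem_filter.1 hp).1
        have hq' := (Finset.mem_filter.1 hq).1
        exact Prod.ext hpq ((hS p hp' q hq').1.1 hpq)
      rw [h3]
      refine (Finset.card_le_card ?_).trans (h1 (e i).1 (he i).2)
      intro x hx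
      obtain ⟨p, hp, rfl⟩ := Finset.mem_image.1 hx
      obtain ⟨hp1, hp2⟩ := Finset.mem_filter.1 hp
      exact mem_nb.2 ⟨Finset.mem_image_of_mem _ hp1, hp2⟩)
  refine ⟨S ∪ Finset.univ.image (fun i => ((e i).1, v i)), Finset.subset_union_left, ?_, ?_, ?_⟩
  · have hmix : ∀ p ∈ S, ∀ i, (p.1 = (e i).1 ↔ p.2 = v i) ∧ (G.Adj (e i).1 p.1 ↔
        H.Adj (v i) p.2) := by
      intro p hp i
      constructor
      · constructor
        · intro h
          exact ((he i).2 (h ▸ Finset.mem_image_of_mem _ hp)).elim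
        · intro h
          exact (v2 i (h ▸ Finset.mem_image_of_mem _ hp)).elim
      · rw [v3 i p.2 (Finset.mem_image_of_mem _ hp)]
        constructor
        · intro h
          exact Finset.mem_image_of_mem _ (Finset.mem_filter.2 ⟨hp, h⟩)
        · intro h
          obtain ⟨q, hq, hqp⟩ := Finset.mem_image.1 h
          obtain ⟨hq1, hq2⟩ := Finset.mem_filter.1 hq
          rw [← (hS q hq1 p hp).1.2 hqp]
          exact hq2
    intro p hp q hq
    rw [Finset.mem_union] at hp hq
    rcases hp with hp | hp <;> rcases hq with hq | hq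
    · exact hS p hp q hq
    · obtain ⟨i, _, rfl⟩ := Finset.mem_image.1 hq
      obtain ⟨h3, h4⟩ := hmix p hp i
      refine ⟨h3, ?_⟩
      rw [G.adj_comm, H.adj_comm]
      exact h4
    · obtain ⟨i, _, rfl⟩ := Finset.mem_image.1 hp
      obtain ⟨h3, h4⟩ := hmix q hq i
      exact ⟨by rw [eq_comm, h3, eq_comm], h4⟩
    · obtain ⟨i, _, rfl⟩ := Finset.mem_image.1 hp
      obtain ⟨j, _, rfl⟩ := Finset.mem_image.1 hq
      refine ⟨?_, (v4 i j).symm⟩
      change (e i).1 = (e j).1 ↔ v i = v j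
      rw [v1.eq_iff, ← Subtype.ext_iff, e.injective.eq_iff]
  · rw [Finset.image_union, Finset.image_image]
    ext x
    rw [Finset.mem_union]
    constructor
    · rintro (h | h)
      · exact hB h
      · obtain ⟨i, _, rfl⟩ := Finset.mem_image.1 h
        exact (he i).1
    · intro hx
      by_cases hxS : x ∈ S.image Prod.fst
      · exact Or.inl hxS
      · refine Or.inr (Finset.mem_image.2 ⟨e.symm ⟨x, Finset.mem_sdiff.2 ⟨hx, hxS⟩⟩,
          Finset.mem_univ _, ?_⟩)
        simp
  · refine v5 _ fun x => ?_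
    rw [Finset.image_union, Finset.image_image, Finset.mem_union]
    refine or_congr Iff.rfl ?_
    rw [Finset.mem_image]
    constructor
    · rintro ⟨i, _, h⟩
      exact ⟨i, h⟩
    · rintro ⟨i, h⟩
      exact ⟨i, Finset.mem_univ _, h⟩

theorem PI.swap {G : SimpleGraph X} {H : SimpleGraph Y} [DecidableEq X] [DecidableEq Y]
    {S : Finset (X × Y)} (h : PI G H S) : PI H G (S.image Prod.swap) := by
  intro p hp q hq
  obtain ⟨p', hp', rfl⟩ := Finset.mem_image.1 hp
  obtain ⟨q', hq', rfl⟩ := Finset.mem_image.1 hq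
  exact ⟨(h p' hp' q' hq').1.symm, (h p' hp' q' hq').2.symm⟩

open Classical in
/-- uniqueness of generic graphs -/
theorem iso_of_gen [Countable X] [Countable Y] [Nonempty X] [Nonempty Y] {k : ℕ}
    {G : SimpleGraph X} {H : SimpleGraph Y} {C : Finset X} {C' : Finset Y} (hG : Gen k G C)
    (hH : Gen k H C') {S0 : Finset (X × Y)} (hS : PI G H S0) (h1 : Str k G (S0.image Prod.fst))
    (h2 : Str k H (S0.image Prod.snd)) (hC : C ⊆ S0.image Prod.fst)
    (hC' : C' ⊆ S0.image Prod.snd) : ∃ f : G ≃g H, ∀ p ∈ S0, f p.1 = p.2 := by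
  obtain ⟨f, hf⟩ := iso_of_bf' (A := G) (B := H) (fun n a b => ∃ S : Finset (X × Y), S0 ⊆ S ∧
    PI G H S ∧ Str k G (S.image Prod.fst) ∧ Str k H (S.image Prod.snd) ∧ ∀ i, (a i, b i) ∈ S)
    ⟨S0, subset_rfl, hS, h1, h2, fun i => i.elim0⟩ (by
      rintro n a b ⟨S, s0, s1, s2, s3, s4⟩ c
      obtain ⟨B, hB1, hB2, hB3⟩ := hG.hull (S.image Prod.fst ∪ {c})
      obtain ⟨S', t1, t2, t3, t4⟩ := extend_pi hH s1 s2 s3
        (hC'.trans (Finset.image_subset_image s0)) B (Finset.subset_union_left.trans hB1)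
      have hc : c ∈ S'.image Prod.fst := by
        rw [t3]
        exact hB1 (by simp)
      obtain ⟨p, hp, hpc⟩ := Finset.mem_image.1 hc
      refine ⟨p.2, S', s0.trans t1, t2, by rw [t3]; exact hB3, t4, fun i => ?_⟩
      refine Fin.lastCases ?_ (fun i => ?_) i
      · rw [Fin.snoc_last, Fin.snoc_last, ← hpc]
        exact hp
      · rw [Fin.snoc_castSucc, Fin.snoc_castSucc]
        exact t1 (s4 i)) (by
      rintro n a b ⟨S, s0, s1, s2, s3, s4⟩ d
      obtain ⟨B, hB1, hB2, hB3⟩ := hH.hull (S.image Prod.snd ∪ {d})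
      have e1 : (S.image Prod.swap).image Prod.fst = S.image Prod.snd := by
        rw [Finset.image_image]; rfl
      have e2 : (S.image Prod.swap).image Prod.snd = S.image Prod.fst := by
        rw [Finset.image_image]; rfl
      obtain ⟨S', t1, t2, t3, t4⟩ := extend_pi (S := S.image Prod.swap) hG s1.swap
        (by rw [e1]; exact s3) (by rw [e2]; exact s2)
        (by rw [e2]; exact hC.trans (Finset.image_subset_image s0)) B
        (by rw [e1]; exact Finset.subset_union_left.trans hB1)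
      have hd : d ∈ S'.image Prod.fst := by
        rw [t3]
        exact hB1 (by simp)
      obtain ⟨p, hp, hpd⟩ := Finset.mem_image.1 hd
      have e3 : (S'.image Prod.swap).image Prod.fst = S'.image Prod.snd := by
        rw [Finset.image_image]; rfl
      have e4 : (S'.image Prod.swap).image Prod.snd = S'.image Prod.fst := by
        rw [Finset.image_image]; rfl
      have e5 : S ⊆ S'.image Prod.swap := by
        intro q hq
        have := t1 (Finset.mem_image_of_mem Prod.swap hq)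
        exact Finset.mem_image.2 ⟨_, this, Prod.swap_swap q⟩
      refine ⟨p.2, S'.image Prod.swap, s0.trans e5, t2.swap, by rw [e3]; exact t4,
        by rw [e4, t3]; exact hB3, fun i => ?_⟩
      refine Fin.lastCases ?_ (fun i => ?_) i
      · rw [Fin.snoc_last, Fin.snoc_last, ← hpd]
        exact Finset.mem_image_of_mem Prod.swap hp
      · rw [Fin.snoc_castSucc, Fin.snoc_castSucc]
        exact e5 (s4 i)) (by
      rintro n a b ⟨S, s0, s1, s2, s3, s4⟩ i j
      exact s1 _ (s4 i) _ (s4 j))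
  refine ⟨f, fun p hp => ?_⟩
  obtain ⟨n, a, b, i, ⟨S, s0, s1, s2, s3, s4⟩, h3, h4⟩ := hf p.1
  rw [← h4]
  exact (s1 _ (s4 i) p (s0 hp)).1.1 h3

end Pool.Agent.FinStab.Gk
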