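import Pool.Agent.Helper32.FS.GK1

/-!
# The generic graphs: finite stability, homogeneity, construction
-/

open FirstOrder FirstOrder.Language

namespace Pool.Agent.FinStab.Gk

open Pool.Agent.FinStab.FO

variable {X Y : Type}

theorem flip_adj_of_ne (G : SimpleGraph X) {a b x : X} (h1 : x ≠ a) (h2 : x ≠ b) (y : X) :
    (flip G {s(a, b)}).Adj x y ↔ G.Adj x y := by
  have : s(x, y) ∉ ({s(a, b)} : Set (Sym2 X)) := by
    rw [Set.mem_singleton_iff, Sym2.eq_iff]
    rintro (⟨h, _⟩ | ⟨h, _⟩)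
    · exact h1 h
    · exact h2 h
  rw [flip_adj]
  constructor
  · rintro ⟨_, h⟩
    by_contra hc
    exact h ⟨fun h' => (hc h').elim, fun h' => (this h').elim⟩
  · intro h
    exact ⟨h.ne, fun h' => this (h'.1 h)⟩

theorem str_flip_iff {k : ℕ} (G : SimpleGraph X) {a b : X} {A : Finset X} (ha : a ∈ A)
    (hb : b ∈ A) : Str k (flip G {s(a, b)}) A ↔ Str k G A := by
  have key : ∀ x, x ∉ A → nb (flip G {s(a, b)}) x A = nb G x A := by
    intro x hx
    have h1 : x ≠ a := fun h => hx (h ▸ ha)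
    have h2 : x ≠ b := fun h => hx (h ▸ hb)
    ext y
    rw [mem_nb, mem_nb, flip_adj_of_ne G h1 h2]
  constructor
  · intro h x hx
    rw [← key x hx]
    exact h x hx
  · intro h x hx
    rw [key x hx]
    exact h x hx

open Classical in
theorem Gen.flip {k : ℕ} {G : SimpleGraph X} (hG : Gen k G ∅) (a b : X) :
    Gen k (FinStab.flip G {s(a, b)}) {a, b} where
  hull := by
    intro A
    obtain ⟨B, h1, _, h3⟩ := hG.hull (A ∪ {a, b})
    have ha : a ∈ B := h1 (by simp)
    have hb : b ∈ B := h1 (by simp)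
    refine ⟨B, Finset.subset_union_left.trans h1, Finset.subset_union_right.trans h1, ?_⟩
    rw [str_flip_iff G ha hb]
    exact h3
  ext := by
    intro A hA hS r T H hT
    have ha : a ∈ A := hA (by simp)
    have hb : b ∈ A := hA (by simp)
    rw [str_flip_iff G ha hb] at hS
    obtain ⟨v, v1, v2, v3, v4, v5⟩ := hG.ext A (Finset.empty_subset _) hS r T H hT
    have hv : ∀ i, v i ≠ a ∧ v i ≠ b := fun i =>
      ⟨fun h => v2 i (h ▸ ha), fun h => v2 i (h ▸ hb)⟩
    refine ⟨v, v1, v2, fun i c hc => ?_, fun i j => ?_, ?_⟩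
    · rw [flip_adj_of_ne G (hv i).1 (hv i).2, v3 i c hc]
    · rw [flip_adj_of_ne G (hv i).1 (hv i).2, v4]
    · intro B hB
      rw [str_flip_iff G ((hB a).2 (Or.inl ha)) ((hB b).2 (Or.inl hb))]
      exact v5 B hB

theorem str_empty (k : ℕ) (G : SimpleGraph X) : Str k G ∅ := by
  classical
  intro x _
  have : nb G x ∅ = ∅ := by
    ext y
    simp [mem_nb]
  rw [this]
  exact Nat.zero_le _

open Classical in
theorem finitelyStable_of_gen [Countable X] [Nonempty X] {k : ℕ} {G : SimpleGraph X}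
    (hG : Gen k G ∅) : FinitelyStable G := by
  refine finitelyStable_of_single fun a b _ => ?_
  obtain ⟨A, hA, _, hS⟩ := hG.hull {a, b}
  have ha : a ∈ A := hA (by simp)
  have hb : b ∈ A := hA (by simp)
  let e := A.equivFin.symm
  obtain ⟨v, v1, _, _, v4, v5⟩ := hG.ext ∅ (subset_rfl) (str_empty k G) A.card (fun _ => ∅)
    ((flip G {s(a, b)}).comap fun i => (e i).1) (fun i => ⟨subset_rfl, Nat.zero_le _⟩)
  have e1 : (Finset.univ.image fun i => ((e i).1, v i)).image Prod.fst = A := by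
    rw [Finset.image_image]
    ext x
    constructor
    · intro h
      obtain ⟨i, _, rfl⟩ := Finset.mem_image.1 h
      exact (e i).2
    · intro h
      refine Finset.mem_image.2 ⟨e.symm ⟨x, h⟩, Finset.mem_univ _, ?_⟩
      simp
  have e2 : (Finset.univ.image fun i => ((e i).1, v i)).image Prod.snd =
      Finset.univ.image v := by
    rw [Finset.image_image]
    rfl
  obtain ⟨f, _⟩ := iso_of_gen (hG.flip a b) hG
    (S0 := Finset.univ.image fun i => ((e i).1, v i)) (by
      intro p hp q hq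
      obtain ⟨i, _, rfl⟩ := Finset.mem_image.1 hp
      obtain ⟨j, _, rfl⟩ := Finset.mem_image.1 hq
      refine ⟨?_, (v4 i j).symm⟩
      change (e i).1 = (e j).1 ↔ v i = v j
      rw [v1.eq_iff, ← Subtype.ext_iff, e.injective.eq_iff])
    (by rw [e1, str_flip_iff G ha hb]; exact hS)
    (by
      rw [e2]
      refine v5 _ fun x => ?_
      simp) (by rw [e1]; exact hA) (Finset.empty_subset _)
  exact ⟨f⟩

/-- isomorphisms between induced subgraphs with at most `k` vertices extend to automorphisms -/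
def KHom (k : ℕ) (G : SimpleGraph X) : Prop :=
  ∀ n ≤ k, ∀ a b : Fin n → X,
    (∀ i j, (a i = a j ↔ b i = b j) ∧ (G.Adj (a i) (a j) ↔ G.Adj (b i) (b j))) →
    ∃ f : G ≃g G, ∀ i, f (a i) = b i

open Classical in
theorem kHom_of_gen [Countable X] [Nonempty X] {k : ℕ} {G : SimpleGraph X} (hG : Gen k G ∅) :
    KHom k G := by
  intro n hn a b hab
  have hcard : ∀ {Z : Type} (g : Fin n → Z), (Finset.univ.image g).card ≤ k := by
    intro Z g
    refine Finset.card_image_le.trans ?_
    simpa using hn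
  have hstr : ∀ g : Fin n → X, Str k G (Finset.univ.image g) := by
    intro g x _
    refine (Finset.card_le_card ?_).trans (hcard g)
    intro y hy
    exact (mem_nb.1 hy).1
  obtain ⟨f, hf⟩ := iso_of_gen hG hG (S0 := Finset.univ.image fun i => (a i, b i)) (by
      intro p hp q hq
      obtain ⟨i, _, rfl⟩ := Finset.mem_image.1 hp
      obtain ⟨j, _, rfl⟩ := Finset.mem_image.1 hq
      exact hab i j)
    (by rw [Finset.image_image]; exact hstr _) (by rw [Finset.image_image]; exact hstr _)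
    (Finset.empty_subset _) (Finset.empty_subset _)
  exact ⟨f, fun i => hf _ (Finset.mem_image_of_mem _ (Finset.mem_univ i))⟩

open Classical in
theorem not_hasExt_of_gen [Infinite X] {k : ℕ} {G : SimpleGraph X} (hG : Gen k G ∅) :
    ¬ HasExt G := by
  intro h
  obtain ⟨U, hU⟩ := Infinite.exists_subset_card_eq X (k + 1)
  obtain ⟨A, hA, _, hS⟩ := hG.hull U
  obtain ⟨z, h1, h2, h3, _⟩ := h U (A \ U) (by
    rw [Finset.disjoint_left]
    intro x hx hx'
    exact (Finset.mem_sdiff.1 hx').2 hx)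
  have hz : z ∉ A := by
    intro hz
    exact h2 (Finset.mem_sdiff.2 ⟨hz, h1⟩)
  have h4 : U ⊆ nb G z A := by
    intro u hu
    exact mem_nb.2 ⟨hA hu, h3 u hu⟩
  have := (Finset.card_le_card h4).trans (hS z hz)
  omega

/-- data of the blocks -/
abbrev BD := Finset (ℕ × (ℕ × ℕ)) × Finset (ℕ × ℕ)

theorem exists_dat : ∃ dat : ℕ → BD, ∀ d N, ∃ t, N ≤ t ∧ dat t = d := by
  obtain ⟨f, hf⟩ := exists_surjective_nat BD
  refine ⟨fun t => f (Nat.unpair t).1, fun d N => ?_⟩
  obtain ⟨m, rfl⟩ := hf d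
  refine ⟨Nat.pair m N, Nat.right_le_pair m N, ?_⟩
  change f (Nat.unpair (Nat.pair m N)).1 = f m
  rw [Nat.unpair_pair]

/-- the neighbours of a vertex in earlier blocks -/
def dn (k : ℕ) (dat : ℕ → BD) (x : ℕ × ℕ) : Finset (ℕ × ℕ) :=
  if (((dat x.1).1.filter fun p => p.1 = x.2 ∧ p.2.1 < x.1).image Prod.snd).card ≤ k then
    ((dat x.1).1.filter fun p => p.1 = x.2 ∧ p.2.1 < x.1).image Prod.snd
  else ∅

theorem card_dn (k : ℕ) (dat : ℕ → BD) (x : ℕ × ℕ) : (dn k dat x).card ≤ k := by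
  unfold dn
  split_ifs with h
  · exact h
  · exact Nat.zero_le _

theorem of_mem_dn {k : ℕ} {dat : ℕ → BD} {x y : ℕ × ℕ} (h : y ∈ dn k dat x) :
    (x.2, y) ∈ (dat x.1).1 ∧ y.1 < x.1 := by
  unfold dn at h
  split_ifs at h with h'
  · obtain ⟨p, hp, rfl⟩ := Finset.mem_image.1 h
    obtain ⟨h1, h2, h3⟩ := Finset.mem_filter.1 hp
    rw [← h2]
    exact ⟨h1, h3⟩
  · simp at h

/-- the graph -/
def GG (k : ℕ) (dat : ℕ → BD) : SimpleGraph (ℕ × ℕ) where
  Adj x y := y ∈ dn k dat x ∨ x ∈ dn k dat y ∨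
    (x.1 = y.1 ∧ x.2 ≠ y.2 ∧ ((x.2, y.2) ∈ (dat x.1).2 ∨ (y.2, x.2) ∈ (dat x.1).2))
  symm := ⟨by
    rintro x y (h | h | ⟨h1, h2, h3⟩)
    · exact Or.inr (Or.inl h)
    · exact Or.inl h
    · exact Or.inr (Or.inr ⟨h1.symm, h2.symm, by rw [← h1]; exact h3.symm⟩)⟩
  loopless := ⟨by
    rintro x (h | h | ⟨_, h2, _⟩)
    · exact lt_irrefl _ (of_mem_dn h).2
    · exact lt_irrefl _ (of_mem_dn h).2
    · exact h2 rfl⟩

theorem gg_adj {k : ℕ} {dat : ℕ → BD} {x y : ℕ × ℕ} : (GG k dat).Adj x y ↔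
    (y ∈ dn k dat x ∨ x ∈ dn k dat y ∨
    (x.1 = y.1 ∧ x.2 ≠ y.2 ∧ ((x.2, y.2) ∈ (dat x.1).2 ∨ (y.2, x.2) ∈ (dat x.1).2))) := Iff.rfl

theorem gg_hull (k : ℕ) (dat : ℕ → BD) (A : Finset (ℕ × ℕ)) :
    ∃ B : Finset (ℕ × ℕ), A ⊆ B ∧ Str k (GG k dat) B := by
  classical
  let t := A.sup Prod.fst + 1
  have ht : ∀ y ∈ A, y.1 < t := fun y hy =>
    Nat.lt_succ_of_le (Finset.le_sup (f := Prod.fst) hy)
  let K : Finset ℕ := A.image Prod.snd ∪ (Finset.range t).biUnion (fun s =>
    (dat s).1.image (fun p => p.1) ∪ (dat s).1.image (fun p => p.2.2) ∪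
      (dat s).2.image (fun p => p.1) ∪ (dat s).2.image (fun p => p.2))
  let r := K.sup id + 1
  have hK : ∀ m ∈ K, m < r := fun m hm => Nat.lt_succ_of_le (Finset.le_sup (f := id) hm)
  have k1 : ∀ s < t, ∀ p ∈ (dat s).1, p.1 < r ∧ p.2.2 < r := by
    intro s hs p hp
    constructor
    · refine hK _ (Finset.mem_union_right _ (Finset.mem_biUnion.2 ⟨s, Finset.mem_range.2 hs, ?_⟩))
      simp only [Finset.mem_union]
      exact Or.inl (Or.inl (Or.inl (Finset.mem_image_of_mem (fun p => p.1) hp)))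
    · refine hK _ (Finset.mem_union_right _ (Finset.mem_biUnion.2 ⟨s, Finset.mem_range.2 hs, ?_⟩))
      simp only [Finset.mem_union]
      exact Or.inl (Or.inl (Or.inr (Finset.mem_image_of_mem (fun p => p.2.2) hp)))
  have k2 : ∀ s < t, ∀ p ∈ (dat s).2, p.1 < r ∧ p.2 < r := by
    intro s hs p hp
    constructor
    · refine hK _ (Finset.mem_union_right _ (Finset.mem_biUnion.2 ⟨s, Finset.mem_range.2 hs, ?_⟩))
      simp only [Finset.mem_union]
      exact Or.inl (Or.inr (Finset.mem_image_of_mem (fun p => p.1) hp))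
    · refine hK _ (Finset.mem_union_right _ (Finset.mem_biUnion.2 ⟨s, Finset.mem_range.2 hs, ?_⟩))
      simp only [Finset.mem_union]
      exact Or.inr (Finset.mem_image_of_mem (fun p => p.2) hp)
  have k3 : ∀ y ∈ A, y.2 < r := fun y hy =>
    hK _ (Finset.mem_union_left _ (Finset.mem_image_of_mem Prod.snd hy))
  refine ⟨Finset.range t ×ˢ Finset.range r, ?_, ?_⟩
  · intro y hy
    exact Finset.mem_product.2 ⟨Finset.mem_range.2 (ht y hy), Finset.mem_range.2 (k3 y hy)⟩
  · intro x hx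
    have hx' : ¬ (x.1 < t ∧ x.2 < r) := by
      intro h
      exact hx (Finset.mem_product.2 ⟨Finset.mem_range.2 h.1, Finset.mem_range.2 h.2⟩)
    refine (Finset.card_le_card ?_).trans (card_dn k dat x)
    intro y hy
    obtain ⟨hy1, hy2⟩ := mem_nb.1 hy
    obtain ⟨hy3, hy4⟩ := Finset.mem_product.1 hy1
    rw [Finset.mem_range] at hy3 hy4
    rcases hy2 with h | h | ⟨h1, h2, h3⟩
    · exact h
    · exfalso
      obtain ⟨h4, h5⟩ := of_mem_dn h
      exact hx' ⟨lt_trans h5 hy3, (k1 _ hy3 _ h4).2⟩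
    · exfalso
      rw [h1] at h3
      refine hx' ⟨h1 ▸ hy3, ?_⟩
      rcases h3 with h3 | h3
      · exact (k2 _ hy3 _ h3).1
      · exact (k2 _ hy3 _ h3).2

theorem gg_gen (k : ℕ) (dat : ℕ → BD) (hdat : ∀ d N, ∃ t, N ≤ t ∧ dat t = d) :
    Gen k (GG k dat) ∅ where
  hull := by
    intro A
    obtain ⟨B, h1, h2⟩ := gg_hull k dat A
    exact ⟨B, h1, Finset.empty_subset _, h2⟩
  ext := by
    intro A _ hS r T H hT
    obtain ⟨E, hE⟩ : ∃ E : Finset (ℕ × ℕ), ∀ i j : ℕ, (i, j) ∈ E ↔ ∃ (h : i < r) (h' : j < r),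
        H.Adj ⟨i, h⟩ ⟨j, h'⟩ := by
      classical
      refine ⟨(Finset.univ.filter (fun p : Fin r × Fin r => H.Adj p.1 p.2)).image
        (fun p => (p.1.1, p.2.1)), fun i j => ?_⟩
      simp only [Finset.mem_filter, Finset.mem_univ, true_and, Finset.mem_image,
        Prod.mk.injEq, Prod.exists]
      constructor
      · rintro ⟨i', j', h, rfl, rfl⟩
        exact ⟨i'.2, j'.2, h⟩
      · rintro ⟨h, h', hh⟩
        exact ⟨⟨i, h⟩, ⟨j, h'⟩, hh, rfl, rfl⟩
    let d : BD := (Finset.univ.biUnion (fun i : Fin r => (T i).image (fun y => (i.1, y))), E)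
    obtain ⟨t, ht1, ht2⟩ := hdat d (A.sup Prod.fst + 1)
    have ht : ∀ y ∈ A, y.1 < t := fun y hy =>
      lt_of_lt_of_le (Nat.lt_succ_of_le (Finset.le_sup (f := Prod.fst) hy)) ht1
    have m1 : ∀ i : ℕ, ∀ y, (i, y) ∈ (dat t).1 ↔ ∃ h : i < r, y ∈ T ⟨i, h⟩ := by
      intro i y
      rw [ht2]
      simp only [d, Finset.mem_biUnion, Finset.mem_univ, true_and, Finset.mem_image,
        Prod.mk.injEq]
      constructor
      · rintro ⟨j, z, hz, rfl, rfl⟩
        exact ⟨j.2, hz⟩
      · rintro ⟨h, hy⟩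
        exact ⟨⟨i, h⟩, y, hy, rfl, rfl⟩
    have m2 : ∀ i j : ℕ, (i, j) ∈ (dat t).2 ↔ ∃ (h : i < r) (h' : j < r),
        H.Adj ⟨i, h⟩ ⟨j, h'⟩ := by
      intro i j
      rw [ht2]
      exact hE i j
    have dn1 : ∀ i : Fin r, dn k dat (t, i.1) = T i := by
      intro i
      have e : (((dat t).1.filter fun p => p.1 = i.1 ∧ p.2.1 < t).image Prod.snd) = T i := by
        ext y
        rw [Finset.mem_image]
        constructor
        · rintro ⟨⟨j, z⟩, hp, h4⟩
          obtain ⟨h1, h2, _⟩ := Finset.mem_filter.1 hp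
          have h2' : j = i.1 := h2
          have h4' : z = y := h4
          subst h2'
          subst h4'
          obtain ⟨_, h5⟩ := (m1 _ _).1 h1
          exact h5
        · intro hy
          exact ⟨(i.1, y), Finset.mem_filter.2 ⟨(m1 _ _).2 ⟨i.2, hy⟩, rfl, ht y ((hT i).1 hy)⟩, rfl⟩
      unfold dn
      change (if (((dat t).1.filter fun p => p.1 = i.1 ∧ p.2.1 < t).image Prod.snd).card ≤ k then
        (((dat t).1.filter fun p => p.1 = i.1 ∧ p.2.1 < t).image Prod.snd) else ∅) = T i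
      rw [e, if_pos (hT i).2]
    have dn2 : ∀ j, r ≤ j → ∀ y, y ∉ dn k dat (t, j) := by
      intro j hj y hy
      obtain ⟨h1, _⟩ := of_mem_dn hy
      obtain ⟨h2, _⟩ := (m1 _ _).1 h1
      exact absurd h2 (not_lt.2 hj)
    have hadj : ∀ i : Fin r, ∀ x : ℕ × ℕ, x.1 < t →
        ((GG k dat).Adj (t, i.1) x ↔ x ∈ T i) := by
      intro i x hx
      rw [gg_adj, dn1]
      constructor
      · rintro (h | h | ⟨h1, _, _⟩)
        · exact h
        · exact absurd (of_mem_dn h).2 (not_lt.2 hx.le)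
        · exact absurd h1 (ne_of_gt hx)
      · exact fun h => Or.inl h
    refine ⟨fun i => (t, i.1), ?_, ?_, ?_, ?_, ?_⟩
    · intro i j hij
      exact Fin.ext (congrArg Prod.snd hij)
    · intro i hi
      exact lt_irrefl _ (ht _ hi)
    · intro i a ha
      exact hadj i a (ht a ha)
    · intro i j
      rw [gg_adj]
      constructor
      · rintro (h | h | ⟨_, _, h⟩)
        · exact absurd (of_mem_dn h).2 (lt_irrefl _)
        · exact absurd (of_mem_dn h).2 (lt_irrefl _)
        · rcases h with h | h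
          · obtain ⟨_, _, h'⟩ := (m2 _ _).1 h
            exact h'
          · obtain ⟨_, _, h'⟩ := (m2 _ _).1 h
            exact h'.symm
      · intro h
        refine Or.inr (Or.inr ⟨rfl, ?_, Or.inl ((m2 _ _).2 ⟨i.2, j.2, h⟩)⟩)
        intro hij
        exact h.ne (Fin.ext hij)
    · intro B hB x hx
      rw [hB, not_or] at hx
      obtain ⟨hxA, hxv⟩ := hx
      rcases lt_trichotomy x.1 t with h | h | h
      · refine (Finset.card_le_card ?_).trans (hS x hxA)
        intro y hy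
        obtain ⟨hy1, hy2⟩ := mem_nb.1 hy
        rcases (hB y).1 hy1 with hy1 | hy1
        · exact mem_nb.2 ⟨hy1, hy2⟩
        · obtain ⟨i, rfl⟩ := hy1
          rw [(GG k dat).adj_comm, hadj i x h] at hy2
          exact (hxA ((hT i).1 hy2)).elim
      · have hj : r ≤ x.2 := by
          by_contra hc
          rw [not_le] at hc
          exact hxv ⟨⟨x.2, hc⟩, Prod.ext h.symm rfl⟩
        have hx' : x = (t, x.2) := Prod.ext h rfl
        refine (Finset.card_eq_zero.2 ?_).le.trans (Nat.zero_le _)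
        rw [Finset.eq_empty_iff_forall_notMem]
        intro y hy
        obtain ⟨hy1, hy2⟩ := mem_nb.1 hy
        rcases (hB y).1 hy1 with hy1 | hy1
        · rcases hy2 with h' | h' | ⟨h1, _, _⟩
          · rw [hx'] at h'
            exact dn2 _ hj _ h'
          · have := (of_mem_dn h').2
            have := ht y hy1
            omega
          · have := ht y hy1
            omega
        · obtain ⟨i, rfl⟩ := hy1
          rcases hy2 with h' | h' | ⟨h1, _, h3⟩
          · rw [hx'] at h'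
            exact dn2 _ hj _ h'
          · have h4 := (of_mem_dn h').2
            exact absurd h4 (by rw [h]; exact lt_irrefl _)
          · rw [h] at h3
            rcases h3 with h3 | h3
            · obtain ⟨h4, _⟩ := (m2 _ _).1 h3
              exact absurd h4 (not_lt.2 hj)
            · obtain ⟨_, h4, _⟩ := (m2 _ _).1 h3
              exact absurd h4 (not_lt.2 hj)
      · refine (Finset.card_le_card ?_).trans (card_dn k dat x)
        intro y hy
        obtain ⟨hy1, hy2⟩ := mem_nb.1 hy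
        have hyt : y.1 ≤ t := by
          rcases (hB y).1 hy1 with hy1 | hy1
          · exact (ht y hy1).le
          · obtain ⟨i, rfl⟩ := hy1
            exact le_refl _
        rcases hy2 with h' | h' | ⟨h1, _, _⟩
        · exact h'
        · have := (of_mem_dn h').2
          omega
        · omega

/-- for every `k` there is a generic graph -/
theorem exists_gen (k : ℕ) : ∃ G : SimpleGraph (ℕ × ℕ), FinitelyStable G ∧ KHom k G ∧
    ¬ HasExt G := by
  obtain ⟨dat, hdat⟩ := exists_dat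
  have h := gg_gen k dat hdat
  exact ⟨_, finitelyStable_of_gen h, kHom_of_gen h, not_hasExt_of_gen h⟩

end Pool.Agent.FinStab.Gk
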