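import Pool.Agent.Helper32.FS.GK2

/-!
# Continuum many homogeneous finitely stable graphs
-/

open FirstOrder FirstOrder.Language Filter

namespace Pool.Agent.FinStab.Gk

open Pool.Agent.FinStab.FO

theorem flip_diag {X : Type} (G : SimpleGraph X) (x : X) : flip G {s(x, x)} = G := by
  ext u v
  rw [flip_adj]
  constructor
  · rintro ⟨h1, h2⟩
    by_contra hc
    refine h2 ⟨fun h => (hc h).elim, fun h => ?_⟩
    rw [Set.mem_singleton_iff, Sym2.eq_iff] at h
    rcases h with ⟨h3, h4⟩ | ⟨h3, h4⟩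
    · exact (h1 (h3.trans h4.symm)).elim
    · exact (h1 (h3.trans h4.symm)).elim
  · intro h
    refine ⟨h.ne, fun h' => ?_⟩
    have h1 := h'.1 h
    rw [Set.mem_singleton_iff, Sym2.eq_iff] at h1
    rcases h1 with ⟨h3, h4⟩ | ⟨h3, h4⟩
    · exact h.ne (h3.trans h4.symm)
    · exact h.ne (h3.trans h4.symm)

theorem val_snoc {X : Type} {N : Set X} {n : ℕ} (a : Fin n → N) (z : N) :
    (fun j => ((Fin.snoc a z : Fin (n + 1) → N) j).1) =
      (Fin.snoc (fun j => (a j).1) z.1 : Fin (n + 1) → X) := by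
  funext j
  refine Fin.lastCases ?_ (fun j => ?_) j
  · simp
  · simp

/-- tuples with the same first-order properties are conjugate -/
def Homog (H : SimpleGraph ℕ) : Prop :=
  ∀ n (a b : Fin n → ℕ), EE H H a b → ∃ g : H ≃g H, ∀ j, g (a j) = b j

/-- every flip invariant countable graph has a countable finitely stable and homogeneous
elementary extension, realising a given type of the ultrapower -/
theorem exists_stable_homog (G : SimpleGraph ℕ)
    (h : ∀ a b, a ≠ b → EEq (flip G {s(a, b)}) G) (k : ℕ) (t : Fin k → Q ℕ) :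
    ∃ (H : SimpleGraph ℕ) (f : ℕ → ℕ) (s : Fin k → ℕ), FinitelyStable H ∧ Homog H ∧
      (∀ n (φ : Fm n) (a : Fin n → ℕ), Tr G φ a ↔ Tr H φ (fun j => f (a j))) ∧
      ∀ φ : Fm k, Tr (UG fun _ => G) φ t ↔ Tr H φ s := by
  let M : SimpleGraph (Q ℕ) := UG fun _ => G
  obtain ⟨N, hA, hNc, hTV, hBF1, hBF2⟩ := exists_closed M (Set.range cst ∪ Set.range t)
    ((Set.countable_range _).union (Set.countable_range _))
  have hcN : ∀ v, cst v ∈ N := fun v => hA (Or.inl ⟨v, rfl⟩)
  have htN : ∀ j, t j ∈ N := fun j => hA (Or.inr ⟨j, rfl⟩)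
  have : Countable N := hNc.to_subtype
  have hinf : Infinite N := Infinite.of_injective (fun v : ℕ => (⟨cst v, hcN v⟩ : N))
    (fun v w h => cst_injective (Subtype.ext_iff.1 h))
  obtain ⟨dN⟩ := nonempty_denumerable N
  let NG : SimpleGraph N := M.comap (Subtype.val : N → Q ℕ)
  have hTr := tr_sub M N hTV
  have hMG : EEq M G := eeq_ug (H := G) (fun _ => G) (Eventually.of_forall fun _ => EEq.refl G)
  have hstab : FinitelyStable NG := by
    refine finitelyStable_of_single fun x y hxy => ?_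
    have hxy' : x.1 ≠ y.1 := fun h => hxy (Subtype.ext h)
    have hfl : flip M {s(x.1, y.1)} = UG (fun i => flip G {s(rep x.1 i, rep y.1 i)}) := by
      rw [ug_flip, coe_rep, coe_rep]
    have hne : ∀ᶠ i in U, rep x.1 i ≠ rep y.1 i := by
      refine (ev_not (p := fun i => rep x.1 i = rep y.1 i)).2 fun h => hxy' ?_
      have h' := Germ.coe_eq.2 h
      rwa [coe_rep, coe_rep] at h'
    have hE : EEq (flip M {s(x.1, y.1)}) G := by
      rw [hfl]
      exact eeq_ug (H := G) _ (hne.mono fun i hi => h _ _ hi)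
    have hiso : Nonempty (NG ≃g flip NG {s(x, y)}) := by
      refine iso_of_bf (fun n a b => EE M (flip M {s(x.1, y.1)}) (fun j => (a j).1)
        (fun j => (b j).1)) ?_ ?_ ?_ ?_
      · intro φ
        have key := (hMG.trans hE.symm) φ
        rwa [Subsingleton.elim (@default (Fin 0 → Q ℕ) Unique.instInhabited)
          (fun j => ((default : Fin 0 → N) j).1)] at key
      · intro n a b hab c
        have h1 : ∃ d, EE M (flip M {s(x.1, y.1)})
            (Fin.snoc (fun j => (a j).1) c.1 : Fin (n + 1) → Q ℕ)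
            (Fin.snoc (fun j => (b j).1) d) := by
          rw [hfl] at hab ⊢
          exact ee_extend M _ _ _ hab c.1
        obtain ⟨d, hd, h2⟩ := hBF1 _ x.2 _ y.2 n _ _ (fun j => (a j).2) (fun j => (b j).2) _ c.2 h1
        refine ⟨⟨d, hd⟩, ?_⟩
        rw [val_snoc, val_snoc]
        exact h2
      · intro n a b hab d
        have h1 : ∃ c, EE M (flip M {s(x.1, y.1)})
            (Fin.snoc (fun j => (a j).1) c : Fin (n + 1) → Q ℕ)
            (Fin.snoc (fun j => (b j).1) d.1) := by
          obtain ⟨c, hc⟩ := ee_extend (flip M {s(x.1, y.1)}) (fun _ => G) _ _ hab.symm d.1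
          exact ⟨c, hc.symm⟩
        obtain ⟨c, hc, h2⟩ := hBF2 _ x.2 _ y.2 n _ _ (fun j => (a j).2) (fun j => (b j).2) _ d.2 h1
        refine ⟨⟨c, hc⟩, ?_⟩
        rw [val_snoc, val_snoc]
        exact h2
      · intro n a b hab i j
        constructor
        · have := hab (fEq i j)
          rw [tr_eq, tr_eq] at this
          rw [Subtype.ext_iff, Subtype.ext_iff]
          exact this
        · have := hab (fAdj i j)
          rw [tr_adj, tr_adj] at this
          change M.Adj (a i).1 (a j).1 ↔ _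
          rw [this, flip_adj, flip_adj]
          have e1 : ((b i).1 ≠ (b j).1) ↔ b i ≠ b j := by
            rw [ne_eq, ne_eq, Subtype.ext_iff]
          have e2 : s((b i).1, (b j).1) ∈ ({s(x.1, y.1)} : Set (Sym2 (Q ℕ))) ↔
              s(b i, b j) ∈ ({s(x, y)} : Set (Sym2 N)) := by
            simp only [Set.mem_singleton_iff, Sym2.eq_iff, Subtype.ext_iff]
          rw [e1, e2]
          exact Iff.rfl
    exact ⟨hiso.some.symm⟩
  have hhom : ∀ n (a b : Fin n → N), EE NG NG a b → ∃ g : NG ≃g NG, ∀ j, g (a j) = b j := by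
    intro n a b hab
    have hab' : EE M M (fun j => (a j).1) (fun j => (b j).1) := by
      intro φ
      rw [← hTr, ← hTr]
      exact hab φ
    let x0 : N := ⟨cst 0, hcN 0⟩
    obtain ⟨g, hg⟩ := iso_of_bf' (A := NG) (B := NG) (fun m u w =>
        EE M M (fun j => ((Fin.append a u : Fin (n + m) → N) j).1)
          (fun j => ((Fin.append b w : Fin (n + m) → N) j).1)) (by
        have e0 : ∀ a : Fin n → N, (Fin.append a (default : Fin 0 → N) : Fin (n + 0) → N) = a := by
          intro a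
          funext i
          exact Fin.append_left a _ i
        rw [e0, e0]
        exact hab') (by
        intro m u w huw c
        obtain ⟨d0, h0⟩ := ee_extend M (fun _ => G) _ _ huw c.1
        have h1 : ∃ d, EE M (flip M {s(x0.1, x0.1)})
            (Fin.snoc (fun j => ((Fin.append a u : Fin (n + m) → N) j).1) c.1 :
              Fin (n + m + 1) → Q ℕ)
            (Fin.snoc (fun j => ((Fin.append b w : Fin (n + m) → N) j).1) d) := by
          rw [flip_diag]
          exact ⟨d0, h0⟩
        obtain ⟨d, hd, h2⟩ := hBF1 _ x0.2 _ x0.2 (n + m) _ _ (fun j => Subtype.prop _)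
          (fun j => Subtype.prop _) _ c.2 h1
        refine ⟨⟨d, hd⟩, ?_⟩
        rw [Fin.append_snoc, Fin.append_snoc]
        rw [flip_diag] at h2
        change EE M M (fun j => ((Fin.snoc (Fin.append a u) c : Fin (n + m + 1) → N) j).1)
          (fun j => ((Fin.snoc (Fin.append b w) (⟨d, hd⟩ : N) : Fin (n + m + 1) → N) j).1)
        rw [val_snoc, val_snoc]
        exact h2) (by
        intro m u w huw d
        obtain ⟨c0, h0⟩ := ee_extend M (fun _ => G) _ _ huw.symm d.1
        have h1 : ∃ c, EE M (flip M {s(x0.1, x0.1)})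
            (Fin.snoc (fun j => ((Fin.append a u : Fin (n + m) → N) j).1) c :
              Fin (n + m + 1) → Q ℕ)
            (Fin.snoc (fun j => ((Fin.append b w : Fin (n + m) → N) j).1) d.1) := by
          rw [flip_diag]
          exact ⟨c0, h0.symm⟩
        obtain ⟨c, hc, h2⟩ := hBF2 _ x0.2 _ x0.2 (n + m) _ _ (fun j => Subtype.prop _)
          (fun j => Subtype.prop _) _ d.2 h1
        refine ⟨⟨c, hc⟩, ?_⟩
        rw [Fin.append_snoc, Fin.append_snoc]
        rw [flip_diag] at h2
        change EE M M (fun j => ((Fin.snoc (Fin.append a u) (⟨c, hc⟩ : N) :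
          Fin (n + m + 1) → N) j).1)
          (fun j => ((Fin.snoc (Fin.append b w) d : Fin (n + m + 1) → N) j).1)
        rw [val_snoc, val_snoc]
        exact h2) (by
        intro m u w huw i j
        constructor
        · have := huw (fEq (Fin.natAdd n i) (Fin.natAdd n j))
          rw [tr_eq, tr_eq] at this
          simp only [Fin.append_right] at this
          rw [Subtype.ext_iff, Subtype.ext_iff]
          exact this
        · have := huw (fAdj (Fin.natAdd n i) (Fin.natAdd n j))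
          rw [tr_adj, tr_adj] at this
          simp only [Fin.append_right] at this
          exact this)
    refine ⟨g, fun j => ?_⟩
    obtain ⟨m, u, w, i, h1, h2, h3⟩ := hg (a j)
    rw [← h3]
    have := h1 (fEq (Fin.castAdd m j) (Fin.natAdd n i))
    rw [tr_eq, tr_eq] at this
    simp only [Fin.append_right, Fin.append_left] at this
    refine (Subtype.ext (this.1 ?_)).symm
    rw [h2]
  let e : ℕ ≃ N := (Denumerable.eqv N).symm
  let H : SimpleGraph ℕ := NG.comap e
  let ι : H ≃g NG := ⟨e, Iff.rfl⟩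
  refine ⟨H, fun v => ι.symm ⟨cst v, hcN v⟩, fun j => ι.symm ⟨t j, htN j⟩,
    hstab.of_iso ι.symm, ?_, ?_, ?_⟩
  · intro n a b hab
    obtain ⟨g, hg⟩ := hhom n (fun j => ι (a j)) (fun j => ι (b j)) (by
      intro φ
      rw [← tr_iso ι, ← tr_iso ι]
      exact hab φ)
    refine ⟨(ι.trans g).trans ι.symm, fun j => ?_⟩
    change ι.symm (g (ι (a j))) = b j
    rw [hg]
    simp
  · intro n φ a
    rw [← tr_cst, ← tr_iso ι.symm φ (fun j => (⟨cst (a j), hcN (a j)⟩ : N)), hTr]
  · intro φ
    rw [← tr_iso ι.symm φ (fun j => (⟨t j, htN j⟩ : N)), hTr]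

/-- substitution of variables -/
theorem dfn_subst : ∀ n (φ : Fm n), ∀ (m : ℕ) (f : Fin n → Fin m),
    Dfn m (fun _ G z => Tr G φ (fun i => z (f i))) := by
  refine fm_ind ?_ ?_ ?_ ?_ ?_
  · intro n m f
    exact dfn_const False
  · intro n i j m f
    exact dfn_eq (f i) (f j)
  · intro n i j m f
    exact dfn_adj (f i) (f j)
  · intro n φ ψ h1 h2 m f
    exact (h1 m f).imp (h2 m f)
  · intro n φ h m f
    obtain ⟨χ, hχ⟩ := (h (m + 1) (Fin.snoc (fun i => (f i).castSucc) (Fin.last m))).all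
    refine ⟨χ, fun V G z => (hχ V G z).trans (forall_congr' fun c => ?_)⟩
    have : (fun i => (Fin.snoc z c : Fin (m + 1) → V)
        ((Fin.snoc (fun i => (f i).castSucc) (Fin.last m) : Fin (n + 1) → Fin (m + 1)) i)) =
        (Fin.snoc (fun i => z (f i)) c : Fin (n + 1) → V) := by
      funext i
      refine Fin.lastCases ?_ (fun i => ?_) i
      · simp
      · simp
    rw [this]
    exact Iff.rfl

/-- homogeneity up to `k` passes to homogeneous graphs with the same theory -/
theorem kHom_of_eeq {k : ℕ} {G H : SimpleGraph ℕ} (hG : KHom k G) (hGH : EEq G H)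
    (hH : Homog H) : KHom k H := by
  intro n hn a b hab
  refine hH n a b fun φ => ?_
  by_contra hc
  have h1 : Dfn (n + n) (fun _ K z => (∀ i j : Fin n,
      (z (Fin.castAdd n i) = z (Fin.castAdd n j) ↔ z (Fin.natAdd n i) = z (Fin.natAdd n j)) ∧
      (K.Adj (z (Fin.castAdd n i)) (z (Fin.castAdd n j)) ↔
        K.Adj (z (Fin.natAdd n i)) (z (Fin.natAdd n j)))) ∧
      ¬ (Tr K φ (fun i => z (Fin.castAdd n i)) ↔ Tr K φ (fun i => z (Fin.natAdd n i)))) :=
    (dfn_forall_fin n _ fun i => dfn_forall_fin n _ fun j =>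
      ((dfn_eq _ _).iff (dfn_eq _ _)).and ((dfn_adj _ _).iff (dfn_adj _ _))).and
      (((dfn_subst n φ (n + n) _).iff (dfn_subst n φ (n + n) _)).not)
  obtain ⟨χ, hχ⟩ := h1
  have h2 : Tr H (χ.exs : Fm 0) (@default (Fin 0 → ℕ) Unique.instInhabited) := by
    rw [tr_exs]
    refine ⟨Fin.append a b, (hχ _ _ _).2 ?_⟩
    simp only [Fin.append_left, Fin.append_right]
    exact ⟨hab, hc⟩
  have h3 := (hGH _).2 h2
  rw [tr_exs] at h3
  obtain ⟨z, hz⟩ := h3
  obtain ⟨h4, h5⟩ := (hχ _ _ _).1 hz
  obtain ⟨f, hf⟩ := hG n hn _ _ h4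
  apply h5
  rw [tr_iso f]
  have : (fun i => f (z (Fin.castAdd n i))) = fun i => z (Fin.natAdd n i) := funext hf
  rw [this]

/-- a flip invariant graph which is not the Rado graph has continuum many finitely stable
homogeneous companions -/
theorem exists_family_homog {G : SimpleGraph ℕ}
    (h : ∀ a b, a ≠ b → EEq (flip G {s(a, b)}) G) (hG : ¬ HasExt G) :
    ∃ H : Set ℕ → SimpleGraph ℕ, (∀ S, FinitelyStable (H S) ∧ Homog (H S) ∧ EEq (H S) G) ∧
      ∀ S T, S ≠ T → IsEmpty (H S ≃g H T) := by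
  rw [hasExt_iff] at hG
  push Not at hG
  obtain ⟨k, σ, t0, ht0, hno⟩ := hG
  have hθ : ∀ m, ∃ φ : Fm k, ∀ (V : Type) (K : SimpleGraph V) (x : Fin k → V),
      Tr K φ x ↔ Theta σ m K x := fun m => dfn_theta σ m
  choose φ hφ using hθ
  have h1 : ∀ S : Set ℕ, ∃ H : SimpleGraph ℕ, (FinitelyStable H ∧ Homog H ∧ EEq H G) ∧
      ∃ s : Fin k → ℕ, ∀ m, (Tr H (φ m) s ↔ m ∈ S) := by
    intro S
    obtain ⟨t, ht⟩ := diag (D := Fin k → ℕ) (fun m _ t => (Theta σ m G t ↔ m ∈ S))
      (fun N => Eventually.of_forall fun _ =>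
        exists_code G h σ t0 ht0 (fun ⟨z, hz⟩ => hno z hz) S N)
    obtain ⟨H, f, s, h2, h2', h3, h4⟩ := exists_stable_homog G h k
      (fun j => ((fun i => t i j : ℕ → ℕ) : Q ℕ))
    refine ⟨H, ⟨h2, h2', eeq_of_elementary h3⟩, s, fun m => ?_⟩
    rw [← h4, los k (φ m) (fun _ => G) (fun j i => t i j)]
    have h5 := ht m
    have h6 : (∀ᶠ i in U, Tr G (φ m) (fun j => t i j)) ↔ ∀ᶠ _i in U, m ∈ S := by
      refine eventually_congr ?_
      filter_upwards [h5] with i hi
      rw [hφ]
      exact hi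
    rw [h6]
    exact eventually_const
  choose H hH hcode using h1
  let q : Set ℕ → Quotient (⟨fun K L : SimpleGraph ℕ => Nonempty (K ≃g L),
      ⟨fun _ => ⟨SimpleGraph.Iso.refl⟩, fun ⟨f⟩ => ⟨f.symm⟩, fun ⟨f⟩ ⟨g⟩ => ⟨f.trans g⟩⟩⟩ :
      Setoid (SimpleGraph ℕ)) := fun S => Quotient.mk _ (H S)
  obtain ⟨g, hg⟩ := exists_choice q (by
    intro r
    by_cases hr : ∃ S, q S = r
    · obtain ⟨S, rfl⟩ := hr
      refine (Set.countable_range (fun s : Fin k → ℕ => {m | Tr (H S) (φ m) s})).mono ?_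
      intro T hT
      obtain ⟨f⟩ := Quotient.exact hT
      obtain ⟨s, hs⟩ := hcode T
      refine ⟨fun j => f (s j), ?_⟩
      ext m
      change Tr (H S) (φ m) (fun j => f (s j)) ↔ m ∈ T
      rw [← tr_iso f, hs]
    · have : {T | q T = r} = ∅ := by
        ext T
        exact ⟨fun h => hr ⟨T, h⟩, fun h => h.elim⟩
      rw [this]
      exact Set.countable_empty)
  refine ⟨fun S => H (g S), fun S => hH _, fun S T hST => ⟨fun f => hg S T hST ?_⟩⟩
  exact Quotient.sound (⟨f⟩ : Nonempty _)

/-- for every `k` there are continuum many finitely stable graphs in which every isomorphism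
between induced subgraphs with at most `k` vertices extends to an automorphism, and they can
be taken in one first-order theory -/
theorem main_homog (k : ℕ) : ∃ H : Set ℕ → SimpleGraph ℕ,
    (∀ S, FinitelyStable (H S) ∧ KHom k (H S)) ∧ (∀ S T, SameTheory (H S) (H T)) ∧
    ∀ S T, S ≠ T → IsEmpty (H S ≃g H T) := by
  obtain ⟨G0, h1, h2, h3⟩ := exists_gen k
  let e : ℕ ≃ ℕ × ℕ := Nat.pairEquiv.symm
  let G : SimpleGraph ℕ := G0.comap e
  let ι : G ≃g G0 := ⟨e, Iff.rfl⟩
  have g1 : FinitelyStable G := h1.of_iso ι.symm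
  have g2 : KHom k G := by
    intro n hn a b hab
    obtain ⟨f, hf⟩ := h2 n hn (fun i => ι (a i)) (fun i => ι (b i)) (by
      intro i j
      obtain ⟨h4, h5⟩ := hab i j
      refine ⟨?_, ?_⟩
      · rw [ι.injective.eq_iff, ι.injective.eq_iff]
        exact h4
      · exact h5)
    refine ⟨(ι.trans f).trans ι.symm, fun i => ?_⟩
    change ι.symm (f (ι (a i))) = b i
    rw [hf]
    simp
  have g3 : ¬ HasExt G := fun h => h3 (hasExt_of_eeq (EEq.of_iso ι) h)
  have g4 : ∀ a b, a ≠ b → EEq (flip G {s(a, b)}) G := by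
    intro a b hab
    obtain ⟨f⟩ := g1 {s(a, b)} (Set.finite_singleton _) (by
      rintro e he
      rw [Set.mem_singleton_iff] at he
      rw [he, Sym2.mk_isDiag_iff]
      exact hab)
    exact EEq.of_iso f
  obtain ⟨H, hH, hne⟩ := exists_family_homog g4 g3
  exact ⟨H, fun S => ⟨(hH S).1, kHom_of_eeq g2 (hH S).2.2.symm (hH S).2.1⟩,
    fun S T => (sameTheory_iff _ _).2 ((hH S).2.2.trans (hH T).2.2.symm), hne⟩

end Pool.Agent.FinStab.Gk
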