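import Pool.Agent.Helper32.FS.Topo

/-!
# Isomorphism of finitely stable graphs
-/

open Set MeasureTheory

namespace Pool.Agent.FinStab

variable {α α' : Type*}

/-- the cone over a graph -/
def cone (H : SimpleGraph α) : SimpleGraph (Option α) where
  Adj p q := match p, q with
    | none, some _ => True
    | some _, none => True
    | some u, some v => H.Adj u v
    | none, none => False
  symm := ⟨by
    rintro (_ | u) (_ | v) h
    · exact h
    · exact h
    · exact h
    · exact H.symm.symm _ _ h⟩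
  loopless := ⟨by
    rintro (_ | u) h
    · exact h
    · exact h.ne rfl⟩

/-- functoriality of the cone -/
def coneIso {H : SimpleGraph α} {H' : SimpleGraph α'} (θ : H ≃g H') : cone H ≃g cone H' where
  toEquiv := Equiv.optionCongr θ.toEquiv
  map_rel_iff' := by
    rintro (_ | u) (_ | v)
    · exact Iff.rfl
    · exact Iff.rfl
    · exact Iff.rfl
    · exact θ.map_rel_iff

theorem cone_none_adj (H : SimpleGraph α) (y : Option α) : (cone H).Adj none y ↔ y ≠ none := by
  cases y with
  | none => exact ⟨fun h => absurd h (fun h => h), fun h => absurd rfl h⟩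
  | some v => exact ⟨fun _ => by simp, fun _ => trivial⟩

theorem swap_dominating {V : Type*} [DecidableEq V] (G : SimpleGraph V) (a b : V)
    (ha : ∀ y, y ≠ a → G.Adj a y) (hb : ∀ y, y ≠ b → G.Adj b y) (x y : V) :
    G.Adj (Equiv.swap a b x) (Equiv.swap a b y) ↔ G.Adj x y := by
  have key : ∀ x y, G.Adj x y → G.Adj (Equiv.swap a b x) (Equiv.swap a b y) := by
    intro x y h
    have hne : Equiv.swap a b x ≠ Equiv.swap a b y := (Equiv.swap a b).injective.ne h.ne
    by_cases hx : x = a
    · subst hx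
      rw [Equiv.swap_apply_left] at hne ⊢
      exact hb _ hne.symm
    · by_cases hx' : x = b
      · subst hx'
        rw [Equiv.swap_apply_right] at hne ⊢
        exact ha _ hne.symm
      · rw [Equiv.swap_apply_of_ne_of_ne hx hx'] at hne ⊢
        by_cases hy : y = a
        · subst hy
          rw [Equiv.swap_apply_left] at hne ⊢
          exact (hb _ hne).symm
        · by_cases hy' : y = b
          · subst hy'
            rw [Equiv.swap_apply_right] at hne ⊢
            exact (ha _ hne).symm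
          · rw [Equiv.swap_apply_of_ne_of_ne hy hy']
            exact h
  constructor
  · intro h
    have := key _ _ h
    rwa [Equiv.swap_apply_self, Equiv.swap_apply_self] at this
  · exact key x y

theorem cone_cancel {H : SimpleGraph α} {H' : SimpleGraph α'} (ψ : cone H ≃g cone H') :
    Nonempty (H ≃g H') := by
  classical
  have h1 : ∀ y, y ≠ ψ none → (cone H').Adj (ψ none) y := by
    intro y hy
    have h2 : (cone H).Adj none (ψ.symm y) := by
      rw [cone_none_adj]
      intro h
      apply hy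
      rw [← h]
      exact (ψ.apply_symm_apply y).symm
    have h3 := ψ.map_rel_iff.mpr h2
    rwa [ψ.apply_symm_apply] at h3
  have h2 : ∀ y, y ≠ none → (cone H').Adj none y := fun y hy => (cone_none_adj H' y).mpr hy
  let e : Option α ≃ Option α' := ψ.toEquiv.trans (Equiv.swap (ψ none) none)
  have he : e none = none := by
    change Equiv.swap (ψ none) none (ψ none) = none
    exact Equiv.swap_apply_left _ _
  have hadj : ∀ x y, (cone H').Adj (e x) (e y) ↔ (cone H).Adj x y := by
    intro x y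
    change (cone H').Adj (Equiv.swap (ψ none) none (ψ x)) (Equiv.swap (ψ none) none (ψ y)) ↔ _
    rw [swap_dominating (cone H') (ψ none) none h1 h2]
    exact ψ.map_rel_iff
  have hs : ∀ u : α, some (Equiv.removeNone e u) = e (some u) := by
    intro u
    refine Equiv.removeNone_some e ?_
    rcases h3 : e (some u) with _ | v
    · exfalso
      rw [← he] at h3
      have := e.injective h3
      simp at this
    · exact ⟨v, rfl⟩
  refine ⟨⟨Equiv.removeNone e, ?_⟩⟩
  intro u v
  have h3 : (cone H').Adj (some (Equiv.removeNone e u)) (some (Equiv.removeNone e v)) ↔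
      (cone H).Adj (some u) (some v) := by
    rw [hs, hs]
    exact hadj _ _
  exact h3

theorem copies_cone_cancel {C C' : Type*} [Nonempty C] {H : SimpleGraph α} {H' : SimpleGraph α'}
    (Θ : copies (fun _ : C => cone H) ≃g copies (fun _ : C' => cone H')) :
    Nonempty (H ≃g H') := by
  obtain ⟨c₀⟩ := ‹Nonempty C›
  have h1 : ∀ u, (Θ (c₀, u)).1 = (Θ (c₀, none)).1 := by
    intro u
    by_cases hu : u = none
    · rw [hu]
    · have h2 : (copies (fun _ : C => cone H)).Adj (c₀, none) (c₀, u) :=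
        ⟨rfl, (cone_none_adj H u).mpr hu⟩
      exact (Θ.map_rel_iff.mpr h2).1.symm
  have h2 : ∀ c v, (Θ.symm (c, v)).1 = (Θ.symm (c, none)).1 := by
    intro c v
    by_cases hv : v = none
    · rw [hv]
    · have h2 : (copies (fun _ : C' => cone H')).Adj (c, none) (c, v) :=
        ⟨rfl, (cone_none_adj H' v).mpr hv⟩
      exact (Θ.symm.map_rel_iff.mpr h2).1.symm
  set c₁ := (Θ (c₀, none)).1 with hc₁
  have h3 : ∀ v, (Θ.symm (c₁, v)).1 = c₀ := by
    intro v
    rw [h2 c₁ v, ← h2 c₁ (Θ (c₀, none)).2]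
    have h4 : (c₁, (Θ (c₀, none)).2) = Θ (c₀, none) := rfl
    rw [h4, Θ.symm_apply_apply]
  refine cone_cancel (H := H) (H' := H') ⟨⟨fun u => (Θ (c₀, u)).2, fun v => (Θ.symm (c₁, v)).2,
    ?_, ?_⟩, ?_⟩
  · intro u
    change (Θ.symm (c₁, (Θ (c₀, u)).2)).2 = u
    have h4 : (c₁, (Θ (c₀, u)).2) = Θ (c₀, u) := Prod.ext (h1 u).symm rfl
    rw [h4, Θ.symm_apply_apply]
  · intro v
    change (Θ (c₀, (Θ.symm (c₁, v)).2)).2 = v
    have h4 : (c₀, (Θ.symm (c₁, v)).2) = Θ.symm (c₁, v) := Prod.ext (h3 v).symm rfl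
    rw [h4, Θ.apply_symm_apply]
  · intro u v
    change (cone H').Adj (Θ (c₀, u)).2 (Θ (c₀, v)).2 ↔ (cone H).Adj u v
    have h4 : (copies (fun _ : C' => cone H')).Adj (Θ (c₀, u)) (Θ (c₀, v)) ↔
        (copies (fun _ : C => cone H)).Adj (c₀, u) (c₀, v) := Θ.map_rel_iff
    have h5 : (copies (fun _ : C' => cone H')).Adj (Θ (c₀, u)) (Θ (c₀, v)) ↔
        (Θ (c₀, u)).1 = (Θ (c₀, v)).1 ∧ (cone H').Adj (Θ (c₀, u)).2 (Θ (c₀, v)).2 := Iff.rfl
    have h6 : (copies (fun _ : C => cone H)).Adj (c₀, u) (c₀, v) ↔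
        c₀ = c₀ ∧ (cone H).Adj u v := Iff.rfl
    rw [h5, h6, h1 u, h1 v] at h4
    simpa using h4

/-- unordered pairs -/
def sym2Equiv {A B : Type*} (ψ : A ≃ B) : Sym2 A ≃ Sym2 B where
  toFun := Sym2.map ψ
  invFun := Sym2.map ψ.symm
  left_inv e := by
    induction e using Sym2.ind with
    | _ x y => simp
  right_inv e := by
    induction e using Sym2.ind with
    | _ x y => simp

/-- the finitely stable graph attached to `H` -/
def bigc (H : SimpleGraph α) : SimpleGraph (((J α × ℕ) × ℕ) × Vx α) :=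
  big (fun _ => H) Prod.fst

/-- functoriality -/
theorem bigc_iso {H : SimpleGraph α} {H' : SimpleGraph α'} (θ : H ≃g H') :
    Nonempty (bigc H ≃g bigc H') := by
  let θ' : Vx α ≃ Vx α' := codeEquiv θ.toEquiv
  let κ : J α ≃ J α' := Equiv.finsetCongr (sym2Equiv (Equiv.prodCongr (Equiv.refl ℕ) θ'))
  let e : (((J α × ℕ) × ℕ) × Vx α) ≃ (((J α' × ℕ) × ℕ) × Vx α') :=
    Equiv.prodCongr (Equiv.prodCongr (Equiv.prodCongr κ (Equiv.refl ℕ)) (Equiv.refl ℕ)) θ'
  refine ⟨⟨e, ?_⟩⟩
  rintro ⟨⟨⟨F, n⟩, k⟩, x⟩ ⟨⟨⟨F', n'⟩, l⟩, y⟩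
  change (bigc H').Adj (((κ F, n), k), θ' x) (((κ F', n'), l), θ' y) ↔ _
  unfold bigc big
  rw [flip_adj, flip_adj, copies_adj, copies_adj, mem_pat, mem_pat]
  have h1 : ((((κ F, n), k), θ' x) ≠ (((κ F', n'), l), θ' y)) ↔
      ((((F, n), k), x) ≠ ((((F', n'), l), y) : ((J α × ℕ) × ℕ) × Vx α)) :=
    e.injective.ne_iff (x := (((F, n), k), x)) (y := (((F', n'), l), y))
  have h2 : (((κ F, n), k) = ((κ F', n'), l)) ↔ (((F, n), k) = ((F', n'), l)) :=
    (Equiv.prodCongr (Equiv.prodCongr κ (Equiv.refl ℕ)) (Equiv.refl ℕ)).injective.eq_iff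
      (a := ((F, n), k)) (b := ((F', n'), l))
  have h3 : ((κ F, n) = (κ F', n')) ↔ ((F, n) = (F', n')) :=
    (Equiv.prodCongr κ (Equiv.refl ℕ)).injective.eq_iff (a := (F, n)) (b := (F', n'))
  have h4 : (code H').Adj (θ' x) (θ' y) ↔ (code H).Adj x y := code_adj_iff θ x y
  have h5 : s((k, θ' x), (l, θ' y)) ∈ κ F ↔ s((k, x), (l, y)) ∈ F := by
    have : s((k, θ' x), (l, θ' y)) = (sym2Equiv (Equiv.prodCongr (Equiv.refl ℕ) θ')).toEmbedding
      s((k, x), (l, y)) := rfl
    rw [this]
    exact Finset.mem_map' _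
  rw [h1, h2, h3, h4]
  change _ ∧ ¬ (_ ↔ (_ ∧ s((k, θ' x), (l, θ' y)) ∈ κ F)) ↔ _
  rw [h5]

theorem iso_of_bigc {H : SimpleGraph α} {H' : SimpleGraph α'}
    (φ : bigc (cone H) ≃g bigc (cone H')) : Nonempty (H ≃g H') := by
  have h : flip (bigc (cone H')) ∅ = bigc (cone H') := flip_empty _
  obtain ⟨Θ, _⟩ := decode (fun _ => cone H) Prod.fst (fun _ => cone H') Prod.fst ∅
    Set.finite_empty (by
      rw [← h] at φ
      exact φ)
  exact copies_cone_cancel Θ

theorem stable_bigc [Countable α] (H : SimpleGraph α) : FinitelyStable (bigc H) :=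
  stable_of_rich (code H) Prod.fst (rich_fst α)

theorem exists_iso_reduction : ∃ f : (ℕ → ℕ → Bool) → (ℕ → ℕ → Bool), Continuous f ∧
    (∀ a, FinitelyStable (graphOf (f a))) ∧
    (∀ a v, {w | (graphOf (f a)).Adj v w}.Infinite ∧ {w | ¬ (graphOf (f a)).Adj v w}.Infinite) ∧
    ∀ a b, Nonempty (graphOf a ≃g graphOf b) ↔ Nonempty (graphOf (f a) ≃g graphOf (f b)) := by
  let V := ((J (Option ℕ) × ℕ) × ℕ) × Vx (Option ℕ)
  have inf : Infinite V := by
    change Infinite (((J (Option ℕ) × ℕ) × ℕ) × Vx (Option ℕ))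
    infer_instance
  have cnt : Countable V := by
    change Countable (((J (Option ℕ) × ℕ) × ℕ) × Vx (Option ℕ))
    infer_instance
  obtain ⟨den⟩ := nonempty_denumerable V
  let ε : V ≃ ℕ := Denumerable.eqv _
  let G : (ℕ → ℕ → Bool) → SimpleGraph V := fun a => bigc (cone (graphOf a))
  have hG : GClp G := by
    have h0 : GClp (fun a : ℕ → ℕ → Bool => graphOf a) := by
      intro v w
      refine (Clp.const _).and ?_
      have h1 : Continuous (fun a : ℕ → ℕ → Bool => a (min v w) (max v w)) :=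
        (continuous_apply _).comp (continuous_apply _)
      exact (isClopen_discrete {true}).preimage h1
    have h1 : GClp (fun a : ℕ → ℕ → Bool => cone (graphOf a)) := by
      rintro (_ | u) (_ | v)
      · exact Clp.const False
      · exact Clp.const True
      · exact Clp.const True
      · exact h0 u v
    exact gclp_big (fun _ => h1) _
  have hnz : Infinite (J (Option ℕ) × ℕ) := inferInstance
  refine ⟨fun a => codeOf ε (G a), continuous_codeOf ε hG, ?_, ?_, ?_⟩
  · intro a
    exact (stable_bigc (cone (graphOf a))).of_iso (codeOfIso ε (G a))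
  · intro a v
    let φ := codeOfIso ε (G a)
    constructor
    · refine ((deg_big (fun _ => cone (graphOf a)) Prod.fst (φ.symm v)).image
        φ.injective.injOn).mono ?_
      rintro _ ⟨w, hw, rfl⟩
      have := φ.map_rel_iff.mpr hw
      rwa [φ.apply_symm_apply] at this
    · refine ((codeg_big (fun _ => cone (graphOf a)) Prod.fst (φ.symm v)).image
        φ.injective.injOn).mono ?_
      rintro _ ⟨w, hw, rfl⟩ h
      apply hw
      change (G a).Adj (φ.symm v) w
      rw [← φ.map_rel_iff, φ.apply_symm_apply]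
      exact h
  · intro a b
    constructor
    · rintro ⟨θ⟩
      obtain ⟨φ⟩ := bigc_iso (coneIso θ)
      exact ⟨((codeOfIso ε (G a)).symm.trans φ).trans (codeOfIso ε (G b))⟩
    · rintro ⟨φ⟩
      exact iso_of_bigc (((codeOfIso ε (G a)).trans φ).trans (codeOfIso ε (G b)).symm)

end Pool.Agent.FinStab
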