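import Pool.Agent.Helper32.FS.Topo

/-!
# Infinitary formulas in the vocabulary of graphs define Borel sets
-/

open Set MeasureTheory

namespace Pool.Agent.FinStab

/-- Formulas of the infinitary logic with countable conjunctions and finite strings of
quantifiers in the vocabulary of graphs; the variables are indexed by the natural numbers. -/
inductive Fml : Type
  | adj (i j : ℕ) : Fml
  | eq (i j : ℕ) : Fml
  | neg (φ : Fml) : Fml
  | conj (φ : ℕ → Fml) : Fml
  | all (i : ℕ) (φ : Fml) : Fml

/-- Satisfaction of a formula in a graph under an assignment of vertices to the variables. -/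
def Sat {V : Type*} (G : SimpleGraph V) : Fml → (ℕ → V) → Prop
  | Fml.adj i j, v => G.Adj (v i) (v j)
  | Fml.eq i j, v => v i = v j
  | Fml.neg φ, v => ¬ Sat G φ v
  | Fml.conj φ, v => ∀ n, Sat G (φ n) v
  | Fml.all i φ, v => ∀ x, Sat G φ (Function.update v i x)

theorem gclp_graphOf : GClp (fun a : ℕ → ℕ → Bool => graphOf a) := by
  intro v w
  refine (Clp.const _).and ?_
  have h1 : Continuous (fun a : ℕ → ℕ → Bool => a (min v w) (max v w)) :=
    (continuous_apply _).comp (continuous_apply _)
  exact (isClopen_discrete {true}).preimage h1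

theorem measurableSet_sat (φ : Fml) : ∀ v : ℕ → ℕ,
    MeasurableSet {a : ℕ → ℕ → Bool | Sat (graphOf a) φ v} := by
  induction φ with
  | adj i j => exact fun v => (gclp_graphOf (v i) (v j)).1.measurableSet
  | eq i j => exact fun v => MeasurableSet.const _
  | neg φ ih => exact fun v => (ih v).compl
  | conj φ ih =>
    intro v
    have : {a : ℕ → ℕ → Bool | Sat (graphOf a) (Fml.conj φ) v} =
        ⋂ n, {a : ℕ → ℕ → Bool | Sat (graphOf a) (φ n) v} := by
      ext a
      rw [mem_iInter]
      rfl
    rw [this]
    exact MeasurableSet.iInter (fun n => ih n v)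
  | all i φ ih =>
    intro v
    have : {a : ℕ → ℕ → Bool | Sat (graphOf a) (Fml.all i φ) v} =
        ⋂ x : ℕ, {a : ℕ → ℕ → Bool | Sat (graphOf a) φ (Function.update v i x)} := by
      ext a
      rw [mem_iInter]
      rfl
    rw [this]
    exact MeasurableSet.iInter (fun x => ih _)

theorem no_formula (φ : Fml) (v : ℕ → ℕ) :
    ¬ ∀ G : SimpleGraph ℕ, (FinitelyStable G ↔ Sat G φ v) := by
  intro h
  apply not_measurable_stable
  have : {a : ℕ → ℕ → Bool | FinitelyStable (graphOf a)} =
      {a : ℕ → ℕ → Bool | Sat (graphOf a) φ v} := by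
    ext a
    exact h (graphOf a)
  rw [this]
  exact measurableSet_sat φ v

/-- no formula separates the finitely stable graphs among the graphs all of whose vertices have
infinitely many neighbours and infinitely many non-neighbours -/
theorem no_formula_infinite (φ : Fml) (v : ℕ → ℕ) :
    ¬ ∀ G : SimpleGraph ℕ, (∀ x, {y | G.Adj x y}.Infinite ∧ {y | ¬ G.Adj x y}.Infinite) →
      (FinitelyStable G ↔ Sat G φ v) := by
  intro h
  obtain ⟨D, hD, hD'⟩ := exists_analytic_not_measurable
  obtain ⟨f, hf, hf2, hfD⟩ := exists_reduction D hD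
  apply hD'
  have : D = f ⁻¹' {a : ℕ → ℕ → Bool | Sat (graphOf a) φ v} := by
    ext x
    rw [hfD x]
    exact h (graphOf (f x)) (hf2 x)
  rw [this]
  exact hf.measurable (measurableSet_sat φ v)

end Pool.Agent.FinStab
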