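import Pool.Agent.Helper32.FS.Defs

/-!
# The disjoint union of all finite changes of `ω · B` is finitely stable
-/

open Set

namespace Pool.Agent.FinStab

variable {I β : Type*}

theorem finite_pat_block (τ : I → Finset (Sym2 (ℕ × β))) (S : Set I) (hS : S.Finite) :
    {e ∈ pat τ | ∀ v ∈ e, v.1.1 ∈ S}.Finite := by
  have h : {e ∈ pat τ | ∀ v ∈ e, v.1.1 ∈ S} ⊆
      ⋃ i ∈ S, (Sym2.map (fun v : ℕ × β => ((i, v.1), v.2))) '' (τ i : Set (Sym2 (ℕ × β))) := by
    rintro e ⟨⟨i, f, hf, rfl⟩, he⟩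
    have hi : i ∈ S := by
      induction f using Sym2.ind with
      | _ v w =>
        have := he ((i, v.1), v.2) (by
          rw [Sym2.map_mk]
          exact Sym2.mem_mk_left _ _)
        exact this
    simp only [mem_iUnion]
    exact ⟨i, hi, f, hf, rfl⟩
  refine Set.Finite.subset ?_ h
  exact hS.biUnion (fun i _ => ((τ i).finite_toSet).image _)

theorem stable_of_rich [Countable I] [Nonempty I] (B : SimpleGraph β)
    (τ : I → Finset (Sym2 (ℕ × β))) (hτ : Rich τ) :
    FinitelyStable (flip (copies (fun _ : I × ℕ => B)) (pat τ)) := by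
  classical
  intro F hF hdiag
  set K := copies (fun _ : I × ℕ => B) with hK
  -- the touched blocks
  obtain ⟨i₀⟩ := ‹Nonempty I›
  have hT : (⋃ e ∈ F, {i : I | ∃ v ∈ e, (v : (I × ℕ) × β).1.1 = i}).Finite := by
    refine hF.biUnion (fun e _ => ?_)
    induction e using Sym2.ind with
    | _ v w =>
      refine Set.Finite.subset (Set.toFinite {v.1.1, w.1.1}) ?_
      rintro i ⟨u, hu, rfl⟩
      rcases Sym2.mem_iff.mp hu with rfl | rfl
      · exact Or.inl rfl
      · exact Or.inr rfl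
  set S : Set I := insert i₀ (⋃ e ∈ F, {i : I | ∃ v ∈ e, (v : (I × ℕ) × β).1.1 = i}) with hS
  have hSf : S.Finite := hT.insert _
  have hFS : ∀ v w, s(v, w) ∈ F → v.1.1 ∈ S ∧ w.1.1 ∈ S := by
    intro v w h
    constructor
    · refine Or.inr ?_
      simp only [mem_iUnion]
      exact ⟨_, h, v, Sym2.mem_mk_left _ _, rfl⟩
    · refine Or.inr ?_
      simp only [mem_iUnion]
      exact ⟨_, h, w, Sym2.mem_mk_right _ _, rfl⟩
  have : Nonempty {i // i ∈ S} := ⟨⟨i₀, Or.inl rfl⟩⟩
  have : Infinite ({i // i ∈ S} × ℕ) := inferInstance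
  obtain ⟨den⟩ := nonempty_denumerable ({i // i ∈ S} × ℕ)
  let σ : ({i // i ∈ S} × ℕ) ≃ ℕ := Denumerable.eqv _
  -- the merged block
  let j : ℕ × β → (I × ℕ) × β := fun v => ((((σ.symm v.1).1 : I), (σ.symm v.1).2), v.2)
  have hj : Function.Injective j := by
    rintro ⟨n, x⟩ ⟨m, y⟩ h
    simp only [j, Prod.mk.injEq] at h
    obtain ⟨⟨h1, h2⟩, h3⟩ := h
    have : σ.symm n = σ.symm m := Prod.ext (Subtype.ext h1) h2
    rw [σ.symm.injective this, h3]
  have hjS : ∀ v, (j v).1.1 ∈ S := fun v => (σ.symm v.1).1.2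
  set Ψ : Set (Sym2 ((I × ℕ) × β)) := {e | ¬ (e ∈ pat τ ↔ e ∈ F)} with hΨ
  have hP : (Sym2.map j ⁻¹' Ψ).Finite := by
    refine Set.Finite.subset ((((finite_pat_block τ S hSf).union hF)).preimage
      ((Sym2.map.injective hj).injOn)) ?_
    intro e he
    change ¬ (Sym2.map j e ∈ pat τ ↔ Sym2.map j e ∈ F) at he
    by_cases h : Sym2.map j e ∈ F
    · exact Or.inr h
    · left
      refine ⟨?_, ?_⟩
      · by_contra h'
        exact he ⟨fun h1 => absurd h1 h', fun h1 => absurd h1 h⟩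
      · intro v hv
        rw [Sym2.mem_map] at hv
        obtain ⟨u, _, rfl⟩ := hv
        exact hjS u
  -- new index set
  let f : Option {i // i ∉ S} → Finset (Sym2 (ℕ × β)) := fun o =>
    o.elim hP.toFinset (fun i => τ i)
  have hf : ∀ F', (f ⁻¹' {F'}).Infinite := by
    intro F'
    have h1 : ((τ ⁻¹' {F'}) \ S).Infinite := (hτ F').sdiff hSf
    have h2 : (some '' {i : {i // i ∉ S} | τ i = F'}).Infinite := by
      refine Set.Infinite.image (Option.some_injective _).injOn ?_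
      intro hfin
      apply h1
      refine (hfin.image (Subtype.val)).subset ?_
      rintro i ⟨hi1, hi2⟩
      exact ⟨⟨i, hi2⟩, hi1, rfl⟩
    refine h2.mono ?_
    rintro _ ⟨i, hi, rfl⟩
    exact hi
  obtain ⟨e, he⟩ := exists_equiv_of_rich f τ hf hτ
  -- the permutation of the copies
  let π : (I × ℕ) ≃ (I × ℕ) :=
    (Equiv.prodCongr (Equiv.sumCompl (fun i => i ∈ S)).symm (Equiv.refl ℕ)).trans
      ((Equiv.sumProdDistrib _ _ _).trans
        ((Equiv.sumCongr (σ.trans (Equiv.punitProd.{0, 0} ℕ).symm) (Equiv.refl _)).trans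
          ((Equiv.sumProdDistrib Unit {i // i ∉ S} ℕ).symm.trans
            (Equiv.prodCongr (((Equiv.sumComm _ _).trans
              (Equiv.optionEquivSumPUnit.{0, _} _).symm).trans e)
              (Equiv.refl ℕ)))))
  have hπ1 : ∀ (i : I) (h : i ∈ S) (k : ℕ), π (i, k) = (e none, σ (⟨i, h⟩, k)) := by
    intro i h k
    simp [π, Equiv.sumCompl_symm_apply_of_pos, h]
  have hπ2 : ∀ (i : I) (h : i ∉ S) (k : ℕ), π (i, k) = (e (some ⟨i, h⟩), k) := by
    intro i h k
    simp [π, Equiv.sumCompl_symm_apply_of_neg, h]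
  clear_value π
  refine ⟨⟨Equiv.prodCongr π (Equiv.refl β), ?_⟩⟩
  rintro ⟨⟨i, k⟩, x⟩ ⟨⟨i', l⟩, y⟩
  change (flip K (pat τ)).Adj (π (i, k), x) (π (i', l), y) ↔
    (flip (flip K (pat τ)) F).Adj ((i, k), x) ((i', l), y)
  rw [flip_adj, flip_adj, flip_adj]
  have hK1 : K.Adj (π (i, k), x) (π (i', l), y) ↔ K.Adj ((i, k), x) ((i', l), y) := by
    rw [hK, copies_adj, copies_adj, π.injective.eq_iff]
  have hne : ((π (i, k), x) ≠ (π (i', l), y)) ↔ (((i, k), x) ≠ ((i', l), y)) := by
    exact (Equiv.prodCongr π (Equiv.refl β)).injective.ne_iff (x := ((i, k), x))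
      (y := ((i', l), y))
  have hmain : s((π (i, k), x), (π (i', l), y)) ∈ pat τ ↔
      ¬ (s(((i, k), x), ((i', l), y)) ∈ pat τ ↔ s(((i, k), x), ((i', l), y)) ∈ F) := by
    by_cases hi : i ∈ S
    · by_cases hi' : i' ∈ S
      · rw [hπ1 i hi, hπ1 i' hi', mem_pat, he none]
        have h1 : s((σ (⟨i, hi⟩, k), x), (σ (⟨i', hi'⟩, l), y)) ∈ f none ↔
            Sym2.map j s((σ (⟨i, hi⟩, k), x), (σ (⟨i', hi'⟩, l), y)) ∈ Ψ := by
          change _ ∈ hP.toFinset ↔ _
          rw [Set.Finite.mem_toFinset]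
          rfl
        rw [h1, Sym2.map_mk]
        have h2 : j (σ (⟨i, hi⟩, k), x) = ((i, k), x) := by
          simp [j]
        have h3 : j (σ (⟨i', hi'⟩, l), y) = ((i', l), y) := by
          simp [j]
        rw [h2, h3]
        simp only [true_and]
        rfl
      · rw [hπ1 i hi, hπ2 i' hi', mem_pat, mem_pat]
        have h1 : e none ≠ e (some ⟨i', hi'⟩) := fun h => by
          have := e.injective h
          simp at this
        have h2 : i ≠ i' := fun h => hi' (h ▸ hi)
        have h3 : s(((i, k), x), ((i', l), y)) ∉ F := fun h => hi' (hFS _ _ h).2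
        simp [h1, h2, h3]
    · by_cases hi' : i' ∈ S
      · rw [hπ2 i hi, hπ1 i' hi', mem_pat, mem_pat]
        have h1 : e (some ⟨i, hi⟩) ≠ e none := fun h => by
          have := e.injective h
          simp at this
        have h2 : i ≠ i' := fun h => hi (h ▸ hi')
        have h3 : s(((i, k), x), ((i', l), y)) ∉ F := fun h => hi (hFS _ _ h).1
        simp [h1, h2, h3]
      · rw [hπ2 i hi, hπ2 i' hi', mem_pat, mem_pat, he (some ⟨i, hi⟩)]
        have h1 : e (some ⟨i, hi⟩) = e (some ⟨i', hi'⟩) ↔ i = i' := by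
          rw [e.injective.eq_iff, Option.some_inj, Subtype.mk.injEq]
        have h3 : s(((i, k), x), ((i', l), y)) ∉ F := fun h => hi (hFS _ _ h).1
        rw [h1]
        have h4 : f (some ⟨i, hi⟩) = τ i := rfl
        rw [h4]
        simp [h3]
  rw [hK1, hne, hmain]
  tauto

end Pool.Agent.FinStab
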