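import Pool.Agent.Helper32.FS.Core

/-!
# Topology of the space of graphs on the natural numbers
-/

open Set MeasureTheory

namespace Pool.Agent.FinStab

/-- The simple graph on `ℕ` coded by `a`: for `x < y` the pair `{x, y}` is an edge iff
`a x y = true`. -/
def graphOf (a : ℕ → ℕ → Bool) : SimpleGraph ℕ where
  Adj x y := x ≠ y ∧ a (min x y) (max x y) = true
  symm := ⟨by
    rintro x y ⟨h1, h2⟩
    refine ⟨h1.symm, ?_⟩
    rw [min_comm, max_comm]
    exact h2⟩
  loopless := ⟨fun x h => h.1 rfl⟩

section Clp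

variable {X : Type*} [TopologicalSpace X]

/-- a property that defines a clopen set -/
def Clp (P : X → Prop) : Prop := IsClopen {x | P x}

theorem Clp.const (p : Prop) : Clp (fun _ : X => p) := ⟨isClosed_const, isOpen_const⟩

theorem Clp.and {P Q : X → Prop} (hP : Clp P) (hQ : Clp Q) : Clp (fun x => P x ∧ Q x) :=
  IsClopen.inter hP hQ

theorem Clp.or {P Q : X → Prop} (hP : Clp P) (hQ : Clp Q) : Clp (fun x => P x ∨ Q x) :=
  IsClopen.union hP hQ

theorem Clp.not {P : X → Prop} (hP : Clp P) : Clp (fun x => ¬ P x) :=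
  IsClopen.compl hP

theorem Clp.iff {P Q : X → Prop} (hP : Clp P) (hQ : Clp Q) : Clp (fun x => (P x ↔ Q x)) := by
  have h : (fun x => (P x ↔ Q x)) = fun x => (P x ∧ Q x) ∨ (¬ P x ∧ ¬ Q x) := by
    funext x
    exact propext iff_iff_and_or_not_and_not
  rw [h]
  exact (hP.and hQ).or (hP.not.and hQ.not)

theorem Clp.subst {u : X → ℕ} (hu : Continuous u) {Q : ℕ → X → Prop} (hQ : ∀ k, Clp (Q k)) :
    Clp (fun x => Q (u x) x) := by
  have h1 : ∀ Q : ℕ → X → Prop, (∀ k, Clp (Q k)) → IsOpen {x | Q (u x) x} := by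
    intro Q hQ
    have : {x | Q (u x) x} = ⋃ k, ({x | u x = k} ∩ {x | Q k x}) := by
      ext x
      simp
    rw [this]
    refine isOpen_iUnion (fun k => IsOpen.inter ?_ (hQ k).2)
    exact (isOpen_discrete {k}).preimage hu
  refine ⟨?_, h1 Q hQ⟩
  rw [← isOpen_compl_iff]
  exact h1 (fun k x => ¬ Q k x) (fun k => (hQ k).not)

theorem Clp.pre {u : X → ℕ → ℕ} (hu : Continuous u) (n : ℕ) (Q : List ℕ → X → Prop)
    (hQ : ∀ s, Clp (Q s)) : Clp (fun x => Q (pre (u x) n) x) := by
  induction n generalizing Q with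
  | zero => exact hQ []
  | succ n ih =>
    refine ih (fun s x => Q (u x n :: s) x) (fun s => ?_)
    exact Clp.subst (u := fun x => u x n) ((continuous_apply n).comp hu)
      (Q := fun k x => Q (k :: s) x) (fun k => hQ _)

theorem clp_eq {u : X → ℕ} (hu : Continuous u) (k : ℕ) : Clp (fun x => u x = k) :=
  (isClopen_discrete {k}).preimage hu

/-- graphs depending continuously on a parameter -/
def GClp {V : Type*} (G : X → SimpleGraph V) : Prop := ∀ v w, Clp (fun x => (G x).Adj v w)

theorem gclp_flip {V : Type*} {G : X → SimpleGraph V} (hG : GClp G) (F : Set (Sym2 V)) :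
    GClp (fun x => flip (G x) F) := fun _ _ =>
  (Clp.const _).and (((hG _ _).iff (Clp.const _)).not)

theorem gclp_copies {C β : Type*} {B : X → C → SimpleGraph β} (hB : ∀ c, GClp (fun x => B x c)) :
    GClp (fun x => copies (B x)) := fun v w =>
  (Clp.const _).and (hB v.1 v.2 w.2)

theorem gclp_cliq {V : Type*} {G : X → SimpleGraph V} (hG : GClp G) :
    GClp (fun x => cliq (G x)) := fun _ _ =>
  (Clp.const _).or ((Clp.const _).and ((Clp.const _).and (hG _ _)))

theorem gclp_hat {α : Type*} {G : X → SimpleGraph α} (hG : GClp G) :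
    GClp (fun x => hat (G x)) := by
  rintro (u | ⟨a, b, i⟩) (v | ⟨a', b', i'⟩)
  · exact Clp.const False
  · exact (Clp.const _).or ((Clp.const _).and (hG _ _))
  · exact (Clp.const _).or ((Clp.const _).and (hG _ _))
  · exact Clp.const False

theorem gclp_big {α I : Type*} {H : X → I × ℕ → SimpleGraph α} (hH : ∀ c, GClp (fun x => H x c))
    (τ : I → Finset (Sym2 (ℕ × Vx α))) : GClp (fun x => big (H x) τ) :=
  gclp_flip (gclp_copies (fun c => gclp_cliq (gclp_hat (hH c)))) _

theorem gclp_tw {S : X → Set (List ℕ)} (hS : ∀ s, Clp (fun x => s ∈ S x)) (t : Bool) :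
    GClp (fun x => tw (S x) t) := by
  have h : ∀ v w, Clp (fun x => TR (S x) t v w) := by
    intro v w
    cases v with
    | p s b => cases w <;> exact Clp.const False
    | q s f =>
      cases w with
      | p s' b => exact Clp.const _
      | e s' f' n => exact Clp.const _
      | q s' f' => exact Clp.const False
      | l s' => exact Clp.const False
      | m i => exact Clp.const False
    | e s f n =>
      cases w with
      | p s' b => exact Clp.const _
      | e s' f' n => exact Clp.const False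
      | q s' f' => exact Clp.const False
      | l s' => exact Clp.const False
      | m i => exact Clp.const False
    | l s =>
      cases w with
      | p s' b => exact (Clp.const _).and ((Clp.const _).or (hS s))
      | e s' f' n => exact Clp.const False
      | q s' f' => exact Clp.const False
      | l s' => exact Clp.const False
      | m i => exact Clp.const False
    | m i =>
      cases w with
      | p s' b => exact Clp.const _
      | e s' f' n => exact Clp.const False
      | q s' f' => exact Clp.const False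
      | l s' => exact Clp.const False
      | m i => exact Clp.const _
  exact fun v w => (h v w).or (h w v)

theorem gclp_gam {S : X → Set (List ℕ)} (hS : ∀ s, Clp (fun x => s ∈ S x)) :
    GClp (fun x => gam (S x)) :=
  gclp_big (fun _ => gclp_tw hS _) _

end Clp

section codes

variable {V : Type*}

open Classical in
/-- the code of a graph on a countable set -/
noncomputable def codeOf (ε : V ≃ ℕ) (G : SimpleGraph V) : ℕ → ℕ → Bool :=
  fun i j => decide (G.Adj (ε.symm i) (ε.symm j))

theorem codeOf_iff (ε : V ≃ ℕ) (G : SimpleGraph V) (i j : ℕ) :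
    codeOf ε G i j = true ↔ G.Adj (ε.symm i) (ε.symm j) := by
  simp [codeOf]

/-- the coded graph is isomorphic to the given one -/
noncomputable def codeOfIso (ε : V ≃ ℕ) (G : SimpleGraph V) : G ≃g graphOf (codeOf ε G) where
  toEquiv := ε
  map_rel_iff' := by
    intro x y
    change (ε x ≠ ε y ∧ codeOf ε G (min (ε x) (ε y)) (max (ε x) (ε y)) = true) ↔ G.Adj x y
    rw [codeOf_iff]
    rcases le_total (ε x) (ε y) with h | h
    · rw [min_eq_left h, max_eq_right h, ε.symm_apply_apply, ε.symm_apply_apply]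
      exact ⟨fun h => h.2, fun h => ⟨fun h' => h.ne (ε.injective h'), h⟩⟩
    · rw [min_eq_right h, max_eq_left h, ε.symm_apply_apply, ε.symm_apply_apply]
      exact ⟨fun h => h.2.symm, fun h => ⟨fun h' => h.ne (ε.injective h'), h.symm⟩⟩

theorem continuous_codeOf {X : Type*} [TopologicalSpace X] (ε : V ≃ ℕ) {G : X → SimpleGraph V}
    (hG : GClp G) : Continuous (fun x => codeOf ε (G x)) := by
  refine continuous_pi (fun i => continuous_pi (fun j => ?_))
  rw [continuous_bool_rng true]
  have h : (fun x => codeOf ε (G x) i j) ⁻¹' {true} = {x | (G x).Adj (ε.symm i) (ε.symm j)} := by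
    ext x
    simp [codeOf]
  rw [h]
  exact hG _ _

end codes

/-! ### Analytic sets and trees -/

theorem pre_eq_iff (x y : ℕ → ℕ) (n : ℕ) : pre x n = pre y n ↔ ∀ i < n, x i = y i := by
  induction n with
  | zero => simp [pre]
  | succ n ih =>
    simp only [pre, List.cons.injEq]
    rw [ih]
    constructor
    · rintro ⟨h1, h2⟩ i hi
      rcases Nat.lt_succ_iff_lt_or_eq.mp hi with h | rfl
      · exact h2 i h
      · exact h1
    · intro h
      exact ⟨h n (Nat.lt_succ_self n), fun i hi => h i (Nat.lt_succ_of_lt hi)⟩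

theorem tree_of_analytic (A : Set (ℕ → ℕ)) (hA : AnalyticSet A) :
    ∃ R : Set (List ℕ × List ℕ), ∀ x, x ∈ A ↔ ∃ z : ℕ → ℕ, ∀ n, (pre x n, pre z n) ∈ R := by
  rw [AnalyticSet] at hA
  rcases hA with rfl | ⟨g, hg, rfl⟩
  · refine ⟨∅, fun x => ?_⟩
    constructor
    · intro h
      exact absurd h (notMem_empty _)
    · rintro ⟨z, hz⟩
      exact absurd (hz 0) (notMem_empty _)
  · refine ⟨{p | ∃ z' : ℕ → ℕ, ∃ n, p = (pre (g z') n, pre z' n)}, fun x => ?_⟩
    constructor
    · rintro ⟨z, rfl⟩
      exact ⟨z, fun n => ⟨z, n, rfl⟩⟩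
    · rintro ⟨z, hz⟩
      refine ⟨z, ?_⟩
      have h1 : ∀ n, ∃ z' : ℕ → ℕ, (∀ i < n, x i = g z' i) ∧ ∀ i < n, z i = z' i := by
        intro n
        obtain ⟨z', m, h⟩ := hz n
        obtain ⟨h2, h3⟩ := Prod.ext_iff.mp h
        have hnm : n = m := by
          have := congrArg List.length h2
          simpa [pre_length] using this
        subst hnm
        exact ⟨z', (pre_eq_iff _ _ n).mp h2, (pre_eq_iff _ _ n).mp h3⟩
      choose w hw1 hw2 using h1
      have h2 : Filter.Tendsto w Filter.atTop (nhds z) := by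
        rw [tendsto_pi_nhds]
        intro i
        refine tendsto_const_nhds.congr' ?_
        filter_upwards [Filter.eventually_gt_atTop i] with n hn
        exact hw2 n i hn
      have h3 : Filter.Tendsto (fun n => g (w n)) Filter.atTop (nhds (g z)) :=
        (hg.tendsto z).comp h2
      have h4 : Filter.Tendsto (fun n => g (w n)) Filter.atTop (nhds x) := by
        rw [tendsto_pi_nhds]
        intro i
        refine tendsto_const_nhds.congr' ?_
        filter_upwards [Filter.eventually_gt_atTop i] with n hn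
        exact hw1 n i hn
      exact tendsto_nhds_unique h3 h4

/-- there is an analytic set of sequences that is not Borel -/
theorem exists_analytic_not_measurable :
    ∃ D : Set (ℕ → ℕ), AnalyticSet D ∧ ¬ MeasurableSet D := by
  classical
  let enc : List ℕ × List ℕ → ℕ := Encodable.encode
  have henc : Function.Injective enc := Encodable.encode_injective
  let D : Set (ℕ → ℕ) := {x | ∃ z : ℕ → ℕ, ∀ n, x (enc (pre x n, pre z n)) = 0}
  have hD : AnalyticSet D := by
    have h1 : IsClosed {p : (ℕ → ℕ) × (ℕ → ℕ) | ∀ n, p.1 (enc (pre p.1 n, pre p.2 n)) = 0} := by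
      rw [Set.ofPred_forall]
      refine isClosed_iInter (fun n => ?_)
      refine (Clp.pre (X := (ℕ → ℕ) × (ℕ → ℕ)) (u := fun p => p.1) continuous_fst n
        (fun s p => p.1 (enc (s, pre p.2 n)) = 0) (fun s => ?_)).1
      refine Clp.pre (X := (ℕ → ℕ) × (ℕ → ℕ)) (u := fun p => p.2) continuous_snd n
        (fun s' p => p.1 (enc (s, s')) = 0) (fun s' => ?_)
      exact clp_eq ((continuous_apply _).comp continuous_fst) 0
    have h2 := (h1.analyticSet).image_of_continuous (continuous_fst)
    convert h2 using 1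
    ext x
    constructor
    · rintro ⟨z, hz⟩
      exact ⟨(x, z), hz, rfl⟩
    · rintro ⟨⟨x', z⟩, hz, rfl⟩
      exact ⟨z, hz⟩
  refine ⟨D, hD, fun hm => ?_⟩
  obtain ⟨R, hR⟩ := tree_of_analytic Dᶜ hm.compl.analyticSet
  let y : ℕ → ℕ := fun k => if ∃ p, enc p = k ∧ p ∈ R then 0 else 1
  have hy : ∀ p, y (enc p) = 0 ↔ p ∈ R := by
    intro p
    constructor
    · intro h
      by_contra hp
      have : ¬ ∃ q, enc q = enc p ∧ q ∈ R := by
        rintro ⟨q, h1, h2⟩
        rw [henc h1] at h2
        exact hp h2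
      simp only [y, if_neg this] at h
      exact absurd h (by norm_num)
    · intro h
      exact if_pos ⟨p, rfl, h⟩
  have h1 : y ∈ D ↔ y ∈ Dᶜ := by
    rw [hR y]
    constructor
    · rintro ⟨z, hz⟩
      exact ⟨z, fun n => (hy _).mp (hz n)⟩
    · rintro ⟨z, hz⟩
      exact ⟨z, fun n => (hy _).mpr (hz n)⟩
  by_cases h : y ∈ D
  · exact (h1.mp h) h
  · exact h (h1.mpr h)

/-! ### The set of finitely stable graphs is analytic -/

theorem analytic_iso (F : Set (Sym2 ℕ)) :
    AnalyticSet {a : ℕ → ℕ → Bool | Nonempty (flip (graphOf a) F ≃g graphOf a)} := by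
  let X := (ℕ → ℕ → Bool) × ((ℕ → ℕ) × (ℕ → ℕ))
  have pol : PolishSpace X := by
    have h1 : TopologicalSpace.IsCompletelyMetrizableSpace X := by
      change TopologicalSpace.IsCompletelyMetrizableSpace
        ((ℕ → ℕ → Bool) × ((ℕ → ℕ) × (ℕ → ℕ)))
      infer_instance
    have h2 : SecondCountableTopology X := by
      change SecondCountableTopology ((ℕ → ℕ → Bool) × ((ℕ → ℕ) × (ℕ → ℕ)))
      infer_instance
    exact { h2, h1 with }
  have hg : ∀ n, Continuous (fun p : X => p.2.1 n) := fun n =>
    (continuous_apply n).comp (continuous_fst.comp continuous_snd)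
  have hh : ∀ n, Continuous (fun p : X => p.2.2 n) := fun n =>
    (continuous_apply n).comp (continuous_snd.comp continuous_snd)
  have hadj : GClp (fun p : X => graphOf p.1) := by
    intro v w
    refine (Clp.const _).and ?_
    have h1 : Continuous (fun p : X => p.1 (min v w) (max v w)) :=
      (continuous_apply _).comp ((continuous_apply _).comp continuous_fst)
    exact (isClopen_discrete {true}).preimage h1
  have h1 : IsClosed {p : X | (∀ n, p.2.2 (p.2.1 n) = n) ∧ (∀ n, p.2.1 (p.2.2 n) = n) ∧
      ∀ x y, (graphOf p.1).Adj (p.2.1 x) (p.2.1 y) ↔ (flip (graphOf p.1) F).Adj x y} := by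
    rw [Set.ofPred_and, Set.ofPred_and, Set.ofPred_forall, Set.ofPred_forall, Set.ofPred_forall]
    refine (isClosed_iInter (fun n => ?_)).inter ((isClosed_iInter (fun n => ?_)).inter
      (isClosed_iInter (fun x => ?_)))
    · exact (Clp.subst (hg n) (Q := fun k p => p.2.2 k = n) (fun k => clp_eq (hh k) n)).1
    · exact (Clp.subst (hh n) (Q := fun k p => p.2.1 k = n) (fun k => clp_eq (hg k) n)).1
    · rw [Set.ofPred_forall]
      refine isClosed_iInter (fun y => ?_)
      refine (Clp.iff ?_ (gclp_flip hadj F x y)).1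
      refine Clp.subst (hg x) (Q := fun k p => (graphOf p.1).Adj k (p.2.1 y)) (fun k => ?_)
      exact Clp.subst (hg y) (Q := fun l p => (graphOf p.1).Adj k l) (fun l => hadj k l)
  have h2 := (h1.analyticSet).image_of_continuous (continuous_fst)
  convert h2 using 1
  ext a
  constructor
  · rintro ⟨φ⟩
    refine ⟨(a, (φ, φ.symm)), ⟨fun n => φ.symm_apply_apply n, fun n => φ.apply_symm_apply n,
      fun x y => φ.map_rel_iff⟩, rfl⟩
  · rintro ⟨⟨a', g, h⟩, ⟨h3, h4, h5⟩, rfl⟩
    exact ⟨⟨⟨g, h, h3, h4⟩, fun {x y} => h5 x y⟩⟩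

theorem analytic_stable : AnalyticSet {a : ℕ → ℕ → Bool | FinitelyStable (graphOf a)} := by
  let ι := {F : Finset (Sym2 ℕ) // ∀ e ∈ F, ¬ e.IsDiag}
  have hne : Nonempty ι := ⟨⟨∅, by simp⟩⟩
  have h : {a : ℕ → ℕ → Bool | FinitelyStable (graphOf a)} =
      ⋂ F : ι, {a : ℕ → ℕ → Bool | Nonempty (flip (graphOf a) (F.1 : Set (Sym2 ℕ)) ≃g graphOf a)} := by
    ext a
    rw [mem_iInter]
    constructor
    · intro h F
      exact h _ F.1.finite_toSet F.2
    · intro h F hF hd
      have := h ⟨hF.toFinset, fun e he => hd e ((hF.mem_toFinset).mp he)⟩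
      simpa using this
  rw [h]
  exact AnalyticSet.iInter (fun F => analytic_iso _)

/-! ### Completeness -/

instance : Infinite Vt := by
  have : Infinite (Vx TV) := inferInstance
  have : Nonempty ((J TV × ℕ) × ℕ) := ⟨sc⟩
  infer_instance

theorem exists_reduction (A : Set (ℕ → ℕ)) (hA : AnalyticSet A) :
    ∃ f : (ℕ → ℕ) → ℕ → ℕ → Bool, Continuous f ∧
      (∀ x v, {w | (graphOf (f x)).Adj v w}.Infinite ∧ {w | ¬ (graphOf (f x)).Adj v w}.Infinite) ∧
      ∀ x, x ∈ A ↔ FinitelyStable (graphOf (f x)) := by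
  obtain ⟨R, hR⟩ := tree_of_analytic A hA
  obtain ⟨den⟩ := nonempty_denumerable Vt
  let ε : Vt ≃ ℕ := Denumerable.eqv _
  let S : (ℕ → ℕ) → Set (List ℕ) := fun x => {s | (pre x s.length, s) ∈ R}
  have hS : ∀ s, Clp (fun x => s ∈ S x) := by
    intro s
    exact Clp.pre (u := fun x => x) continuous_id s.length (fun u _ => (u, s) ∈ R)
      (fun u => Clp.const _)
  refine ⟨fun x => codeOf ε (gam (S x)), continuous_codeOf ε (gclp_gam hS), ?_, ?_⟩
  · intro x v
    let φ := codeOfIso ε (gam (S x))
    constructor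
    · refine ((deg_gam (S x) (φ.symm v)).image φ.injective.injOn).mono ?_
      rintro _ ⟨w, hw, rfl⟩
      have := φ.map_rel_iff.mpr hw
      rwa [φ.apply_symm_apply] at this
    · refine ((codeg_gam (S x) (φ.symm v)).image φ.injective.injOn).mono ?_
      rintro _ ⟨w, hw, rfl⟩ h
      apply hw
      rw [← φ.map_rel_iff, φ.apply_symm_apply]
      exact h
  · intro x
    rw [← finitelyStable_iff_of_iso (codeOfIso ε (gam (S x))), stable_iff_branch, hR]
    refine exists_congr (fun z => forall_congr' (fun n => ?_))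
    change _ ↔ (pre x (pre z n).length, pre z n) ∈ R
    rw [pre_length]

theorem not_measurable_stable :
    ¬ MeasurableSet {a : ℕ → ℕ → Bool | FinitelyStable (graphOf a)} := by
  intro h
  obtain ⟨D, hD, hD'⟩ := exists_analytic_not_measurable
  obtain ⟨f, hf, _, hfD⟩ := exists_reduction D hD
  apply hD'
  have : D = f ⁻¹' {a : ℕ → ℕ → Bool | FinitelyStable (graphOf a)} := by
    ext x
    exact hfD x
  rw [this]
  exact hf.measurable h

end Pool.Agent.FinStab
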