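import Pool.Agent.Helper32.FS.Decode

/-!
# Twisted trees

For a set `S` of finite sequences of natural numbers (written as lists, last entry first) and a
bit `t` we define a graph `tw S t`; the graphs `tw S false` and `tw S true` are isomorphic if
`S` has an infinite branch.
-/

open Set

namespace Pool.Agent.FinStab

/-- vertices of the twisted trees -/
inductive TV
  | p (s : List ℕ) (b : Bool)
  | q (s : List ℕ) (f : Finset ℕ)
  | e (s : List ℕ) (f : Finset ℕ) (n : ℕ)
  | l (s : List ℕ)
  | m (i : Bool)
  deriving Countable

instance : Nonempty TV := ⟨TV.m true⟩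

instance : Infinite TV := Infinite.of_injective (fun s : List ℕ => TV.l s)
  (fun s t h => by simpa using h)

/-- parity of a finite set -/
def par (f : Finset ℕ) : Bool := Nat.bodd f.card

/-- half of the adjacency relation -/
def TR (S : Set (List ℕ)) (t : Bool) : TV → TV → Prop
  | TV.q s f, TV.p s' b => s = s' ∧ b = par f
  | TV.q s f, TV.e s' f' _ => s = s' ∧ f = f'
  | TV.e s f n, TV.p s' b => s' = n :: s ∧ (b = true ↔ n ∈ f)
  | TV.l s, TV.p s' b => s = s' ∧ (b = false ∨ s ∈ S)
  | TV.m i, TV.m j => i ≠ j
  | TV.m _, TV.p s b => s = [] ∧ b = t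
  | _, _ => False

/-- the twisted tree -/
def tw (S : Set (List ℕ)) (t : Bool) : SimpleGraph TV where
  Adj x y := TR S t x y ∨ TR S t y x
  symm := ⟨fun x y h => h.symm⟩
  loopless := ⟨by
    intro x h
    have h' : TR S t x x := by
      rcases h with h | h <;> exact h
    cases x <;> simp [TR] at h'⟩

theorem tw_adj (S : Set (List ℕ)) (t : Bool) (x y : TV) :
    (tw S t).Adj x y ↔ TR S t x y ∨ TR S t y x := Iff.rfl

/-- toggle membership -/
def toggle (n : ℕ) (f : Finset ℕ) : Finset ℕ := if n ∈ f then f.erase n else insert n f

theorem mem_toggle (n k : ℕ) (f : Finset ℕ) : k ∈ toggle n f ↔ ¬ (k ∈ f ↔ k = n) := by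
  unfold toggle
  split_ifs with h
  · rw [Finset.mem_erase]
    by_cases hk : k = n
    · subst hk; simp [h]
    · simp [hk]
  · rw [Finset.mem_insert]
    by_cases hk : k = n
    · subst hk; simp [h]
    · simp [hk]

theorem toggle_toggle (n : ℕ) (f : Finset ℕ) : toggle n (toggle n f) = f := by
  ext k
  rw [mem_toggle, mem_toggle]
  tauto

theorem par_toggle (n : ℕ) (f : Finset ℕ) : par (toggle n f) = !par f := by
  unfold toggle par
  split_ifs with h
  · have h1 : f.card = (f.erase n).card + 1 := (Finset.card_erase_add_one h).symm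
    rw [h1, Nat.bodd_succ, Bool.not_not]
  · rw [Finset.card_insert_of_notMem h, Nat.bodd_succ]

/-- initial segments, last entry first -/
def pre (z : ℕ → ℕ) : ℕ → List ℕ
  | 0 => []
  | n + 1 => z n :: pre z n

theorem pre_length (z : ℕ → ℕ) (n : ℕ) : (pre z n).length = n := by
  induction n with
  | zero => rfl
  | succ n ih => simp [pre, ih]

/-- being an initial segment of `z` -/
def Br (z : ℕ → ℕ) (s : List ℕ) : Prop := s = pre z s.length

theorem br_nil (z : ℕ → ℕ) : Br z [] := rfl

theorem br_cons (z : ℕ → ℕ) (n : ℕ) (s : List ℕ) :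
    Br z (n :: s) ↔ Br z s ∧ n = z s.length := by
  unfold Br
  simp only [List.length_cons, pre, List.cons.injEq]
  tauto

open Classical in
/-- the bit of a node: is it on the branch? -/
noncomputable def bit (z : ℕ → ℕ) (s : List ℕ) : Bool := decide (Br z s)

theorem bit_eq_true (z : ℕ → ℕ) (s : List ℕ) : bit z s = true ↔ Br z s := by
  simp [bit]

open Classical in
/-- toggling along the branch -/
noncomputable def tf (z : ℕ → ℕ) (s : List ℕ) (f : Finset ℕ) : Finset ℕ :=
  if Br z s then toggle (z s.length) f else f

theorem tf_tf (z : ℕ → ℕ) (s : List ℕ) (f : Finset ℕ) : tf z s (tf z s f) = f := by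
  unfold tf
  split_ifs
  · exact toggle_toggle _ _
  · rfl

theorem par_tf (z : ℕ → ℕ) (s : List ℕ) (f : Finset ℕ) :
    par (tf z s f) = (par f ^^ bit z s) := by
  unfold tf
  split_ifs with h
  · rw [par_toggle, (bit_eq_true z s).mpr h, Bool.xor_true]
  · have : bit z s = false := by
      rw [← Bool.not_eq_true, bit_eq_true]; exact h
    rw [this, Bool.xor_false]

theorem mem_tf (z : ℕ → ℕ) (s : List ℕ) (f : Finset ℕ) (n : ℕ) :
    n ∈ tf z s f ↔ ¬ (n ∈ f ↔ bit z (n :: s) = true) := by
  rw [bit_eq_true, br_cons]
  unfold tf
  split_ifs with h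
  · rw [mem_toggle]
    simp [h]
  · simp [h]

/-- the twist along the branch -/
noncomputable def twist (z : ℕ → ℕ) : TV → TV
  | TV.p s b => TV.p s (b ^^ bit z s)
  | TV.q s f => TV.q s (tf z s f)
  | TV.e s f n => TV.e s (tf z s f) n
  | TV.l s => TV.l s
  | TV.m i => TV.m i

theorem twist_twist (z : ℕ → ℕ) (x : TV) : twist z (twist z x) = x := by
  cases x <;> simp [twist, tf_tf]

theorem tr_twist (S : Set (List ℕ)) (z : ℕ → ℕ) (hz : ∀ n, pre z n ∈ S) (x y : TV) :
    TR S true (twist z x) (twist z y) ↔ TR S false x y := by
  cases x with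
  | p s b => cases y <;> simp [twist, TR]
  | q s f =>
    cases y with
    | p s' b =>
      simp only [twist, TR]
      constructor
      · rintro ⟨rfl, h⟩
        refine ⟨rfl, ?_⟩
        rw [par_tf] at h
        exact Bool.xor_left_inj.mp h
      · rintro ⟨rfl, rfl⟩
        exact ⟨rfl, (par_tf z s f).symm⟩
    | q s' f' => simp [twist, TR]
    | e s' f' n =>
      simp only [twist, TR]
      constructor
      · rintro ⟨rfl, h⟩
        refine ⟨rfl, ?_⟩
        rw [← tf_tf z s f, h, tf_tf]
      · rintro ⟨rfl, rfl⟩
        exact ⟨rfl, rfl⟩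
    | l s' => simp [twist, TR]
    | m i => simp [twist, TR]
  | e s f n =>
    cases y with
    | p s' b =>
      simp only [twist, TR]
      constructor
      · rintro ⟨rfl, h⟩
        refine ⟨rfl, ?_⟩
        rw [mem_tf] at h
        cases b <;> cases hb : bit z (n :: s) <;> simp [hb] at h ⊢ <;> tauto
      · rintro ⟨rfl, h⟩
        refine ⟨rfl, ?_⟩
        rw [mem_tf]
        cases b <;> cases hb : bit z (n :: s) <;> simp at h ⊢ <;> tauto
    | q s' f' => simp [twist, TR]
    | e s' f' n' => simp [twist, TR]
    | l s' => simp [twist, TR]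
    | m i => simp [twist, TR]
  | l s =>
    cases y with
    | p s' b =>
      simp only [twist, TR]
      constructor
      · rintro ⟨rfl, h⟩
        refine ⟨rfl, ?_⟩
        rcases h with h | h
        · by_cases hs : Br z s
          · right
            rw [hs]
            exact hz _
          · left
            have : bit z s = false := by
              rw [← Bool.not_eq_true, bit_eq_true]; exact hs
            rw [this, Bool.xor_false] at h
            exact h
        · exact Or.inr h
      · rintro ⟨rfl, h⟩
        refine ⟨rfl, ?_⟩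
        rcases h with h | h
        · by_cases hs : Br z s
          · right
            rw [hs]
            exact hz _
          · left
            have : bit z s = false := by
              rw [← Bool.not_eq_true, bit_eq_true]; exact hs
            rw [this, Bool.xor_false]
            exact h
        · exact Or.inr h
    | q s' f' => simp [twist, TR]
    | e s' f' n => simp [twist, TR]
    | l s' => simp [twist, TR]
    | m i => simp [twist, TR]
  | m i =>
    cases y with
    | p s b =>
      simp only [twist, TR]
      constructor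
      · rintro ⟨rfl, h⟩
        refine ⟨rfl, ?_⟩
        rw [(bit_eq_true z []).mpr (br_nil z)] at h
        simpa using h
      · rintro ⟨rfl, rfl⟩
        refine ⟨rfl, ?_⟩
        rw [(bit_eq_true z []).mpr (br_nil z)]
        rfl
    | q s' f' => simp [twist, TR]
    | e s' f' n => simp [twist, TR]
    | l s' => simp [twist, TR]
    | m j => simp [twist, TR]

/-- an infinite branch gives an isomorphism -/
noncomputable def twistIso (S : Set (List ℕ)) (z : ℕ → ℕ) (hz : ∀ n, pre z n ∈ S) :
    tw S false ≃g tw S true where
  toFun := twist z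
  invFun := twist z
  left_inv := twist_twist z
  right_inv := twist_twist z
  map_rel_iff' := by
    intro x y
    change TR S true (twist z x) (twist z y) ∨ TR S true (twist z y) (twist z x) ↔ _
    rw [tr_twist S z hz, tr_twist S z hz]
    rfl

end Pool.Agent.FinStab
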